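import Pool.Agent.helper31.EQ.Defs
import Pool.Agent.helper63.EquiGeom

/-!
# EQ: bodies with two `i`-equichordal points for every real `i < 1`

The theorem of the hand-in file `TwoPoints`, with the definitions of `EQ/Defs.lean`.
-/

namespace Pool.Agent.helper31.EQ.Exist

open Set Metric
open Pool.Agent.helper31.EQ (IsBody radial IsStarBody translate chordFun IsEquichordalPoint)

variable {E : Type*} [NormedAddCommGroup E] [NormedSpace ℝ E]

open Pool.Agent.helper63.Equi

omit [NormedSpace ℝ E] in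
lemma translate_image (M : Set E) (p : E) :
    translate ((fun z => z + p) '' M) p = M := by
  unfold translate
  rw [image_image]
  simp

omit [NormedSpace ℝ E] in
lemma isBody_image {M : Set E} (hM : IsBody M) (p : E) : IsBody ((fun z => z + p) '' M) := by
  obtain ⟨h1, h2⟩ := hM
  have he : (fun z => z + p) = (Homeomorph.addRight p : E → E) := by
    ext z
    rfl
  refine ⟨h1.image (continuous_id.add continuous_const), ?_⟩
  rw [he, ← Homeomorph.image_interior, ← Homeomorph.image_closure, h2]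

lemma isBody_starSet [ProperSpace E] {ρ : E → ℝ} (hc : ContinuousOn ρ (sphere 0 1))
    (hpos : ∀ u : E, ‖u‖ = 1 → 0 < ρ u) : IsBody (starSet ρ) :=
  ⟨isCompact_starSet hc, closure_interior_starSet hc hpos⟩

lemma equichordal_of_starSet [ProperSpace E] {ρ : E → ℝ} {i : ℝ} {L : Set E} {p : E}
    (hc : ContinuousOn ρ (sphere 0 1)) (hpos : ∀ u : E, ‖u‖ = 1 → 0 < ρ u)
    (hL : L = (fun z => z + p) '' starSet ρ) {a : ℝ} (ha : 0 < a)
    (hch : ∀ u : E, ‖u‖ = 1 →
      (if i = 0 then ρ u * ρ (-u) else (ρ u ^ i + ρ (-u) ^ i) / 2) = a) :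
    IsEquichordalPoint i L p := by
  have htr : translate L p = starSet ρ := by rw [hL, translate_image]
  have hrad : ∀ u : E, ‖u‖ = 1 → radial (starSet ρ) u = ρ u := fun u hu =>
    radial_starSet hpos hu
  refine ⟨?_, ?_, a, ha, ?_⟩
  · have he : (fun z => z + p) = (Homeomorph.addRight p : E → E) := by
      ext z
      rfl
    rw [hL, he, ← Homeomorph.image_interior]
    exact ⟨0, zero_mem_interior hc hpos, by simp⟩
  · rw [htr]
    refine ⟨isCompact_starSet hc, starConvex_starSet, ?_, ?_⟩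
    · intro u hu
      rw [hrad u hu]
      exact hpos u hu
    · refine hc.congr fun u hu => hrad u (by simpa using hu)
  · intro u hu
    unfold chordFun
    rw [htr, hrad u hu, hrad (-u) (by rw [norm_neg]; exact hu)]
    exact hch u hu

section inner

variable {F : Type*} [NormedAddCommGroup F] [InnerProductSpace ℝ F]

open scoped InnerProductSpace

/-- The case `i ≠ 0`. -/
lemma exists_nonzero [ProperSpace F] {e : F} (he : ‖e‖ = 1) {i : ℝ} (hi0 : i ≠ 0)
    (hi : i < 1) :
    ∃ L : Set F, IsBody L ∧ ∃ p q : F, p ≠ q ∧ IsEquichordalPoint i L p ∧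
      IsEquichordalPoint i L q := by
  obtain ⟨δ, r, τ, σ, h⟩ := exists_data hi0 hi
  set ρq : F → ℝ := fun u => Pool.Agent.helper63.Equi.FF δ r τ σ ⟪e, u⟫_ℝ with hρq
  set ρp : F → ℝ := fun u => Pool.Agent.helper63.Equi.FF δ r τ σ (-⟪e, u⟫_ℝ) with hρp
  have hq0 : ∀ u : F, ‖u‖ = 1 → 0 < ρq u := fun u _ => h.FF_pos _
  have hp0 : ∀ u : F, ‖u‖ = 1 → 0 < ρp u := fun u _ => h.FF_pos _
  have hqc : ContinuousOn ρq (sphere 0 1) := h.cont_q he
  have hpc : ContinuousOn ρp (sphere 0 1) := h.cont_p he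
  have hL : (fun z => z + (0 : F)) '' starSet ρq = (fun z => z + -(δ • e)) '' starSet ρp := by
    ext x
    constructor
    · rintro ⟨z, hz, rfl⟩
      refine ⟨z + δ • e, (h.star_iff he z).1 hz, ?_⟩
      simp
    · rintro ⟨z, hz, rfl⟩
      refine ⟨z + -(δ • e), ?_, by simp⟩
      apply (h.star_iff he _).2
      simpa using hz
  refine ⟨(fun z => z + (0 : F)) '' starSet ρq, isBody_image (isBody_starSet hqc hq0) 0,
    -(δ • e), 0, ?_, ?_, ?_⟩
  · rw [neg_ne_zero]
    apply smul_ne_zero h.hδ.ne'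
    intro h0
    rw [h0, norm_zero] at he
    exact zero_ne_one he
  · apply equichordal_of_starSet hpc hp0 hL one_pos
    intro u _
    rw [if_neg hi0]
    simp only [hρp, inner_neg_right]
    have := h.FF_eq (-⟪e, u⟫_ℝ)
    rw [this]
    norm_num
  · apply equichordal_of_starSet hqc hq0 rfl one_pos
    intro u _
    rw [if_neg hi0]
    simp only [hρq, inner_neg_right]
    have := h.FF_eq (⟪e, u⟫_ℝ)
    rw [this]
    norm_num

/-- The case `i = 0`: the unit ball, its centre, and a point at distance `1/2`. -/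
lemma exists_zero [ProperSpace F] {e : F} (he : ‖e‖ = 1) :
    ∃ L : Set F, IsBody L ∧ ∃ p q : F, p ≠ q ∧ IsEquichordalPoint 0 L p ∧
      IsEquichordalPoint 0 L q := by
  set G : ℝ → ℝ := fun T => -(T / 2) + √(T ^ 2 / 4 + 3 / 4) with hG
  have hGc : Continuous G := by
    apply Continuous.add
    · exact (continuous_id.div_const 2).neg
    · exact Real.continuous_sqrt.comp
        (((continuous_id.pow 2).div_const 4).add continuous_const)
  have hS : ∀ T : ℝ, √(T ^ 2 / 4 + 3 / 4) ^ 2 = T ^ 2 / 4 + 3 / 4 := fun T =>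
    Real.sq_sqrt (by positivity)
  have hS0 : ∀ T : ℝ, 0 < √(T ^ 2 / 4 + 3 / 4) := fun T => Real.sqrt_pos.2 (by positivity)
  have hST : ∀ T : ℝ, |T / 2| < √(T ^ 2 / 4 + 3 / 4) := fun T => by
    apply abs_lt_of_sq_lt_sq _ (hS0 T).le
    rw [hS]
    nlinarith
  have hGpos : ∀ T, 0 < G T := fun T => by
    have := (abs_lt.1 (hST T)).2
    simp only [hG]
    linarith
  have hGprod : ∀ T, G T * G (-T) = 3 / 4 := fun T => by
    simp only [hG, neg_sq]
    have := hS T
    nlinarith
  have hGiff : ∀ s T : ℝ, 0 < s → (s ≤ G T ↔ s ^ 2 + s * T ≤ 3 / 4) := by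
    intro s T hs
    have h1 := hS T
    have h2 := abs_lt.1 (hST T)
    simp only [hG]
    constructor
    · intro h
      have h3 : s + T / 2 ≤ √(T ^ 2 / 4 + 3 / 4) := by linarith
      rcases le_or_gt 0 (s + T / 2) with h4 | h4
      · nlinarith
      · nlinarith
    · intro h
      by_contra hcon
      push Not at hcon
      have h3 : √(T ^ 2 / 4 + 3 / 4) < s + T / 2 := by linarith
      nlinarith [hS0 T]
  set ρq : F → ℝ := fun u => G ⟪e, u⟫_ℝ with hρq
  set ρp : F → ℝ := fun _ => 1 with hρp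
  have hq0 : ∀ u : F, ‖u‖ = 1 → 0 < ρq u := fun u _ => hGpos _
  have hp0 : ∀ u : F, ‖u‖ = 1 → 0 < ρp u := fun u _ => one_pos
  have hqc : ContinuousOn ρq (sphere 0 1) :=
    (hGc.comp (continuous_const.inner continuous_id)).continuousOn
  have hpc : ContinuousOn ρp (sphere 0 1) := continuousOn_const
  have key : ∀ z : F, z ∈ starSet ρq ↔ z + (1 / 2 : ℝ) • e ∈ starSet ρp := by
    intro z
    have hnorm : ‖z + (1 / 2 : ℝ) • e‖ ^ 2 = ‖z‖ ^ 2 + ⟪e, z⟫_ℝ + 1 / 4 := by
      rw [norm_add_sq_real, inner_smul_right, norm_smul, he, real_inner_comm]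
      norm_num
      ring
    have b1 : z + (1 / 2 : ℝ) • e ∈ starSet ρp ↔ ‖z‖ ^ 2 + ⟪e, z⟫_ℝ ≤ 3 / 4 := by
      have c1 : z + (1 / 2 : ℝ) • e ∈ starSet ρp ↔ ‖z + (1 / 2 : ℝ) • e‖ ≤ 1 := by
        unfold starSet
        simp only [mem_ofPred_eq, hρp]
        constructor
        · rintro (h | h)
          · rw [h, norm_zero]; exact zero_le_one
          · exact h
        · intro h
          exact Or.inr h
      rw [c1]
      constructor
      · intro h
        have := pow_le_pow_left₀ (norm_nonneg _) h 2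
        rw [hnorm] at this
        linarith
      · intro h
        rw [← abs_of_nonneg (norm_nonneg (z + (1 / 2 : ℝ) • e))]
        apply abs_le_one_iff_mul_self_le_one.2
        rw [← sq, hnorm]
        linarith
    rw [b1]
    rcases eq_or_ne z 0 with h0 | h0
    · subst h0
      constructor
      · intro _
        simp only [norm_zero, inner_zero_right]
        norm_num
      · intro _
        exact Or.inl rfl
    · have hz : 0 < ‖z‖ := norm_pos_iff.2 h0
      have c2 : z ∈ starSet ρq ↔ ‖z‖ ≤ G (‖z‖⁻¹ * ⟪e, z⟫_ℝ) := by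
        unfold starSet
        simp only [mem_ofPred_eq, hρq, inner_smul_right]
        exact or_iff_right h0
      rw [c2, hGiff _ _ hz]
      have : ‖z‖ * (‖z‖⁻¹ * ⟪e, z⟫_ℝ) = ⟪e, z⟫_ℝ := by
        field_simp
      rw [this]
  have hL : (fun z => z + (1 / 2 : ℝ) • e) '' starSet ρq = (fun z => z + 0) '' starSet ρp := by
    ext x
    constructor
    · rintro ⟨z, hz, rfl⟩
      exact ⟨z + (1 / 2 : ℝ) • e, (key z).1 hz, by simp⟩
    · rintro ⟨z, hz, rfl⟩
      refine ⟨z - (1 / 2 : ℝ) • e, ?_, by simp⟩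
      apply (key _).2
      simpa using hz
  refine ⟨(fun z => z + (1 / 2 : ℝ) • e) '' starSet ρq,
    isBody_image (isBody_starSet hqc hq0) _, 0, (1 / 2 : ℝ) • e, ?_, ?_, ?_⟩
  · symm
    apply smul_ne_zero (by norm_num)
    intro h0
    rw [h0, norm_zero] at he
    exact zero_ne_one he
  · apply equichordal_of_starSet hpc hp0 hL (a := 1) one_pos
    intro u _
    rw [if_pos rfl]
    simp [hρp]
  · apply equichordal_of_starSet hqc hq0 rfl (a := 3 / 4) (by norm_num)
    intro u _
    rw [if_pos rfl]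
    simp only [hρq, inner_neg_right]
    exact hGprod _

end inner

/-- **Theorem.** For every real `i < 1` and every dimension `n ≥ 2` there is a body in Euclidean
space `E^n` with two distinct `i`-equichordal points. -/
theorem exists_two_points (n : ℕ) (hn : 2 ≤ n) (i : ℝ) (hi : i < 1) :
    ∃ L : Set (EuclideanSpace ℝ (Fin n)), IsBody L ∧
      ∃ p q : EuclideanSpace ℝ (Fin n), p ≠ q ∧
        IsEquichordalPoint i L p ∧ IsEquichordalPoint i L q := by
  have he : ‖(EuclideanSpace.single (⟨0, by omega⟩ : Fin n) (1 : ℝ) :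
      EuclideanSpace ℝ (Fin n))‖ = 1 := by
    simp
  rcases eq_or_ne i 0 with h0 | h0
  · subst h0
    exact exists_zero he
  · exact exists_nonzero he h0 hi

end Pool.Agent.helper31.EQ.Exist
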