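import Pool.Agent.helper31.EQ.Main
import Pool.Agent.helper31.EQ.Exist

/-!
# EQ: the complete answer, from the two families of traps
-/

namespace Pool.Agent.helper31.EQ

open Set Metric

/-- The two machine and hand parts: `W` for `1 < e ≤ 4`, `R` for `4 ≤ e`. -/
theorem full_of
    (HW : ∀ e κ : ℝ, 1 < e → e ≤ 4 → 0 < κ →
      2 * (Real.cosh κ - 1) / Real.cosh (e * κ / 2) ^ (2 / e) < 4 ^ (1 / e) - 1 →
      Nonempty (WTrap e (Real.exp κ)))
    (HR : ∀ e κ : ℝ, 4 ≤ e → 0 < κ →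
      2 * (Real.cosh κ - 1) / Real.cosh (e * κ / 2) ^ (2 / e) < 4 ^ (1 / e) - 1 →
      Nonempty (SeqTrap e (Real.exp κ)))
    {n : ℕ} (hn : 2 ≤ n) {i : ℝ} (hi : i ≠ 1) :
    (∃ L : Set (EuclideanSpace ℝ (Fin n)), IsBody L ∧ ∃ p q, p ≠ q ∧
      IsEquichordalPoint i L p ∧ IsEquichordalPoint i L q) ↔ i < 1 := by
  constructor
  · intro h
    by_contra hc
    have h1 : 1 < i := lt_of_le_of_ne (not_lt.1 hc) (Ne.symm hi)
    refine no_two_points_of_all ?_ hn h1 h
    intro e κ he hκ hb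
    rcases le_total e 4 with h4 | h4
    · exact Or.inl (HW e κ he h4 hκ hb)
    · exact Or.inr (Or.inl (HR e κ h4 hκ hb))
  · intro h
    exact Exist.exists_two_points n hn i h

end Pool.Agent.helper31.EQ
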