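import Pool.Agent.helper31.EQ.ChordSymm

/-!
# EQ-E1: the end of the argument: `Re H(iη) = 1/2` for a body
-/

namespace Pool.Agent.helper31.EQ

open Set Metric Filter Topology Complex

/-- `H` analytic on an open set containing the segment `[-iη, iη]`, real on real points near `0`
and `H(t) + H(-t) = 1` there.  By compactness of the segment some box
`N = {|Re t| < ε, |Im t| < η + ε}` is contained in `T`; `N` is open, convex (hence preconnected)
and symmetric under `t ↦ -t` and `t ↦ conj t`.  By the identity theorem on `N`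
(`AnalyticOnNhd.eqOn_of_preconnected_of_frequently_eq` or the version for `DifferentiableOn`),
`H(t) + H(-t) = 1` and `conj (H (conj t)) = H t` on `N`.  At `t = iη`, `-t = conj t`, so
`2 Re H(iη) = 1`. -/
theorem re_eq_half {T : Set ℂ} (hT : IsOpen T) {η : ℝ} (hη : 0 < η)
    (hseg : ∀ y : ℝ, |y| ≤ η → ((y : ℂ) * I) ∈ T) {H : ℂ → ℂ} (hH : DifferentiableOn ℂ H T)
    {δ : ℝ} (hδ : 0 < δ) (hreal : ∀ t : ℝ, |t| < δ → (H t).im = 0)
    (hsum : ∀ t : ℝ, |t| < δ → H t + H (-t) = 1) : (H ((η : ℂ) * I)).re = 1 / 2 := by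
  -- the segment is compact
  set K : Set ℂ := (fun y : ℝ => ((y : ℂ) * I)) '' Icc (-η) η with hK
  have hKc : IsCompact K := isCompact_Icc.image (by fun_prop)
  have hKT : K ⊆ T := by
    rintro _ ⟨y, hy, rfl⟩
    exact hseg y (abs_le.2 hy)
  obtain ⟨ε, hε, hεT⟩ := hKc.exists_thickening_subset_open hT hKT
  set N : Set ℂ := {t | |t.re| < ε / 2 ∧ |t.im| < η + ε / 2} with hN
  have hNT : N ⊆ T := by
    intro t ht
    apply hεT
    rw [Metric.mem_thickening_iff]
    -- the clamp of the imaginary part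
    have hclamp : ∃ y : ℝ, y ∈ Icc (-η) η ∧ |t.im - y| < ε / 2 := by
      have h2 := abs_lt.1 ht.2
      rcases le_total t.im (-η) with h | h
      · refine ⟨-η, ⟨le_rfl, by linarith⟩, ?_⟩
        rw [abs_lt]
        constructor <;> linarith
      · rcases le_total t.im η with h' | h'
        · refine ⟨t.im, ⟨h, h'⟩, ?_⟩
          rw [sub_self, abs_zero]
          linarith
        · refine ⟨η, ⟨by linarith, le_rfl⟩, ?_⟩
          rw [abs_lt]
          constructor <;> linarith
    obtain ⟨y, hy, hy'⟩ := hclamp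
    refine ⟨(y : ℂ) * I, ⟨y, hy, rfl⟩, ?_⟩
    rw [dist_eq_norm]
    have h1 := Complex.norm_le_abs_re_add_abs_im (t - (y : ℂ) * I)
    have h2 : (t - (y : ℂ) * I).re = t.re := by simp
    have h3 : (t - (y : ℂ) * I).im = t.im - y := by simp
    rw [h2, h3] at h1
    have h4 := ht.1
    linarith
  have hNo : IsOpen N := by
    have h1 : IsOpen {t : ℂ | |t.re| < ε / 2} := isOpen_lt Complex.continuous_re.abs continuous_const
    have h2 : IsOpen {t : ℂ | |t.im| < η + ε / 2} := isOpen_lt Complex.continuous_im.abs continuous_const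
    exact h1.inter h2
  have hNconv : Convex ℝ N := by
    have h1 : Convex ℝ {t : ℂ | |t.re| < ε / 2} := by
      have : {t : ℂ | |t.re| < ε / 2} = Complex.reLm ⁻¹' (Ioo (-(ε / 2)) (ε / 2)) := by
        ext t
        simp [abs_lt]
      rw [this]
      exact (convex_Ioo _ _).linear_preimage _
    have h2 : Convex ℝ {t : ℂ | |t.im| < η + ε / 2} := by
      have : {t : ℂ | |t.im| < η + ε / 2} = Complex.imLm ⁻¹' (Ioo (-(η + ε / 2)) (η + ε / 2)) := by
        ext t
        change |t.im| < η + ε / 2 ↔ t.im ∈ Ioo (-(η + ε / 2)) (η + ε / 2)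
        rw [abs_lt, mem_Ioo]
      rw [this]
      exact (convex_Ioo _ _).linear_preimage _
    exact h1.inter h2
  have hNneg : ∀ t ∈ N, -t ∈ N := by
    intro t ht
    simpa [hN] using ht
  have hNconj : ∀ t ∈ N, (starRingEnd ℂ) t ∈ N := by
    intro t ht
    simpa [hN] using ht
  have h0 : (0 : ℂ) ∈ N := by
    refine ⟨?_, ?_⟩
    · simpa using hε
    · simp only [zero_im, abs_zero]
      linarith
  have hHN : DifferentiableOn ℂ H N := hH.mono hNT
  have hHd : ∀ t ∈ N, DifferentiableAt ℂ H t := fun t ht => (hHN t ht).differentiableAt (hNo.mem_nhds ht)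
  -- frequently near zero
  have hfreq : ∀ P : ℂ → Prop, (∀ t : ℝ, |t| < δ → P t) → ∃ᶠ z in 𝓝[≠] (0 : ℂ), P z := by
    intro P hP
    have hmap : Tendsto (fun t : ℝ => (t : ℂ)) (𝓝[≠] (0 : ℝ)) (𝓝[≠] (0 : ℂ)) := by
      apply tendsto_nhdsWithin_of_tendsto_nhds_of_eventually_within
      · have := (Complex.continuous_ofReal.tendsto (0 : ℝ))
        rw [Complex.ofReal_zero] at this
        exact this.mono_left nhdsWithin_le_nhds
      · filter_upwards [self_mem_nhdsWithin] with t ht
        simpa using ht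
    have hev : ∀ᶠ t : ℝ in 𝓝[≠] (0 : ℝ), P t := by
      have : ∀ᶠ t : ℝ in 𝓝 (0 : ℝ), |t| < δ := by
        have := Metric.ball_mem_nhds (0 : ℝ) hδ
        filter_upwards [this] with t ht
        simpa using ht
      exact (this.filter_mono nhdsWithin_le_nhds).mono hP
    exact hmap.frequently hev.frequently
  have hHa : AnalyticOnNhd ℂ H N := hHN.analyticOnNhd hNo
  -- first identity
  have hid1 : EqOn (fun t => H t + H (-t)) (fun _ => 1) N := by
    refine AnalyticOnNhd.eqOn_of_preconnected_of_frequently_eq (z₀ := 0) ?_ ?_ hNconv.isPreconnected h0 ?_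
    · refine DifferentiableOn.analyticOnNhd (fun t ht => ?_) hNo
      exact ((hHd t ht).add ((hHd (-t) (hNneg t ht)).comp t (differentiableAt_id.neg))).differentiableWithinAt
    · exact analyticOnNhd_const
    · exact hfreq _ hsum
  have hid2 : EqOn (fun t => (starRingEnd ℂ) (H ((starRingEnd ℂ) t))) H N := by
    refine AnalyticOnNhd.eqOn_of_preconnected_of_frequently_eq (z₀ := 0) ?_ hHa hNconv.isPreconnected h0 ?_
    · refine DifferentiableOn.analyticOnNhd (fun t ht => ?_) hNo
      have h1 := (hHd _ (hNconj t ht)).conj_conj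
      rw [Complex.conj_conj] at h1
      exact h1.differentiableWithinAt
    · apply hfreq
      intro t ht
      rw [Complex.conj_ofReal]
      exact Complex.conj_eq_iff_im.2 (hreal t ht)
  have hηN : (η : ℂ) * I ∈ N := by
    refine ⟨?_, ?_⟩
    · simpa using hε
    · simp only [mul_im, ofReal_re, I_im, mul_one, ofReal_im, I_re, mul_zero, add_zero]
      rw [abs_of_pos hη]
      linarith
  have e1 := hid1 hηN
  have e2 := hid2 hηN
  simp only at e1 e2
  have hconj : (starRingEnd ℂ) ((η : ℂ) * I) = -((η : ℂ) * I) := by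
    simp
  rw [hconj] at e2
  have e3 : H (-((η : ℂ) * I)) = (starRingEnd ℂ) (H ((η : ℂ) * I)) := by
    rw [← e2, Complex.conj_conj]
  rw [e3] at e1
  have e4 := congrArg Complex.re e1
  simp only [add_re, conj_re, one_re] at e4
  linarith

/-- The same for a chord pair: `H(t) = V(t)/F(t)`, `V(t) = (g t - t)^(-e)`, on real `t` near `0`
(use `ChordPair.add_neg`). -/
theorem ChordPair.re_eq_half {e m : ℝ} (he : 1 < e) (hm : 1 < m) {g h : ℝ ≃o ℝ}
    (hc : ChordPair e m g h) {T : Set ℂ} (hT : IsOpen T) {η : ℝ} (hη : 0 < η)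
    (hseg : ∀ y : ℝ, |y| ≤ η → ((y : ℂ) * I) ∈ T) {H : ℂ → ℂ} (hH : DifferentiableOn ℂ H T)
    {δ : ℝ} (hδ : 0 < δ)
    (hreal : ∀ t : ℝ, |t| < δ → H t = (((g t - t) ^ (-e) / FF e m t : ℝ) : ℂ)) :
    (H ((η : ℂ) * I)).re = 1 / 2 := by
  refine Pool.Agent.helper31.EQ.re_eq_half hT hη hseg hH hδ ?_ ?_
  · intro t ht
    rw [hreal t ht, Complex.ofReal_im]
  · intro t ht
    have h1 := hreal t ht
    have h2 := hreal (-t) (by rwa [abs_neg])
    rw [Complex.ofReal_neg] at h2
    have h3 := hc.add_neg he hm t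
    rw [h1, h2, ← Complex.ofReal_add, sub_neg_eq_add, h3, Complex.ofReal_one]

end Pool.Agent.helper31.EQ
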