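import Pool.Agent.helper31.EQ.RealUnique

/-!
# EQ-R4: consequences for a chord pair
-/

namespace Pool.Agent.helper31.EQ

open Set Metric Filter Topology

/-- The forward orbit of `t` under alternate application, starting with `k₁`:
`t, k₁ t, k₂ (k₁ t), k₁ (k₂ (k₁ t)), ...`. -/
def orb (k₁ k₂ : ℝ ≃o ℝ) (t : ℝ) : ℕ → ℝ
  | 0 => t
  | n + 1 => if n % 2 = 0 then k₁ (orb k₁ k₂ t n) else k₂ (orb k₁ k₂ t n)

/-- The values `f_n` along `orb k₁ k₂ t`: the node `orb n` is reached by `k₂` if `n` is even and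
by `k₁` if `n` is odd. -/
noncomputable def orbf (e m : ℝ) (k₁ k₂ : ℝ ≃o ℝ) (t : ℝ) (n : ℕ) : ℝ :=
  if n % 2 = 0 then fval e m k₂ (orb k₁ k₂ t n) else fval e m k₁ (orb k₁ k₂ t n)

theorem ChordPair.swap {e m : ℝ} {g h : ℝ ≃o ℝ} (hc : ChordPair e m g h) :
    ChordPair e m h g :=
  ⟨hc.gt_h, hc.gt_g, hc.rel_h, hc.rel_g, hc.lim_h, hc.lim_g, hc.lim_h', hc.lim_g'⟩

/-- The reversed pair: `t ↦ -h⁻¹(-t)`, `t ↦ -g⁻¹(-t)`.  The order isomorphism `negIso k` is
`t ↦ - k.symm (-t)` with inverse `t ↦ - k (-t)`. -/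
def negIso (k : ℝ ≃o ℝ) : ℝ ≃o ℝ where
  toFun t := -(k.symm (-t))
  invFun t := -(k (-t))
  left_inv t := by simp
  right_inv t := by simp
  map_rel_iff' := by
    intro a b
    simp only [Equiv.coe_fn_mk, neg_le_neg_iff, OrderIso.le_iff_le]

theorem negIso_apply (k : ℝ ≃o ℝ) (t : ℝ) : negIso k t = -(k.symm (-t)) := rfl

theorem negIso_symm_apply (k : ℝ ≃o ℝ) (t : ℝ) : (negIso k).symm t = -(k (-t)) := rfl

theorem FF_neg (e m t : ℝ) : FF e m (-t) = FF e m t := by
  simp only [FF]; rw [neg_sq]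

theorem ChordPair.reverse {e m : ℝ} {g h : ℝ ≃o ℝ} (hc : ChordPair e m g h) :
    ChordPair e m (negIso h) (negIso g) := by
  constructor
  · intro t
    have := hc.gt_h (h.symm (-t))
    rw [OrderIso.apply_symm_apply] at this
    rw [negIso_apply]; linarith
  · intro t
    have := hc.gt_g (g.symm (-t))
    rw [OrderIso.apply_symm_apply] at this
    rw [negIso_apply]; linarith
  · intro t
    have := hc.rel_g (-t)
    rw [FF_neg] at this
    rw [negIso_apply, negIso_symm_apply, ← this]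
    rw [show -(h.symm (-t)) - t = -t - h.symm (-t) by ring,
      show t - -(g (-t)) = g (-t) - -t by ring]
    ring
  · intro t
    have := hc.rel_h (-t)
    rw [FF_neg] at this
    rw [negIso_apply, negIso_symm_apply, ← this]
    rw [show -(g.symm (-t)) - t = -t - g.symm (-t) by ring,
      show t - -(h (-t)) = h (-t) - -t by ring]
    ring
  · have := hc.lim_h'.comp tendsto_neg_atTop_atBot
    refine this.congr fun t => ?_
    simp only [Function.comp_apply, negIso_apply]
    rw [div_neg, neg_div]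
  · have := hc.lim_g'.comp tendsto_neg_atTop_atBot
    refine this.congr fun t => ?_
    simp only [Function.comp_apply, negIso_apply]
    rw [div_neg, neg_div]
  · have := hc.lim_h.comp tendsto_neg_atBot_atTop
    refine this.congr fun t => ?_
    simp only [Function.comp_apply, negIso_symm_apply]
    rw [div_neg, neg_div]
  · have := hc.lim_g.comp tendsto_neg_atBot_atTop
    refine this.congr fun t => ?_
    simp only [Function.comp_apply, negIso_symm_apply]
    rw [div_neg, neg_div]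

/-- `f > 0`, `f < 1` at every node. -/
theorem ChordPair.fval_pos {e m : ℝ} (hm : 1 < m) {g h : ℝ ≃o ℝ} (hc : ChordPair e m g h)
    (t : ℝ) : 0 < fval e m g t ∧ fval e m g t < 1 ∧ 0 < fval e m h t ∧ fval e m h t < 1 := by
  have hF := FF_pos (e := e) hm t
  have hg1 : 0 < t - g.symm t := by
    have := hc.gt_g (g.symm t)
    rw [OrderIso.apply_symm_apply] at this; linarith
  have hh1 : 0 < t - h.symm t := by
    have := hc.gt_h (h.symm t)
    rw [OrderIso.apply_symm_apply] at this; linarith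
  have hg2 : 0 < g t - t := by have := hc.gt_g t; linarith
  have hh2 : 0 < h t - t := by have := hc.gt_h t; linarith
  have a1 := Real.rpow_pos_of_pos hg1 (-e)
  have a2 := Real.rpow_pos_of_pos hh1 (-e)
  have a3 := Real.rpow_pos_of_pos hg2 (-e)
  have a4 := Real.rpow_pos_of_pos hh2 (-e)
  have r1 := hc.rel_g t
  have r2 := hc.rel_h t
  refine ⟨div_pos a1 hF, ?_, div_pos a2 hF, ?_⟩
  · rw [fval, div_lt_one hF]; linarith
  · rw [fval, div_lt_one hF]; linarith

/-- `1 - f_h(t) = (g t - t)^(-e) / F(t)` (node relation at `t`, which is reached by `h` and left by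
`g`). -/
theorem ChordPair.one_sub_fval {e m : ℝ} (hm : 1 < m) {g h : ℝ ≃o ℝ} (hc : ChordPair e m g h)
    (t : ℝ) : 1 - fval e m h t = (g t - t) ^ (-e) / FF e m t := by
  have hF := FF_pos (e := e) hm t
  have r1 := hc.rel_g t
  rw [fval, eq_div_iff hF.ne', sub_mul, div_mul_cancel₀ _ hF.ne', one_mul]
  linarith

/-- `f → f_∞` at `+∞`: `g t / t → m` gives `(s - g⁻¹ s)/s → 1 - 1/m` as `s → ∞`. -/
theorem ChordPair.tendsto_fval {e m : ℝ} (he : 1 < e) (hm : 1 < m) {g h : ℝ ≃o ℝ}
    (hc : ChordPair e m g h) :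
    Tendsto (fval e m g) atTop (𝓝 (finf e m)) := by
  have hm0 : 0 < m := by linarith
  have hm1 : 0 < m - 1 := by linarith
  -- `g⁻¹ t / t → 1/m`
  have h1 : Tendsto (fun t => g.symm t / t) atTop (𝓝 (m⁻¹)) := by
    have h2 := (hc.lim_g.comp g.symm.tendsto_atTop).inv₀ hm0.ne'
    refine h2.congr fun t => ?_
    simp only [Function.comp_apply, OrderIso.apply_symm_apply, inv_div]
  have h3 : Tendsto (fun t => 1 - g.symm t / t) atTop (𝓝 (1 - m⁻¹)) := h1.const_sub 1
  have hpos : 0 < 1 - m⁻¹ := by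
    rw [sub_pos]; exact inv_lt_one_of_one_lt₀ hm
  have h4 : Tendsto (fun t => (1 - g.symm t / t) ^ (-e)) atTop (𝓝 ((1 - m⁻¹) ^ (-e))) :=
    h3.rpow_const (Or.inl hpos.ne')
  have h5 : Tendsto (fun t : ℝ => (t ^ 2)⁻¹) atTop (𝓝 0) :=
    (tendsto_pow_atTop (two_ne_zero)).inv_tendsto_atTop
  have h6 : Tendsto (fun t : ℝ => (1 + (t ^ 2)⁻¹) ^ (-e / 2)) atTop (𝓝 ((1 + 0) ^ (-e / 2))) :=
    (h5.const_add 1).rpow_const (Or.inl (by norm_num))
  rw [add_zero, Real.one_rpow] at h6
  have hCC := CC_pos (e := e) hm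
  have h7 := h4.div (h6.const_mul (CC e m)) (by rw [mul_one]; exact hCC.ne')
  have hval : (1 - m⁻¹) ^ (-e) / (CC e m * 1) = finf e m := by
    have e1 : (1 - m⁻¹) = (m - 1) / m := by field_simp
    have hme : 0 < m ^ e := Real.rpow_pos_of_pos hm0 e
    have hme1 : 0 < (m - 1) ^ e := Real.rpow_pos_of_pos hm1 e
    rw [mul_one, e1, Real.rpow_neg (div_nonneg hm1.le hm0.le), Real.div_rpow hm1.le hm0.le, CC,
      finf]
    have h8 : (0 : ℝ) < 1 + m ^ e := by positivity
    field_simp
  rw [hval] at h7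
  refine h7.congr' ?_
  filter_upwards [eventually_gt_atTop 0] with t ht
  have hg1 : 0 < t - g.symm t := by
    have := hc.gt_g (g.symm t)
    rw [OrderIso.apply_symm_apply] at this; linarith
  have hu : 0 < 1 - g.symm t / t := by
    rw [sub_pos, div_lt_one ht]; linarith
  have e2 : t - g.symm t = t * (1 - g.symm t / t) := by field_simp
  have e3 : 1 + t ^ 2 = t ^ 2 * (1 + (t ^ 2)⁻¹) := by field_simp; ring
  have e4 : (t ^ 2 : ℝ) ^ (-e / 2) = t ^ (-e) := by
    rw [← Real.rpow_natCast t 2, ← Real.rpow_mul ht.le]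
    congr 1
    push_cast
    ring
  have hte : 0 < t ^ (-e) := Real.rpow_pos_of_pos ht _
  have hv : (0 : ℝ) < 1 + (t ^ 2)⁻¹ := by positivity
  have hve : 0 < (1 + (t ^ 2)⁻¹) ^ (-e / 2) := Real.rpow_pos_of_pos hv _
  simp only [Pi.div_apply, fval, FF]
  rw [e3, Real.mul_rpow (by positivity) hv.le, e4, e2, Real.mul_rpow ht.le hu.le]
  have hne := hte.ne'
  have hne2 := hve.ne'
  have hne3 := hCC.ne'
  generalize (1 - g.symm t / t) ^ (-e) = A
  generalize (1 + (t ^ 2)⁻¹) ^ (-e / 2) = B at *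
  generalize t ^ (-e) = D at *
  field_simp

/-- The orbit of a positive start is an `IsOrb`. -/
theorem ChordPair.isOrb {e m : ℝ} (he : 1 < e) (hm : 1 < m) {g h : ℝ ≃o ℝ}
    (hc : ChordPair e m g h) {t : ℝ} (ht : 0 < t) :
    IsOrb e m (orb g h t) (orbf e m g h t) := by
  have hlt : ∀ n, orb g h t n < orb g h t (n + 1) := by
    intro n
    show orb g h t n < if n % 2 = 0 then g (orb g h t n) else h (orb g h t n)
    split_ifs
    · exact hc.gt_g _
    · exact hc.gt_h _
  have hpos : ∀ n, 0 < orb g h t n := by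
    intro n
    induction n with
    | zero => exact ht
    | succ n ih => exact ih.trans (hlt n)
  refine ⟨hpos, hlt, ?_, ?_, ?_⟩
  · intro n
    unfold orbf
    split_ifs
    · exact (hc.fval_pos hm _).2.2.1
    · exact (hc.fval_pos hm _).1
  · intro n
    have hF := FF_pos (e := e) hm (orb g h t (n + 1))
    rcases Nat.mod_two_eq_zero_or_one n with hn | hn
    · have h1 : (n + 1) % 2 = 1 := by omega
      have h2 : orb g h t (n + 1) = g (orb g h t n) := by
        show (if n % 2 = 0 then g (orb g h t n) else h (orb g h t n)) = _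
        rw [if_pos hn]
      have h3 : orbf e m g h t (n + 1) = fval e m g (orb g h t (n + 1)) := by
        unfold orbf; rw [if_neg (by omega)]
      rw [h3, fval, mul_div_cancel₀ _ hF.ne']
      have h4 : g.symm (orb g h t (n + 1)) = orb g h t n := by
        rw [h2, OrderIso.symm_apply_apply]
      rw [h4]
    · have h1 : (n + 1) % 2 = 0 := by omega
      have h2 : orb g h t (n + 1) = h (orb g h t n) := by
        show (if n % 2 = 0 then g (orb g h t n) else h (orb g h t n)) = _
        rw [if_neg (by omega)]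
      have h3 : orbf e m g h t (n + 1) = fval e m h (orb g h t (n + 1)) := by
        unfold orbf; rw [if_pos h1]
      rw [h3, fval, mul_div_cancel₀ _ hF.ne']
      have h4 : h.symm (orb g h t (n + 1)) = orb g h t n := by
        rw [h2, OrderIso.symm_apply_apply]
      rw [h4]
  · intro n
    have hF := FF_pos (e := e) hm (orb g h t n)
    rcases Nat.mod_two_eq_zero_or_one n with hn | hn
    · have h2 : orb g h t (n + 1) = g (orb g h t n) := by
        show (if n % 2 = 0 then g (orb g h t n) else h (orb g h t n)) = _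
        rw [if_pos hn]
      have h3 : orbf e m g h t n = fval e m h (orb g h t n) := by
        unfold orbf; rw [if_pos hn]
      rw [h3, hc.one_sub_fval hm, mul_div_cancel₀ _ hF.ne', h2]
    · have h2 : orb g h t (n + 1) = h (orb g h t n) := by
        show (if n % 2 = 0 then g (orb g h t n) else h (orb g h t n)) = _
        rw [if_neg (by omega)]
      have h3 : orbf e m g h t n = fval e m g (orb g h t n) := by
        unfold orbf; rw [if_neg (by omega)]
      rw [h3, hc.swap.one_sub_fval hm, mul_div_cancel₀ _ hF.ne', h2]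

/-- **Real tail.**  For all large `t`, `|f_g(t) - f_∞ - φ₁/t²| ≤ K/t⁴` (and the same for `h`, by
`ChordPair.swap`).  Apply `tail_bound` to the orbit `orb h g t`, whose node `0` is `t`, reached by
`g`; the nodes are `≥ t` and `f` is within `ε₀` of `f_∞` at all nodes `≥ T` by
`ChordPair.tendsto_fval` (for `g` and, by `swap`, for `h`). -/
theorem ChordPair.tail {e m : ℝ} (he : 1 < e) (hm : 1 < m) {g h : ℝ ≃o ℝ}
    (hc : ChordPair e m g h) :
    ∃ K T : ℝ, 0 < T ∧ ∀ t, T ≤ t →
      |fval e m g t - finf e m - phi1 e m / t ^ 2| ≤ K / t ^ 4 ∧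
      |fval e m h t - finf e m - phi1 e m / t ^ 2| ≤ K / t ^ 4 := by
  obtain ⟨ε₀, hε₀, T₀, hT₀, K, hK⟩ := tail_bound he hm
  have hg := hc.tendsto_fval he hm
  have hh := hc.swap.tendsto_fval he hm
  have hg' : ∀ᶠ t in atTop, |fval e m g t - finf e m| ≤ ε₀ := by
    filter_upwards [(Metric.tendsto_nhds.1 hg) ε₀ hε₀] with t ht
    rw [Real.dist_eq] at ht; exact ht.le
  have hh' : ∀ᶠ t in atTop, |fval e m h t - finf e m| ≤ ε₀ := by
    filter_upwards [(Metric.tendsto_nhds.1 hh) ε₀ hε₀] with t ht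
    rw [Real.dist_eq] at ht; exact ht.le
  obtain ⟨T₁, hT₁⟩ := eventually_atTop.1 (hg'.and hh')
  have key : ∀ k₁ k₂ : ℝ ≃o ℝ, ChordPair e m k₁ k₂ →
      (∀ t, T₁ ≤ t → |fval e m k₁ t - finf e m| ≤ ε₀ ∧ |fval e m k₂ t - finf e m| ≤ ε₀) →
      ∀ t, max T₀ T₁ ≤ t → |fval e m k₂ t - finf e m - phi1 e m / t ^ 2| ≤ K / t ^ 4 := by
    intro k₁ k₂ hk hb t ht
    have ht0 : T₀ ≤ t := (le_max_left _ _).trans ht
    have ht1 : T₁ ≤ t := (le_max_right _ _).trans ht
    have horb := hk.isOrb he hm (t := t) (hT₀.trans_le ht0)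
    have hge : ∀ n, t ≤ orb k₁ k₂ t n := by
      intro n
      induction n with
      | zero => exact le_refl _
      | succ n ih => exact ih.trans (horb.lt n).le
    have := hK _ _ horb (fun n => ht0.trans (hge n)) (fun n => ?_) 0
    · exact this
    · unfold orbf
      split_ifs
      · exact (hb _ (ht1.trans (hge n))).2
      · exact (hb _ (ht1.trans (hge n))).1
  refine ⟨K, max T₀ T₁, lt_max_of_lt_left hT₀, fun t ht => ⟨?_, ?_⟩⟩
  · exact key h g hc.swap (fun t ht => ⟨(hT₁ t ht).2, (hT₁ t ht).1⟩) t ht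
  · exact key g h hc hT₁ t ht

end Pool.Agent.helper31.EQ
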