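import Pool.Agent.helper31.EQ.ChordFacts

/-!
# EQ-R5: uniqueness and symmetry of chord pairs, trivial exclusion
-/

namespace Pool.Agent.helper31.EQ

open Set Metric Filter Topology

/-- Agreement near `+∞` of the first maps, from `orb_unique`. -/
theorem ChordPair.eventually_eq {e m : ℝ} (he : 1 < e) (hm : 1 < m) {g h g' h' : ℝ ≃o ℝ}
    (hc : ChordPair e m g h) (hc' : ChordPair e m g' h') : ∃ T, ∀ t, T ≤ t → g t = g' t := by
  obtain ⟨ε₀, hε₀, T₀, hT₀, hU⟩ := orb_unique he hm
  have ev : ∀ k₁ k₂ : ℝ ≃o ℝ, ChordPair e m k₁ k₂ →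
      ∀ᶠ t in atTop, |fval e m k₁ t - finf e m| ≤ ε₀ := by
    intro k₁ k₂ hk
    filter_upwards [(Metric.tendsto_nhds.1 (hk.tendsto_fval he hm)) ε₀ hε₀] with t ht
    rw [Real.dist_eq] at ht; exact ht.le
  obtain ⟨T₁, hT₁⟩ := eventually_atTop.1
    (((ev g h hc).and (ev h g hc.swap)).and ((ev g' h' hc').and (ev h' g' hc'.swap)))
  refine ⟨max T₀ T₁, fun t ht => ?_⟩
  have ht0 : T₀ ≤ t := (le_max_left _ _).trans ht
  have ht1 : T₁ ≤ t := (le_max_right _ _).trans ht
  have horb := hc.isOrb he hm (t := t) (hT₀.trans_le ht0)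
  have horb' := hc'.isOrb he hm (t := t) (hT₀.trans_le ht0)
  have hge : ∀ n, t ≤ orb g h t n := by
    intro n
    induction n with
    | zero => exact le_refl _
    | succ n ih => exact ih.trans (horb.lt n).le
  have hge' : ∀ n, t ≤ orb g' h' t n := by
    intro n
    induction n with
    | zero => exact le_refl _
    | succ n ih => exact ih.trans (horb'.lt n).le
  have := hU _ _ _ _ horb horb' (fun n => ht0.trans (hge n)) (fun n => ht0.trans (hge' n))
    (fun n => ?_) (fun n => ?_) rfl 1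
  · exact this
  · unfold orbf
    split_ifs
    · exact (hT₁ _ (ht1.trans (hge n))).1.2
    · exact (hT₁ _ (ht1.trans (hge n))).1.1
  · unfold orbf
    split_ifs
    · exact (hT₁ _ (ht1.trans (hge' n))).2.2
    · exact (hT₁ _ (ht1.trans (hge' n))).2.1

/-- One step downwards. -/
theorem ChordPair.step_down {e m : ℝ} (he : 1 < e) {g h g' h' : ℝ ≃o ℝ}
    (hc : ChordPair e m g h) (hc' : ChordPair e m g' h') {T : ℝ}
    (hT : ∀ t, T ≤ t → h t = h' t) : ∀ t, g.symm T ≤ t → g t = g' t := by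
  intro t ht
  have hs : T ≤ g t := by
    have := g.monotone ht
    rwa [OrderIso.apply_symm_apply] at this
  have r := hc.rel_h (g t)
  have r' := hc'.rel_h (g t)
  rw [← hT _ hs] at r'
  rw [OrderIso.symm_apply_apply] at r
  have e1 : (g t - t) ^ (-e) = (g t - g'.symm (g t)) ^ (-e) := by linarith
  have p1 : 0 ≤ g t - t := by have := hc.gt_g t; linarith
  have p2 : 0 ≤ g t - g'.symm (g t) := by
    have := hc'.gt_g (g'.symm (g t))
    rw [OrderIso.apply_symm_apply] at this; linarith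
  have e2 := Real.rpow_left_injOn (x := -e) (by linarith : -e ≠ 0) p1 p2 e1
  have e3 : g'.symm (g t) = t := by linarith
  calc g t = g' (g'.symm (g t)) := by rw [OrderIso.apply_symm_apply]
    _ = g' t := by rw [e3]

/-- **Uniqueness.**  First `g t = g' t` and `h t = h' t` for `t ≥ T` by `orb_unique` (node `1` of
the orbits).  Then downward: if `g, h` agree with `g', h'` on `[T, ∞)`, then for `s ≥ T` the node
relation `(h s - s)^(-e) + (s - g⁻¹ s)^(-e) = F(s)` gives `g⁻¹ s = g'⁻¹ s`, so `g = g'` on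
`[g⁻¹ T, ∞)`; likewise `h = h'` on `[h⁻¹ T, ∞)`.  So the infimum `T*` of the set of `T` with
`g = g'`, `h = h'` on `[T, ∞)` cannot be finite (otherwise, by continuity the set contains `T*`,
and then `max (g⁻¹ T*) (h⁻¹ T*) < T*` belongs to it). -/
theorem ChordPair.unique {e m : ℝ} (he : 1 < e) (hm : 1 < m) {g h g' h' : ℝ ≃o ℝ}
    (hc : ChordPair e m g h) (hc' : ChordPair e m g' h') : ∀ t, g t = g' t := by
  obtain ⟨T₁, hT₁⟩ := hc.eventually_eq he hm hc'
  obtain ⟨T₂, hT₂⟩ := hc.swap.eventually_eq he hm hc'.swap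
  set A : Set ℝ := {T | ∀ t, T ≤ t → g t = g' t ∧ h t = h' t} with hA
  have hAne : A.Nonempty := ⟨max T₁ T₂, fun t ht =>
    ⟨hT₁ t ((le_max_left _ _).trans ht), hT₂ t ((le_max_right _ _).trans ht)⟩⟩
  have hdown : ∀ T ∈ A, max (g.symm T) (h.symm T) ∈ A := by
    intro T hT t ht
    exact ⟨hc.step_down he hc' (fun s hs => (hT s hs).2) t ((le_max_left _ _).trans ht),
      hc.swap.step_down he hc'.swap (fun s hs => (hT s hs).1) t ((le_max_right _ _).trans ht)⟩
  have hlt : ∀ T, max (g.symm T) (h.symm T) < T := by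
    intro T
    have h1 := hc.gt_g (g.symm T)
    have h2 := hc.gt_h (h.symm T)
    rw [OrderIso.apply_symm_apply] at h1 h2
    exact max_lt h1 h2
  by_cases hb : BddBelow A
  · exfalso
    have hS : sInf A ∈ A := by
      have h1 : Ioi (sInf A) ⊆ {t | g t = g' t} := by
        intro t ht
        obtain ⟨T, hT, hTt⟩ := exists_lt_of_csInf_lt hAne ht
        exact (hT t hTt.le).1
      have h2 : Ioi (sInf A) ⊆ {t | h t = h' t} := by
        intro t ht
        obtain ⟨T, hT, hTt⟩ := exists_lt_of_csInf_lt hAne ht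
        exact (hT t hTt.le).2
      have c1 : IsClosed {t | g t = g' t} := isClosed_eq g.continuous g'.continuous
      have c2 : IsClosed {t | h t = h' t} := isClosed_eq h.continuous h'.continuous
      have h3 := closure_minimal h1 c1
      have h4 := closure_minimal h2 c2
      rw [closure_Ioi] at h3 h4
      exact fun t ht => ⟨h3 ht, h4 ht⟩
    exact absurd (csInf_le hb (hdown _ hS)) (not_le.2 (hlt _))
  · intro t
    rw [not_bddBelow_iff] at hb
    obtain ⟨T, hT, hTt⟩ := hb t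
    exact (hT t hTt.le).1

/-- `g = h` (apply `unique` to `hc` and `hc.swap`) and `h⁻¹ t = -g(-t)` (apply `unique` to `hc` and
`hc.reverse`: `g t = -h⁻¹(-t)`). -/
theorem ChordPair.symmetric {e m : ℝ} (he : 1 < e) (hm : 1 < m) {g h : ℝ ≃o ℝ}
    (hc : ChordPair e m g h) : (∀ t, h t = g t) ∧ (∀ t, g.symm t = -g (-t)) ∧
      (∀ t, h.symm t = -g (-t)) := by
  have h1 : ∀ t, g t = h t := hc.unique he hm hc.swap
  have h2 : ∀ t, g t = negIso h t := hc.unique he hm hc.reverse
  have h3 : g = h := OrderIso.ext (funext h1)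
  have h4 : ∀ t, h.symm t = -g (-t) := by
    intro t
    have := h2 (-t)
    rw [negIso_apply, neg_neg] at this
    rw [this, neg_neg]
  refine ⟨fun t => (h1 t).symm, fun t => ?_, h4⟩
  rw [← h4 t, h3]

/-- `V(t) + V(-t) = F(t)` for `V(t) = (g t - t)^(-e)`. -/
theorem ChordPair.add_neg {e m : ℝ} (he : 1 < e) (hm : 1 < m) {g h : ℝ ≃o ℝ}
    (hc : ChordPair e m g h) (t : ℝ) :
    (g t - t) ^ (-e) / FF e m t + (g (-t) + t) ^ (-e) / FF e m (-t) = 1 := by
  have hF := FF_pos (e := e) hm t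
  have r := hc.rel_g t
  rw [(hc.symmetric he hm).2.2 t] at r
  rw [FF_neg, ← add_div, div_eq_one_iff_eq hF.ne', ← r]
  congr 2
  ring

/-- **Trivial exclusion.**  `t = 0` in `add_neg`: `(g 0)^(-e) = C/2`, so the node `u = g 0` is
`(C/2)^(-1/e)`, and there `V_- = C/2 < F(u) = C (1+u²)^(-e/2)`. -/
theorem ChordPair.trivial_exclusion {e m : ℝ} (he : 1 < e) (hm : 1 < m) {g h : ℝ ≃o ℝ}
    (hc : ChordPair e m g h) : 1 / 2 < (1 + (CC e m / 2) ^ (-2 / e)) ^ (-e / 2) := by
  have hC := CC_pos (e := e) hm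
  have he0 : e ≠ 0 := by linarith
  have hF0 : FF e m 0 = CC e m := by
    simp [FF]
  have h0 := hc.add_neg he hm 0
  rw [neg_zero, add_zero, sub_zero, hF0] at h0
  have hu : 0 < g 0 := hc.gt_g 0
  have h1 : (g 0) ^ (-e) = CC e m / 2 := by
    field_simp at h0
    linarith
  have h2 : (CC e m / 2) ^ (-2 / e) = g 0 ^ 2 := by
    rw [← h1, ← Real.rpow_mul hu.le, ← Real.rpow_natCast (g 0) 2]
    congr 1
    field_simp
    norm_num
  have h3 := (hc.fval_pos hm (g 0)).2.1
  rw [fval, OrderIso.symm_apply_apply, sub_zero, h1] at h3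
  rw [h2]
  rw [div_lt_one (FF_pos hm _), FF] at h3
  have h4 : CC e m * (1 / 2) < CC e m * (1 + g 0 ^ 2) ^ (-e / 2) := by linarith
  exact lt_of_mul_lt_mul_left h4 hC.le

end Pool.Agent.helper31.EQ
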