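import Mathlib

/-!
# EQ: bodies with two `i`-equichordal points, `i = e > 1`: common definitions

The first block copies the definitions of the hand-in file `TwoPoints`.  `ChordPair e m g h` is the
real one-variable object a body with two `e`-equichordal points produces: `g` sends the slope of a
chord at the first point to the slope of the chord at the second point through the lower end point,
`h` does the same from the second to the first point, and the two node relations hold.
-/

namespace Pool.Agent.helper31.EQ

open Set Metric Filter Topology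

section body

variable {E : Type*} [NormedAddCommGroup E] [NormedSpace ℝ E]

/-- A *body* is a compact set equal to the closure of its interior. -/
def IsBody (L : Set E) : Prop := IsCompact L ∧ closure (interior L) = L

/-- The radial function `ρ_M(u) = max {t ≥ 0 : t u ∈ M}` (used here for every vector `u`). -/
noncomputable def radial (M : Set E) (u : E) : ℝ := sSup {t : ℝ | 0 ≤ t ∧ t • u ∈ M}

/-- A *star body*: a compact set, star-shaped with respect to the origin, whose radial function is
positive and continuous on the unit sphere. -/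
def IsStarBody (M : Set E) : Prop :=
  IsCompact M ∧ StarConvex ℝ 0 M ∧ (∀ u : E, ‖u‖ = 1 → 0 < radial M u) ∧
    ContinuousOn (radial M) (sphere 0 1)

/-- The translate `L - p`. -/
def translate (L : Set E) (p : E) : Set E := (fun x => x - p) '' L

/-- The `i`-chord function of `L` at `p`. -/
noncomputable def chordFun (i : ℝ) (L : Set E) (p : E) (u : E) : ℝ :=
  if i = 0 then radial (translate L p) u * radial (translate L p) (-u)
  else (radial (translate L p) u ^ i + radial (translate L p) (-u) ^ i) / 2

/-- `p` is an `i`-equichordal point of `L`. -/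
def IsEquichordalPoint (i : ℝ) (L : Set E) (p : E) : Prop :=
  p ∈ interior L ∧ IsStarBody (translate L p) ∧
    ∃ a : ℝ, 0 < a ∧ ∀ u : E, ‖u‖ = 1 → chordFun i L p u = a

/-- Upper height: `up L p v w t = max {y ≥ 0 : p + y (t v + w) ∈ L}`. -/
noncomputable def up (L : Set E) (p v w : E) (t : ℝ) : ℝ := radial (translate L p) (t • v + w)

/-- Lower height: `dn L p v w t = max {y ≥ 0 : p - y (t v + w) ∈ L}`. -/
noncomputable def dn (L : Set E) (p v w : E) (t : ℝ) : ℝ :=
  radial (translate L p) (-(t • v + w))

end body

/-- The constant `C = (1 + m^e) / (m - 1)^e`. -/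
noncomputable def CC (e m : ℝ) : ℝ := (1 + m ^ e) / (m - 1) ^ e

/-- `F(t) = C (1 + t^2)^(-e/2)`. -/
noncomputable def FF (e m t : ℝ) : ℝ := CC e m * (1 + t ^ 2) ^ (-e / 2)

/-- The pair of slope maps of a body with two `e`-equichordal points. -/
structure ChordPair (e m : ℝ) (g h : ℝ ≃o ℝ) : Prop where
  gt_g : ∀ t, t < g t
  gt_h : ∀ t, t < h t
  rel_g : ∀ t, (g t - t) ^ (-e) + (t - h.symm t) ^ (-e) = FF e m t
  rel_h : ∀ t, (h t - t) ^ (-e) + (t - g.symm t) ^ (-e) = FF e m t
  lim_g : Tendsto (fun t => g t / t) atTop (𝓝 m)
  lim_h : Tendsto (fun t => h t / t) atTop (𝓝 m)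
  lim_g' : Tendsto (fun t => g.symm t / t) atBot (𝓝 m)
  lim_h' : Tendsto (fun t => h.symm t / t) atBot (𝓝 m)

/-- The limit `f_∞ = m^e / (1 + m^e)` of `f = V_- / F` at infinity. -/
noncomputable def finf (e m : ℝ) : ℝ := m ^ e / (1 + m ^ e)

/-- The second coefficient: `f(t) = f_∞ + φ₁ / t^2 + O(t^(-4))`. -/
noncomputable def phi1 (e m : ℝ) : ℝ := -(e / 2) * finf e m * (m - 1) / (m ^ (e + 1) + 1)

/-- `f = V_- / F` at the node `t`, where `k` is the map leading to the node `t` (so that
`k.symm t` is the previous node). -/
noncomputable def fval (e m : ℝ) (k : ℝ ≃o ℝ) (t : ℝ) : ℝ :=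
  (t - k.symm t) ^ (-e) / FF e m t

end Pool.Agent.helper31.EQ
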