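import Pool.Agent.helper31.EQ.Planar

/-!
# EQ-I3b: `∫ up_p^e = ∫ up_q^e` and equality of the two constants
-/

namespace Pool.Agent.helper31.EQ

open Set Metric Filter Topology MeasureTheory

/-- Layer cake.  For `y > 0` the superlevel set `{t : y ≤ Y t}` is the translate by `1 / y` of
`{s : y ≤ Y' s}`, so both have the same measure; Mathlib's
`MeasureTheory.lintegral_rpow_eq_lintegral_meas_le_mul` (or the `lt` version together with
almost everywhere equality) gives the equality of the integrals. -/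
theorem lintegral_rpow_eq_of_translate {e : ℝ} (he : 0 < e) {Y Y' : ℝ → ℝ}
    (hY : Continuous Y) (hY' : Continuous Y') (hpos : ∀ t, 0 < Y t) (hpos' : ∀ t, 0 < Y' t)
    (h : ∀ t y : ℝ, 0 < y → (y ≤ Y t ↔ y ≤ Y' (t - 1 / y))) :
    ∫⁻ t, ENNReal.ofReal (Y t ^ e) = ∫⁻ t, ENNReal.ofReal (Y' t ^ e) := by
  rw [lintegral_rpow_eq_lintegral_meas_le_mul volume (Eventually.of_forall fun t => (hpos t).le)
      hY.aemeasurable he,
    lintegral_rpow_eq_lintegral_meas_le_mul volume (Eventually.of_forall fun t => (hpos' t).le)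
      hY'.aemeasurable he]
  congr 1
  refine setLIntegral_congr_fun measurableSet_Ioi fun y hy => ?_
  have hy0 : (0 : ℝ) < y := hy
  have h1 : {t : ℝ | y ≤ Y t} = (fun t : ℝ => t + -(1 / y)) ⁻¹' {s : ℝ | y ≤ Y' s} := by
    ext t
    have := h t y hy0
    rw [sub_eq_add_neg] at this
    exact this
  have h2 : volume {t : ℝ | y ≤ Y t} = volume {s : ℝ | y ≤ Y' s} := by
    rw [h1]
    exact measure_preimage_add_right volume _ _
  simp only [h2]

/-- `∫ (1 + t²)^(-e/2) dt` is finite and positive for `e > 1`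
(`integrable_rpow_neg_one_add_norm_sq`). -/
theorem lintegral_weight {e : ℝ} (he : 1 < e) :
    ∫⁻ t : ℝ, ENNReal.ofReal ((1 + t ^ 2) ^ (-e / 2)) ≠ ⊤ ∧
      ∫⁻ t : ℝ, ENNReal.ofReal ((1 + t ^ 2) ^ (-e / 2)) ≠ 0 := by
  have h1 : Integrable (fun t : ℝ => (1 + t ^ 2) ^ (-e / 2)) := by
    have h2 := integrable_rpow_neg_one_add_norm_sq (E := ℝ) (μ := volume) (r := e)
      (by simpa using he)
    refine h2.congr (Eventually.of_forall fun t => ?_)
    simp only [Real.norm_eq_abs, sq_abs]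
  refine ⟨h1.lintegral_lt_top.ne, ?_⟩
  refine (lintegral_pos_iff_support ?_).2 ?_ |>.ne'
  · have : Continuous fun t : ℝ => (1 + t ^ 2) ^ (-e / 2) := by
      refine Continuous.rpow_const (by fun_prop) fun t => Or.inl ?_
      positivity
    exact this.measurable.ennreal_ofReal
  · have : Function.support (fun t : ℝ => ENNReal.ofReal ((1 + t ^ 2) ^ (-e / 2))) = univ := by
      ext t
      simp only [Function.mem_support, ne_eq, ENNReal.ofReal_eq_zero, not_le, mem_univ, iff_true]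
      positivity
    rw [this]
    simp

/-- Equal constants: add the two equalities of integrals (upper heights: `Yp, Yq`, translate by
`1 / y`; lower heights: the translate goes the other way). -/
theorem const_eq_of_translate {e cp cq : ℝ} (he : 1 < e) (hcp : 0 < cp) (hcq : 0 < cq)
    {Yp Yq Zp Zq : ℝ → ℝ} (hYp : Continuous Yp) (hYq : Continuous Yq) (hZp : Continuous Zp)
    (hZq : Continuous Zq) (pYp : ∀ t, 0 < Yp t) (pYq : ∀ t, 0 < Yq t) (pZp : ∀ t, 0 < Zp t)
    (pZq : ∀ t, 0 < Zq t)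
    (hY : ∀ t y : ℝ, 0 < y → (y ≤ Yp t ↔ y ≤ Yq (t - 1 / y)))
    (hZ : ∀ t y : ℝ, 0 < y → (y ≤ Zq t ↔ y ≤ Zp (t - 1 / y)))
    (hp : ∀ t, Yp t ^ e + Zp t ^ e = cp * (1 + t ^ 2) ^ (-e / 2))
    (hq : ∀ t, Yq t ^ e + Zq t ^ e = cq * (1 + t ^ 2) ^ (-e / 2)) : cp = cq := by
  have he0 : 0 < e := by linarith
  have key : ∀ {c : ℝ} {A B : ℝ → ℝ}, 0 < c → Continuous A → Continuous B → (∀ t, 0 < A t) →
      (∀ t, 0 < B t) → (∀ t, A t ^ e + B t ^ e = c * (1 + t ^ 2) ^ (-e / 2)) →
      (∫⁻ t, ENNReal.ofReal (A t ^ e)) + ∫⁻ t, ENNReal.ofReal (B t ^ e) =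
        ENNReal.ofReal c * ∫⁻ t : ℝ, ENNReal.ofReal ((1 + t ^ 2) ^ (-e / 2)) := by
    intro c A B hc hA hB pA pB h
    have mA : Measurable fun t => ENNReal.ofReal (A t ^ e) := by
      have : Continuous fun t => A t ^ e := hA.rpow_const fun t => Or.inr he0.le
      exact this.measurable.ennreal_ofReal
    rw [← lintegral_add_left mA, ← lintegral_const_mul' _ _ ENNReal.ofReal_ne_top]
    refine lintegral_congr fun t => ?_
    rw [← ENNReal.ofReal_add (Real.rpow_nonneg (pA t).le _) (Real.rpow_nonneg (pB t).le _), h,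
      ENNReal.ofReal_mul hc.le]
  have e1 := key hcp hYp hZp pYp pZp hp
  have e2 := key hcq hYq hZq pYq pZq hq
  have e3 := lintegral_rpow_eq_of_translate he0 hYp hYq pYp pYq hY
  have e4 := lintegral_rpow_eq_of_translate he0 hZq hZp pZq pZp hZ
  rw [e3, ← e4] at e1
  obtain ⟨w1, w2⟩ := lintegral_weight he
  have e5 := e1.symm.trans e2
  have e6 : ENNReal.ofReal cp = ENNReal.ofReal cq := (ENNReal.mul_left_inj w2 w1).1 e5
  rwa [ENNReal.ofReal_eq_ofReal_iff hcp.le hcq.le] at e6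

end Pool.Agent.helper31.EQ
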