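import Pool.Agent.helper31.EQ.Limits
import Pool.Agent.helper31.EQ.LayerCake

/-!
# EQ-I5: a body with two `e`-equichordal points gives a chord pair
-/

namespace Pool.Agent.helper31.EQ

open Set Metric Filter Topology

/-- A continuous map `k : ℝ → ℝ` with a two sided inverse and `t < k t` for all `t` is an order
isomorphism.  (`Continuous.strictMono_of_inj` gives strictly monotone or strictly antitone; an
antitone one has `k t - t → -∞` as `t → ∞`: `k t ≤ k 0` for `t ≥ 0`, contradicting `t < k t`.) -/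
theorem exists_orderIso {k l : ℝ → ℝ} (hk : Continuous k) (hkl : ∀ t, k (l t) = t)
    (hlk : ∀ t, l (k t) = t) (hgt : ∀ t, t < k t) :
    ∃ g : ℝ ≃o ℝ, (∀ t, g t = k t) ∧ ∀ t, g.symm t = l t := by
  have hinj : Function.Injective k := fun a b hab => by
    rw [← hlk a, ← hlk b, hab]
  have hmono : StrictMono k := by
    rcases hk.strictMono_of_inj hinj with h | h
    · exact h
    · exfalso
      have h1 : k (max 0 (k 0)) ≤ k 0 := h.antitone (le_max_left _ _)
      have h2 := hgt (max 0 (k 0))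
      have h3 : k 0 ≤ max 0 (k 0) := le_max_right _ _
      linarith
  exact ⟨hmono.orderIsoOfRightInverse k l hkl, fun t => rfl, fun t => rfl⟩

/-- Abstract assembly.  `Yp, Zp` upper and lower heights at `p`, `Yq, Zq` at `q`.
`g t = t + 1 / Zp t`, `g.symm s = s - 1 / Zq s`, `h s = s + 1 / Yq s`, `h.symm t = t - 1 / Yp t`.
The constants agree (`const_eq_of_translate`), so with `C` the common constant
`C = α^e + β^e = (α+1)^e + (β-1)^e`, hence `β = α + 1` by `strictMonoOn_diff`, and with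
`m = 1 + 1 / α` one gets `C = CC e m` because `α = 1 / (m - 1)`, `β = m / (m - 1)`.
`(g t - t)^(-e) = (1 / Zp t)^(-e) = (Zp t)^e`. -/
theorem chordPair_of_heights {e cp cq α β : ℝ} (he : 1 < e) (hcp : 0 < cp) (hcq : 0 < cq)
    (hα : 0 < α) (hβ : 1 < β) {Yp Yq Zp Zq : ℝ → ℝ} (hYp : Continuous Yp)
    (hYq : Continuous Yq) (hZp : Continuous Zp) (hZq : Continuous Zq)
    (pYp : ∀ t, 0 < Yp t) (pYq : ∀ t, 0 < Yq t) (pZp : ∀ t, 0 < Zp t) (pZq : ∀ t, 0 < Zq t)
    (hY : ∀ t y : ℝ, 0 < y → (y ≤ Yp t ↔ y ≤ Yq (t - 1 / y)))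
    (hZ : ∀ t y : ℝ, 0 < y → (y ≤ Zq t ↔ y ≤ Zp (t - 1 / y)))
    (hp : ∀ t, Yp t ^ e + Zp t ^ e = cp * (1 + t ^ 2) ^ (-e / 2))
    (hq : ∀ t, Yq t ^ e + Zq t ^ e = cq * (1 + t ^ 2) ^ (-e / 2))
    (m1 : ∀ t, Yq (t - 1 / Yp t) = Yp t) (m2 : ∀ s, Yp (s + 1 / Yq s) = Yq s)
    (m3 : ∀ t, Zq (t + 1 / Zp t) = Zp t) (m4 : ∀ s, Zp (s - 1 / Zq s) = Zq s)
    (l1 : Tendsto (fun t => t * Yp t) atTop (𝓝 β)) (l2 : Tendsto (fun t => t * Zp t) atTop (𝓝 α))
    (l3 : Tendsto (fun t => t * Yq t) atTop (𝓝 (β - 1)))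
    (l4 : Tendsto (fun t => t * Zq t) atTop (𝓝 (α + 1)))
    (l5 : Tendsto (fun t => (-t) * Yp t) atBot (𝓝 α))
    (l6 : Tendsto (fun t => (-t) * Zq t) atBot (𝓝 (β - 1))) :
    ∃ m : ℝ, 1 < m ∧ ∃ g h : ℝ ≃o ℝ, ChordPair e m g h := by
  have hce : cp = cq := const_eq_of_translate he hcp hcq hYp hYq hZp hZq pYp pYq pZp pZq hY hZ hp hq
  have h1 : β ^ e + α ^ e = cp := rpow_add_of_tendsto he (by linarith) hα.le pYp pZp hp l1 l2
  have h2 : (β - 1) ^ e + (α + 1) ^ e = cq :=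
    rpow_add_of_tendsto he (by linarith) (by linarith) pYq pZq hq l3 l4
  have hβα : β - 1 = α := by
    refine (strictMonoOn_diff he).injOn (mem_Ici.2 (by linarith)) (mem_Ici.2 hα.le) ?_
    rw [sub_add_cancel]
    linarith
  have hβ' : β = α + 1 := by linarith
  have hC : CC e (1 + 1 / α) = cp := by
    unfold CC
    have e1 : (1 : ℝ) + 1 / α = (α + 1) / α := by
      field_simp
    have e2 : (1 : ℝ) + 1 / α - 1 = 1 / α := by ring
    have h3 : (0 : ℝ) < α ^ e := Real.rpow_pos_of_pos hα e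
    rw [e2, e1, Real.div_rpow (by linarith) hα.le, Real.div_rpow zero_le_one hα.le, Real.one_rpow,
      ← h1, hβ']
    field_simp
    ring
  have hrp : ∀ x : ℝ, 0 < x → (1 / x) ^ (-e) = x ^ e := by
    intro x hx
    rw [one_div, Real.inv_rpow hx.le, Real.rpow_neg hx.le, inv_inv]
  obtain ⟨g, hg1, hg2⟩ := exists_orderIso (k := fun t => t + 1 / Zp t) (l := fun s => s - 1 / Zq s)
    (continuous_id.add (continuous_const.div hZp fun t => (pZp t).ne'))
    (fun t => by rw [m4 t]; ring) (fun t => by rw [m3 t]; ring)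
    (fun t => by
      have := one_div_pos.2 (pZp t)
      linarith)
  obtain ⟨h, hh1, hh2⟩ := exists_orderIso (k := fun s => s + 1 / Yq s) (l := fun t => t - 1 / Yp t)
    (continuous_id.add (continuous_const.div hYq fun t => (pYq t).ne'))
    (fun t => by rw [m1 t]; ring) (fun t => by rw [m2 t]; ring)
    (fun t => by
      have := one_div_pos.2 (pYq t)
      linarith)
  refine ⟨1 + 1 / α, ?_, g, h, ?_⟩
  · have := one_div_pos.2 hα
    linarith
  refine ⟨?_, ?_, ?_, ?_, ?_, ?_, ?_, ?_⟩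
  · intro t
    have := one_div_pos.2 (pZp t)
    rw [hg1]
    linarith
  · intro t
    have := one_div_pos.2 (pYq t)
    rw [hh1]
    linarith
  · intro t
    have e1 : t + 1 / Zp t - t = 1 / Zp t := by ring
    have e2 : t - (t - 1 / Yp t) = 1 / Yp t := by ring
    rw [hg1, hh2, e1, e2, hrp _ (pZp t), hrp _ (pYp t), FF, hC, ← hp t]
    ring
  · intro t
    have e1 : t + 1 / Yq t - t = 1 / Yq t := by ring
    have e2 : t - (t - 1 / Zq t) = 1 / Zq t := by ring
    rw [hh1, hg2, e1, e2, hrp _ (pYq t), hrp _ (pZq t), FF, hC, hce, ← hq t]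
  · have h3 : Tendsto (fun t => 1 + 1 / (t * Zp t)) atTop (𝓝 (1 + 1 / α)) :=
      tendsto_const_nhds.add (tendsto_const_nhds.div l2 hα.ne')
    refine h3.congr' ?_
    filter_upwards [eventually_gt_atTop (0 : ℝ)] with t ht
    have h4 := (pZp t).ne'
    rw [hg1]
    field_simp
  · have h3 : Tendsto (fun t => 1 + 1 / (t * Yq t)) atTop (𝓝 (1 + 1 / α)) := by
      rw [← hβα]
      exact tendsto_const_nhds.add (tendsto_const_nhds.div l3 (by linarith))
    refine h3.congr' ?_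
    filter_upwards [eventually_gt_atTop (0 : ℝ)] with t ht
    have h4 := (pYq t).ne'
    rw [hh1]
    field_simp
  · have h3 : Tendsto (fun t => 1 + 1 / ((-t) * Zq t)) atBot (𝓝 (1 + 1 / α)) := by
      rw [← hβα]
      exact tendsto_const_nhds.add (tendsto_const_nhds.div l6 (by linarith))
    refine h3.congr' ?_
    filter_upwards [eventually_lt_atBot (0 : ℝ)] with t ht
    have h4 := (pZq t).ne'
    have h5 := ht.ne
    rw [hg2]
    field_simp
    ring
  · have h3 : Tendsto (fun t => 1 + 1 / ((-t) * Yp t)) atBot (𝓝 (1 + 1 / α)) :=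
      tendsto_const_nhds.add (tendsto_const_nhds.div l5 hα.ne')
    refine h3.congr' ?_
    filter_upwards [eventually_lt_atBot (0 : ℝ)] with t ht
    have h4 := (pYp t).ne'
    have h5 := ht.ne
    rw [hh2]
    field_simp
    ring

variable {E : Type*} [NormedAddCommGroup E] [InnerProductSpace ℝ E]

/-- **Part I.**  Let `L` have two distinct `e`-equichordal points `p`, `q`, `e > 1`, and let
`w ≠ 0` be orthogonal to `v = q - p`; rescale `w` to `‖w‖ = ‖v‖`.  Apply `chordPair_of_heights`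
with `Yp = up L p v w`, `Zp = dn L p v w`, `Yq = up L q v w`, `Zq = dn L q v w`,
`β = radial (translate L p) v`, `α = radial (translate L p) (-v)`. -/
theorem exists_chordPair {e : ℝ} (he : 1 < e) {L : Set E} {p q w : E} (hpq : p ≠ q)
    (hp : IsEquichordalPoint e L p) (hq : IsEquichordalPoint e L q)
    (hw : w ≠ 0) (hvw : inner ℝ (q - p) w = (0 : ℝ)) :
    ∃ m : ℝ, 1 < m ∧ ∃ g h : ℝ ≃o ℝ, ChordPair e m g h := by
  obtain ⟨v, hv⟩ : ∃ v, v = q - p := ⟨_, rfl⟩
  rw [← hv] at hvw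
  have hv0 : v ≠ 0 := by
    rw [hv]
    exact sub_ne_zero.2 hpq.symm
  have hqp : q = p + v := by rw [hv]; abel
  have hpq' : p = q + (-v) := by rw [hv]; abel
  obtain ⟨w', hw'⟩ : ∃ w', w' = (‖v‖ / ‖w‖) • w := ⟨_, rfl⟩
  have hwn : ‖w‖ ≠ 0 := norm_ne_zero_iff.2 hw
  have hn : ‖w'‖ = ‖v‖ := by
    rw [hw', norm_smul, norm_div, norm_norm, norm_norm, div_mul_cancel₀ _ hwn]
  have hvw' : inner ℝ v w' = (0 : ℝ) := by
    rw [hw', inner_smul_right, hvw, mul_zero]
  have hne : ∀ t : ℝ, t • v + w' ≠ 0 := tv_w_ne_zero hvw' hn hv0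
  have hne' : ∀ t : ℝ, t • (-v) + (-w') ≠ 0 := by
    intro t h0
    apply hne t
    have h1 : t • (-v) + (-w') = -(t • v + w') := by
      rw [smul_neg]
      abel
    rw [h1, neg_eq_zero] at h0
    exact h0
  have sp := hp.2.1
  have sq := hq.2.1
  obtain ⟨cp, hcp, np⟩ := node_rel he hp hvw' hn hv0
  obtain ⟨cq, hcq, nq⟩ := node_rel he hq hvw' hn hv0
  have hdp : dn L p v w' = up L p (-v) (-w') := funext (dn_eq_up L p v w')
  have hdq : dn L q v w' = up L q (-v) (-w') := funext (dn_eq_up L q v w')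
  have hα : 0 < radial (translate L p) (-v) := radial_pos sp (neg_ne_zero.2 hv0)
  have hrq := radial_q_v sp sq hq.1 hqp hv0
  have hrq' := radial_q_neg_v sp sq hp.1 hqp hv0
  have hβ : 1 < radial (translate L p) v := by
    have h1 := radial_pos sq hv0
    rw [hrq] at h1
    linarith
  refine chordPair_of_heights he hcp hcq hα hβ (Yp := up L p v w') (Yq := up L q v w')
    (Zp := dn L p v w') (Zq := dn L q v w') (continuous_up sp hne) (continuous_up sq hne) ?_ ?_
    (up_pos sp hne) (up_pos sq hne) ?_ ?_ (fun t y hy => le_up_iff_le_up sp sq hqp hne hy) ?_ np nq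
    (up_match sp sq hq.1 hqp hne) (up_match' sp sq hp.1 hqp hne)
    (dn_match sp sq hq.1 hqp hne) (dn_match' sp sq hp.1 hqp hne)
    (tendsto_mul_up_atTop sp hv0) (tendsto_mul_dn_atTop sp hv0) ?_ ?_
    (tendsto_mul_up_atBot sp hv0) ?_
  · rw [hdp]
    exact continuous_up sp hne'
  · rw [hdq]
    exact continuous_up sq hne'
  · intro t
    rw [hdp]
    exact up_pos sp hne' t
  · intro t
    rw [hdq]
    exact up_pos sq hne' t
  · intro t y hy
    rw [hdp, hdq]
    exact le_up_iff_le_up sq sp hpq' hne' hy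
  · rw [← hrq]
    exact tendsto_mul_up_atTop sq hv0
  · rw [← hrq']
    exact tendsto_mul_dn_atTop sq hv0
  · rw [← hrq]
    exact tendsto_mul_dn_atBot sq hv0

/-- In `EuclideanSpace ℝ (Fin n)`, `n ≥ 2`, the vector `w` exists. -/
theorem exists_orthogonal {n : ℕ} (hn : 2 ≤ n) (v : EuclideanSpace ℝ (Fin n)) :
    ∃ w : EuclideanSpace ℝ (Fin n), w ≠ 0 ∧ inner ℝ v w = (0 : ℝ) := by
  have h1 := Submodule.finrank_add_finrank_orthogonal (ℝ ∙ v)
  rw [finrank_euclideanSpace, Fintype.card_fin] at h1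
  have h2 : Module.finrank ℝ (ℝ ∙ v) ≤ 1 := by
    have h3 := finrank_span_le_card (R := ℝ) ({v} : Set (EuclideanSpace ℝ (Fin n)))
    simpa using h3
  have h3 : (ℝ ∙ v)ᗮ ≠ ⊥ := by
    intro h0
    rw [h0, finrank_bot] at h1
    omega
  obtain ⟨w, hw, hw0⟩ := Submodule.exists_mem_ne_zero_of_ne_bot h3
  exact ⟨w, hw0, Submodule.mem_orthogonal_singleton_iff_inner_right.1 hw⟩

end Pool.Agent.helper31.EQ
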