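import Pool.Agent.helper31.EQ.TrapFalse
import Pool.Agent.helper31.EQ.PartI

/-!
# EQ-Z: traps for all parameters give the nonexistence theorem
-/

namespace Pool.Agent.helper31.EQ

open Set Metric Filter Topology

theorem no_two_points_of_traps
    (H : ∀ e m : ℝ, 1 < e → 1 < m → 1 / 2 < (1 + (CC e m / 2) ^ (-2 / e)) ^ (-e / 2) →
      Nonempty (TrapData e m))
    {n : ℕ} (hn : 2 ≤ n) {i : ℝ} (hi : 1 < i) :
    ¬ ∃ L : Set (EuclideanSpace ℝ (Fin n)), IsBody L ∧ ∃ p q, p ≠ q ∧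
      IsEquichordalPoint i L p ∧ IsEquichordalPoint i L q := by
  rintro ⟨L, _, p, q, hpq, hp, hq⟩
  obtain ⟨w, hw, hvw⟩ := exists_orthogonal hn (q - p)
  obtain ⟨m, hm, g, h, hc⟩ := exists_chordPair hi hpq hp hq hw hvw
  obtain ⟨D⟩ := H i m hi hm (hc.trivial_exclusion hi hm)
  exact D.false hi hm hc

end Pool.Agent.helper31.EQ
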