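import Pool.Agent.helper31.EQ.NodeRel

/-!
# EQ-I4: the heights at infinity

`β = max {z : p + z v ∈ L}`, `α = max {z : p - z v ∈ L}`; seen from `q = p + v` the corresponding
numbers are `β - 1` and `α + 1`.
-/

namespace Pool.Agent.helper31.EQ

open Set Metric Filter Topology

variable {E : Type*} [NormedAddCommGroup E] [NormedSpace ℝ E]

/-- For `t > 0`: `t * up L p v w t = radial (translate L p) (v + (1/t) w)` by `radial_smul`
(`t v + w = t (v + (1/t) w)`), and the radial function is continuous at `v ≠ 0`. -/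
theorem tendsto_mul_up_atTop {L : Set E} {p v w : E} (hp : IsStarBody (translate L p))
    (hv : v ≠ 0) :
    Tendsto (fun t : ℝ => t * up L p v w t) atTop (𝓝 (radial (translate L p) v)) := by
  have h1 : Tendsto (fun t : ℝ => v + t⁻¹ • w) atTop (𝓝 v) := by
    have h := (tendsto_inv_atTop_zero (𝕜 := ℝ)).smul_const w
    have h' := h.const_add v
    rwa [zero_smul, add_zero] at h'
  have h2 := (continuousAt_radial hp hv).tendsto.comp h1
  refine h2.congr' ?_
  filter_upwards [eventually_gt_atTop (0 : ℝ)] with t ht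
  have e : t • v + w = t • (v + t⁻¹ • w) := by
    rw [smul_add, smul_smul, mul_inv_cancel₀ ht.ne', one_smul]
  show radial (translate L p) (v + t⁻¹ • w) = t * up L p v w t
  rw [up, e, radial_smul _ _ ht, mul_div_cancel₀ _ ht.ne']

/-- For `t < 0`: `(-t) * up L p v w t = radial (translate L p) (-v + (1/(-t)) w)`. -/
theorem tendsto_mul_up_atBot {L : Set E} {p v w : E} (hp : IsStarBody (translate L p))
    (hv : v ≠ 0) :
    Tendsto (fun t : ℝ => (-t) * up L p v w t) atBot (𝓝 (radial (translate L p) (-v))) := by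
  have h1 := (tendsto_mul_up_atTop (w := w) hp (neg_ne_zero.2 hv)).comp tendsto_neg_atBot_atTop
  refine h1.congr fun t => ?_
  show -t * up L p (-v) w (-t) = -t * up L p v w t
  rw [up, up, smul_neg, neg_smul, neg_neg]

/-- `dn` at `+∞` (use `dn_eq_up`). -/
theorem tendsto_mul_dn_atTop {L : Set E} {p v w : E} (hp : IsStarBody (translate L p))
    (hv : v ≠ 0) :
    Tendsto (fun t : ℝ => t * dn L p v w t) atTop (𝓝 (radial (translate L p) (-v))) := by
  have h1 := tendsto_mul_up_atTop (w := -w) hp (neg_ne_zero.2 hv)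
  refine h1.congr fun t => ?_
  rw [dn_eq_up]

theorem tendsto_mul_dn_atBot {L : Set E} {p v w : E} (hp : IsStarBody (translate L p))
    (hv : v ≠ 0) :
    Tendsto (fun t : ℝ => (-t) * dn L p v w t) atBot (𝓝 (radial (translate L p) v)) := by
  have h1 := tendsto_mul_up_atBot (w := -w) hp (neg_ne_zero.2 hv)
  rw [neg_neg] at h1
  refine h1.congr fun t => ?_
  rw [dn_eq_up]

/-- `radial (translate L q) v = radial (translate L p) v - 1` for `q = p + v`.  Both sides
describe the same set of points: for `z ≥ 0`, `q + z v = p + (z + 1) v ∈ L ↔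
z + 1 ≤ radial (translate L p) v`; and `1 < radial (translate L p) v` because `q` is an interior
point of `L`. -/
theorem radial_q_v {L : Set E} {p q v : E} (hp : IsStarBody (translate L p))
    (hq : IsStarBody (translate L q)) (hqi : q ∈ interior L) (hqp : q = p + v) (hv : v ≠ 0) :
    radial (translate L q) v = radial (translate L p) v - 1 := by
  have key : ∀ z : ℝ, 0 ≤ z →
      (z ≤ radial (translate L q) v ↔ z + 1 ≤ radial (translate L p) v) := by
    intro z hz
    rw [← mem_iff_le_radial hq hv hz, ← mem_iff_le_radial hp hv (by linarith : 0 ≤ z + 1),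
      mem_translate, mem_translate, hqp]
    have e : p + v + z • v = p + (z + 1) • v := by
      rw [add_smul, one_smul]
      abel
    rw [e]
  have hq0 := radial_pos hq hv
  have h1 := (key _ hq0.le).1 le_rfl
  have h2 := (key (radial (translate L p) v - 1) (by linarith)).2 (by linarith)
  linarith

/-- `radial (translate L q) (-v) = radial (translate L p) (-v) + 1` (the previous statement with
`p`, `q` exchanged and `v` replaced by `-v`). -/
theorem radial_q_neg_v {L : Set E} {p q v : E} (hp : IsStarBody (translate L p))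
    (hq : IsStarBody (translate L q)) (hpi : p ∈ interior L) (hqp : q = p + v) (hv : v ≠ 0) :
    radial (translate L q) (-v) = radial (translate L p) (-v) + 1 := by
  have h := radial_q_v (v := -v) hq hp hpi (by rw [hqp]; abel) (neg_ne_zero.2 hv)
  linarith

/-- `x ↦ (x + 1)^e - x^e` is strictly increasing on `[0, ∞)` for `e > 1`. -/
theorem strictMonoOn_diff {e : ℝ} (he : 1 < e) :
    StrictMonoOn (fun x : ℝ => (x + 1) ^ e - x ^ e) (Ici 0) := by
  have he0 : 0 < e := by linarith
  apply strictMonoOn_of_deriv_pos (convex_Ici 0)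
  · apply Continuous.continuousOn
    have h1 : Continuous fun x : ℝ => (x + 1) ^ e :=
      (continuous_id.add continuous_const).rpow_const fun x => Or.inr he0.le
    have h2 : Continuous fun x : ℝ => x ^ e := continuous_id.rpow_const fun x => Or.inr he0.le
    exact h1.sub h2
  · intro x hx
    rw [interior_Ici, mem_Ioi] at hx
    have h1 : HasDerivAt (fun x : ℝ => (x + 1) ^ e) (e * (x + 1) ^ (e - 1)) x := by
      have h := ((hasDerivAt_id' x).add_const 1).rpow_const (p := e) (Or.inr he.le)
      rwa [one_mul] at h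
    have h2 : HasDerivAt (fun x : ℝ => x ^ e) (e * x ^ (e - 1)) x :=
      Real.hasDerivAt_rpow_const (Or.inr he.le)
    have h5 : deriv (fun x : ℝ => (x + 1) ^ e - x ^ e) x =
        e * (x + 1) ^ (e - 1) - e * x ^ (e - 1) := (h1.sub h2).deriv
    rw [h5]
    have h3 : x ^ (e - 1) < (x + 1) ^ (e - 1) :=
      Real.rpow_lt_rpow hx.le (by linarith) (by linarith)
    have h4 := mul_lt_mul_of_pos_left h3 he0
    linarith

/-- If `Y, Z > 0`, `Y^e + Z^e = c (1+t²)^(-e/2)`, `t Y t → a` and `t Z t → b` (`a, b ≥ 0`) at `+∞`,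
then `a^e + b^e = c` (multiply by `t^e`). -/
theorem rpow_add_of_tendsto {e c a b : ℝ} (he : 1 < e) (ha : 0 ≤ a) (hb : 0 ≤ b) {Y Z : ℝ → ℝ}
    (hY : ∀ t, 0 < Y t) (hZ : ∀ t, 0 < Z t)
    (h : ∀ t, Y t ^ e + Z t ^ e = c * (1 + t ^ 2) ^ (-e / 2))
    (h1 : Tendsto (fun t => t * Y t) atTop (𝓝 a))
    (h2 : Tendsto (fun t => t * Z t) atTop (𝓝 b)) : a ^ e + b ^ e = c := by
  have he0 : 0 < e := by linarith
  have l1 : Tendsto (fun t => (t * Y t) ^ e + (t * Z t) ^ e) atTop (𝓝 (a ^ e + b ^ e)) :=
    (h1.rpow_const (Or.inr he0.le)).add (h2.rpow_const (Or.inr he0.le))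
  have l2 : Tendsto (fun t : ℝ => c * (1 + t⁻¹ ^ 2) ^ (-e / 2)) atTop (𝓝 c) := by
    have h3 : Tendsto (fun t : ℝ => 1 + t⁻¹ ^ 2) atTop (𝓝 1) := by
      have h := ((tendsto_inv_atTop_zero (𝕜 := ℝ)).pow 2).const_add 1
      simpa using h
    have h4 := (h3.rpow_const (p := -e / 2) (Or.inl one_ne_zero)).const_mul c
    rwa [Real.one_rpow, mul_one] at h4
  refine tendsto_nhds_unique (l1.congr' ?_) l2
  filter_upwards [eventually_gt_atTop (0 : ℝ)] with t ht
  rw [Real.mul_rpow ht.le (hY t).le, Real.mul_rpow ht.le (hZ t).le, ← mul_add, h t]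
  have e1 : 1 + t ^ 2 = t ^ 2 * (1 + t⁻¹ ^ 2) := by
    field_simp
    ring
  have e2 : (t ^ 2 : ℝ) ^ (-e / 2) = t ^ (-e) := by
    rw [← Real.rpow_natCast, ← Real.rpow_mul ht.le]
    congr 1
    push_cast
    ring
  rw [e1, Real.mul_rpow (by positivity) (by positivity), e2, Real.rpow_neg ht.le]
  have e3 : t ^ e ≠ 0 := (Real.rpow_pos_of_pos ht e).ne'
  field_simp

end Pool.Agent.helper31.EQ
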