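import Pool.Agent.helper31.EQ.TrapReal

/-!
# EQ-T4: a trap excludes chord pairs
-/

namespace Pool.Agent.helper31.EQ

open Set Metric Filter Topology ComplexConjugate

/-- **Main interface theorem.**  Let `X` be the orbit of `exists_orbit` and
`H p = H0 p (X p 0)`.  `H` is analytic on `D0`.  For real `p` near `0` (all such `p` are in `D0`:
`D0` is open and contains `0` by `seg`), `H p = (g t - t)^(-e) / F(t)` with `t = tr p` (`H0_real`
and `real_orbit`), so `H p + H (-p) = 1` by `ChordPair.add_neg` and `odd`.  By `re_eq_half`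
(BodyEnd) `Re H(iη) = 1/2`, which contradicts `test`. -/
theorem TrapData.false {e m : ℝ} (he : 1 < e) (hm : 1 < m) (D : TrapData e m)
    {g h : ℝ ≃o ℝ} (hc : ChordPair e m g h) : False := by
  obtain ⟨X, hXd, hXf, hXr⟩ := D.exists_orbit
  set H : ℂ → ℂ := fun p => D.H0 p (X p 0) with hH
  have hX1 : ∀ p ∈ D.D0, ∀ n, ‖X p n‖ ≤ 1 := fun p hp n =>
    ((hXf p hp n).1).trans D.hθ1.le
  have hHd : DifferentiableOn ℂ H D.D0 := by
    have h1 : DifferentiableOn ℂ (fun p : ℂ => ((p, X p 0) : ℂ × ℂ)) D.D0 :=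
      differentiableOn_id.prodMk (hXd 0)
    have h2 := D.diff_H0.comp h1 (fun p hp => by
      refine Set.mk_mem_prod hp ?_
      rw [mem_closedBall, dist_zero_right]
      exact hX1 p hp 0)
    exact h2
  have h0 : (0 : ℂ) ∈ D.D0 := by
    have := D.seg 0 (by rw [abs_zero]; exact D.hη.le)
    simpa using this
  obtain ⟨r, hr, hrD⟩ := Metric.isOpen_iff.1 D.isOpen_D0 0 h0
  have hmem : ∀ p : ℝ, |p| < min D.δ r → (p : ℂ) ∈ D.D0 := by
    intro p hp
    apply hrD
    rw [mem_ball, dist_zero_right, Complex.norm_real, Real.norm_eq_abs]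
    exact hp.trans_le (min_le_right _ _)
  have hval : ∀ p : ℝ, |p| < min D.δ r →
      H p = (((g (D.tr p) - D.tr p) ^ (-e) / FF e m (D.tr p) : ℝ) : ℂ) := by
    intro p hp
    have hpD := hmem p hp
    have hre : X (p : ℂ) 0 = (((X (p : ℂ) 0).re : ℝ) : ℂ) := by
      apply Complex.ext
      · rw [Complex.ofReal_re]
      · rw [Complex.ofReal_im]
        exact hXr p hpD 0
    have habs : |(X (p : ℂ) 0).re| ≤ 1 := (Complex.abs_re_le_norm _).trans (hX1 _ hpD 0)
    have h3 := D.H0_real p (X (p : ℂ) 0).re hpD habs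
    have h4 := D.real_orbit he hm hc hpD (hX1 _ hpD) (hXr p hpD) (fun n => (hXf _ hpD n).2)
    rw [← hre] at h3
    rw [← h4] at h3
    exact h3
  have hhalf := Pool.Agent.helper31.EQ.re_eq_half D.isOpen_D0 D.hη D.seg hHd
    (lt_min D.hδ hr) (fun t ht => by rw [hval t ht, Complex.ofReal_im]) (fun t ht => by
      have h5 := hval t ht
      have h6 := hval (-t) (by rwa [abs_neg])
      rw [Complex.ofReal_neg] at h6
      rw [D.odd t (ht.trans_le (min_le_left _ _))] at h6
      have h7 := hc.add_neg he hm (D.tr t)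
      rw [h5, h6, ← Complex.ofReal_add, sub_neg_eq_add, h7, Complex.ofReal_one])
  have hseg := D.seg D.η (by rw [abs_of_pos D.hη])
  refine D.test (X ((D.η : ℂ) * Complex.I) 0) (X ((D.η : ℂ) * Complex.I) 1)
    (hXf _ hseg 0).1 (hXf _ hseg 1).1 ?_ hhalf
  exact (hXf _ hseg 0).2

end Pool.Agent.helper31.EQ
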