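import Pool.Agent.helper31.EQ.SeqTrap

/-!
# EQ-F3: interface with a free start parameter (for helper82's W-scheme)

The start parameter `p` is `log w₀`, where `w₀^e` is the quotient of the left and the right value at node `0`; the slope of node `0` is a
derived quantity.
-/

namespace Pool.Agent.helper31.EQ

open Set Metric Filter Topology ComplexConjugate

structure WTrap (e m : ℝ) where
  θ : ℝ
  hθ0 : 0 ≤ θ
  hθ1 : θ < 1
  D : Set ℂ
  isOpen_D : IsOpen D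
  R : ℂ → ℕ → ℝ
  R_pos : ∀ p ∈ D, ∀ n, 0 < R p n
  R_cont : ∀ s ∈ D, ∀ ε > 0, ∀ᶠ t in 𝓝 s, ∀ n,
    R t n ≤ (1 + ε) * R s n ∧ R s n ≤ (1 + ε) * R t n
  Φ : ℂ → (ℕ → ℂ) → ℕ → ℂ
  maps : ∀ p ∈ D, ∀ x : ℕ → ℂ, (∀ n, ‖x n‖ ≤ R p n) → ∀ n, ‖Φ p x n‖ ≤ θ * R p n
  hol : HolFamilyR D R Φ
  real : ∀ p : ℝ, (p : ℂ) ∈ D → ∀ x : ℕ → ℂ, (∀ n, ‖x n‖ ≤ R p n) → (∀ n, (x n).im = 0) →
    ∀ n, (Φ p x n).im = 0
  /-- the slopes of the nodes for a real start and a real fixed sequence -/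
  s : ℝ → (ℕ → ℂ) → ℕ → ℝ
  orbit : ∀ p : ℝ, (p : ℂ) ∈ D → ∀ x : ℕ → ℂ, (∀ n, ‖x n‖ ≤ R p n) → (∀ n, (x n).im = 0) →
    (∀ n, x n = Φ p x n) →
    (∀ n, s p x n < s p x (n + 1)) ∧
    (∀ n, (s p x (n + 1) - s p x n) ^ (-e) + (s p x (n + 2) - s p x (n + 1)) ^ (-e) =
      FF e m (s p x (n + 1))) ∧
    Tendsto (s p x) atTop atTop ∧ Tendsto (fun n => s p x (n + 1) / s p x n) atTop (𝓝 m)
  /-- the parameter: `V_+ / F = 1 / (1 + w₀^e)` at node `0` -/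
  param : ∀ p : ℝ, (p : ℂ) ∈ D → ∀ x : ℕ → ℂ, (∀ n, ‖x n‖ ≤ R p n) → (∀ n, (x n).im = 0) →
    (∀ n, x n = Φ p x n) →
    (s p x 1 - s p x 0) ^ (-e) / FF e m (s p x 0) = 1 / (1 + Real.exp (e * p))
  /-- an analytic function whose real values are `t/√(1+t²)`, `t` the slope of node `0` -/
  Tf : ℂ → (ℕ → ℂ) → ℂ
  hol_Tf : ∀ (x : ℂ → ℕ → ℂ), (∀ n, DifferentiableOn ℂ (fun z => x z n) D) →
    (∀ z ∈ D, ∀ n, ‖x z n‖ ≤ R z n) → DifferentiableOn ℂ (fun z => Tf z (x z)) D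
  Tf_real : ∀ p : ℝ, (p : ℂ) ∈ D → ∀ x : ℕ → ℂ, (∀ n, ‖x n‖ ≤ R p n) → (∀ n, (x n).im = 0) →
    (∀ n, x n = Φ p x n) →
    Tf p x = ((s p x 0 / Real.sqrt (1 + s p x 0 ^ 2) : ℝ) : ℂ)
  η : ℝ
  hη : 0 < η
  seg : ∀ y : ℝ, |y| ≤ η → ((y : ℂ) * Complex.I) ∈ D
  /-- a real interval around `0` at the ends of which the slope changes sign -/
  δ : ℝ
  hδ : 0 < δ
  segr : ∀ y : ℝ, |y| ≤ δ → (y : ℂ) ∈ D
  neg : ∀ x : ℕ → ℂ, (∀ n, ‖x n‖ ≤ R ((-δ : ℝ) : ℂ) n) → (∀ n, (x n).im = 0) →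
    (∀ n, x n = Φ ((-δ : ℝ) : ℂ) x n) → s (-δ) x 0 < 0
  pos : ∀ x : ℕ → ℂ, (∀ n, ‖x n‖ ≤ R (δ : ℂ) n) → (∀ n, (x n).im = 0) →
    (∀ n, x n = Φ (δ : ℂ) x n) → 0 < s δ x 0
  test : ∀ x : ℕ → ℂ, (∀ n, ‖x n‖ ≤ R ((η : ℂ) * Complex.I) n) →
    (∀ n, x n = Φ ((η : ℂ) * Complex.I) x n) → (Tf ((η : ℂ) * Complex.I) x).re ≠ 0

/-- **Odd inverse.**  `pb` continuous and odd on `ℝ`, `τ` continuous on `[-δ, δ]` with
`pb (τ p) = p`, `τ (-δ) < 0 < τ δ`.  Then `τ (-p) = -τ p` for all small `p`.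
Proof: `τ` is injective and continuous, hence strictly increasing on `[-δ, δ]`, and `pb` is its
inverse on `J = τ [-δ, δ] ∋ 0`, in particular injective on `J`.  `pb 0 = 0` (odd), so `τ 0 = 0`.
For `p` small, `τ p` and `-τ p` and `τ (-p)` are in the interior of `J`, and
`pb (-τ p) = -pb (τ p) = -p = pb (τ (-p))`. -/
theorem odd_inverse {pb τ : ℝ → ℝ} (hpb : ∀ t, pb (-t) = -pb t) {δ : ℝ} (hδ : 0 < δ)
    (hτ : ContinuousOn τ (Icc (-δ) δ)) (hinv : ∀ p ∈ Icc (-δ) δ, pb (τ p) = p)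
    (hneg : τ (-δ) < 0) (hpos : 0 < τ δ) : ∃ ε > 0, ∀ p, |p| < ε → τ (-p) = -τ p := by
  have hIVT := intermediate_value_Icc (by linarith : -δ ≤ δ) hτ
  have key : ∀ t ∈ Icc (τ (-δ)) (τ δ), τ (pb t) = t := by
    intro t ht
    obtain ⟨p, hp, rfl⟩ := hIVT ht
    rw [hinv p hp]
  have hpb0 : pb 0 = 0 := by
    have h1 := hpb 0
    rw [neg_zero] at h1
    linarith
  have hτ0 : τ 0 = 0 := by
    have h1 := key 0 ⟨hneg.le, hpos.le⟩
    rwa [hpb0] at h1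
  have hc : ContinuousAt τ 0 := hτ.continuousAt (Icc_mem_nhds (by linarith) hδ)
  obtain ⟨ε, hε, h⟩ := Metric.continuousAt_iff.mp hc (min (-τ (-δ)) (τ δ))
    (lt_min (by linarith) hpos)
  refine ⟨min ε δ, lt_min hε hδ, fun p hp => ?_⟩
  have h1 := h (show dist p 0 < ε by
    rw [Real.dist_eq, sub_zero]
    exact hp.trans_le (min_le_left _ _))
  rw [hτ0, Real.dist_eq, sub_zero] at h1
  have hb := abs_lt.mp h1
  have m1 := min_le_left (-τ (-δ)) (τ δ)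
  have m2 := min_le_right (-τ (-δ)) (τ δ)
  have h2 : -τ p ∈ Icc (τ (-δ)) (τ δ) := ⟨by linarith [hb.2], by linarith [hb.1]⟩
  have h3 := key _ h2
  have hpδ := abs_lt.mp (hp.trans_le (min_le_right ε δ))
  rw [hpb, hinv p ⟨hpδ.1.le, hpδ.2.le⟩] at h3
  exact h3

/-- Variant of `re_eq_half` for odd functions: `K` analytic on an open set containing the segment
`[-iη, iη]`, real on real points near `0` and `K(-t) = -K(t)` there; then `Re K(iη) = 0`.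
(Apply `re_eq_half` to `H = K + 1/2`.) -/
theorem re_eq_zero {T : Set ℂ} (hT : IsOpen T) {η : ℝ} (hη : 0 < η)
    (hseg : ∀ y : ℝ, |y| ≤ η → ((y : ℂ) * Complex.I) ∈ T) {K : ℂ → ℂ} (hK : DifferentiableOn ℂ K T)
    {δ : ℝ} (hδ : 0 < δ) (hreal : ∀ t : ℝ, |t| < δ → (K t).im = 0)
    (hodd : ∀ t : ℝ, |t| < δ → K (-t) = -K t) : (K ((η : ℂ) * Complex.I)).re = 0 := by
  have h1 := re_eq_half hT hη hseg (H := fun z => K z + 1 / 2) (hK.add_const (1 / 2)) hδ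
    (fun t ht => by
      show (K t + 1 / 2).im = 0
      rw [Complex.add_im, hreal t ht, zero_add]
      norm_num)
    (fun t ht => by
      show K t + 1 / 2 + (K (-t) + 1 / 2) = 1
      rw [hodd t ht]
      ring)
  have h2 : (K ((η : ℂ) * Complex.I) + 1 / 2).re = 1 / 2 := h1
  rw [Complex.add_re] at h2
  have h3 : ((1 : ℂ) / 2).re = 1 / 2 := by norm_num
  rw [h3] at h2
  linarith

private theorem WT_inv (x : ℝ) :
    |x / Real.sqrt (1 + x ^ 2)| < 1 ∧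
      x / Real.sqrt (1 + x ^ 2) / Real.sqrt (1 - (x / Real.sqrt (1 + x ^ 2)) ^ 2) = x := by
  have h1 : 0 < 1 + x ^ 2 := by positivity
  have h2 : 0 < Real.sqrt (1 + x ^ 2) := Real.sqrt_pos.mpr h1
  have h3 : Real.sqrt (1 + x ^ 2) ^ 2 = 1 + x ^ 2 := Real.sq_sqrt h1.le
  have h4 : (x / Real.sqrt (1 + x ^ 2)) ^ 2 = x ^ 2 / (1 + x ^ 2) := by rw [div_pow, h3]
  constructor
  · rw [← sq_lt_one_iff_abs_lt_one, h4, div_lt_one h1]
    linarith
  · have h5 : 1 - x ^ 2 / (1 + x ^ 2) = 1 / (1 + x ^ 2) := by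
      field_simp
      ring
    rw [h4, h5, Real.sqrt_div zero_le_one, Real.sqrt_one]
    field_simp

private theorem WT_contG : ContinuousOn (fun y : ℝ => y / Real.sqrt (1 - y ^ 2)) {y | |y| < 1} := by
  refine continuousOn_id.div (by fun_prop) ?_
  intro y hy
  have h1 : y ^ 2 < 1 := by
    rw [sq_lt_one_iff_abs_lt_one]
    exact hy
  exact (Real.sqrt_pos.mpr (by linarith)).ne'

/-- **Main theorem for this interface.**  `X` from `seqFixR` (real on reals).  For `|p| ≤ δ` let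
`τ p = s p (X p) 0`; `τ p = T/√(1 - T²)` with `T = Tf p (X p)` real, so `τ` is continuous.
`orbit_eq` gives `g (τ p) = s p (X p) 1`, so by `param`
`H (τ p) = 1/(1 + exp (e p))`, `H t = (g t - t)^(-e)/F(t) ∈ (0, 1)`.  Put
`pb t = (1/e) log (1/H t - 1)`; `pb (τ p) = p`, and `pb (-t) = -pb t` since
`H t + H (-t) = 1` (`ChordPair.add_neg`).  `odd_inverse` gives `τ (-p) = -τ p` for small `p`, so
`Tf` is odd near `0`; `re_eq_zero` contradicts `test`. -/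
theorem WTrap.false {e m : ℝ} (he : 1 < e) (hm : 1 < m) (D : WTrap e m)
    {g h : ℝ ≃o ℝ} (hc : ChordPair e m g h) : False := by
  obtain ⟨X, hXd, hXf, hXr⟩ := seqFixR D.isOpen_D D.hθ0 D.hθ1 D.R_pos D.R_cont D.maps D.hol
    D.real
  set K : ℂ → ℂ := fun p => D.Tf p (X p) with hK
  have hX1 : ∀ p ∈ D.D, ∀ n, ‖X p n‖ ≤ D.R p n := fun p hp n =>
    ((hXf p hp n).1).trans (by
      have h1 := D.R_pos p hp n
      have h2 := D.hθ1
      nlinarith)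
  have hKd : DifferentiableOn ℂ K D.D := D.hol_Tf X hXd hX1
  set τ : ℝ → ℝ := fun p => D.s p (X p) 0 with hτ
  have hKτ : ∀ p : ℝ, (p : ℂ) ∈ D.D → K p = ((τ p / Real.sqrt (1 + τ p ^ 2) : ℝ) : ℂ) :=
    fun p hp => D.Tf_real p hp (X p) (hX1 _ hp) (hXr p hp) (fun n => (hXf _ hp n).2)
  have hτK : ∀ p : ℝ, (p : ℂ) ∈ D.D → |(K p).re| < 1 ∧
      τ p = (K p).re / Real.sqrt (1 - (K p).re ^ 2) := by
    intro p hp
    rw [hKτ p hp, Complex.ofReal_re]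
    exact ⟨(WT_inv (τ p)).1, (WT_inv (τ p)).2.symm⟩
  have hIcc : ∀ p ∈ Icc (-D.δ) D.δ, (p : ℂ) ∈ D.D := fun p hp => D.segr p (abs_le.mpr hp)
  have hτc : ContinuousOn τ (Icc (-D.δ) D.δ) := by
    have h1 : ContinuousOn (fun p : ℝ => (K (p : ℂ)).re) (Icc (-D.δ) D.δ) :=
      Complex.continuous_re.comp_continuousOn
        (hKd.continuousOn.comp Complex.continuous_ofReal.continuousOn hIcc)
    have h2 := WT_contG.comp h1 (fun p hp => (hτK p (hIcc p hp)).1)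
    exact h2.congr (fun p hp => (hτK p (hIcc p hp)).2)
  set Hg : ℝ → ℝ := fun t => (g t - t) ^ (-e) / FF e m t with hHg
  have hHpos : ∀ t, 0 < Hg t := fun t =>
    div_pos (Real.rpow_pos_of_pos (by linarith [hc.gt_g t]) _) (FF_pos hm t)
  have hHsum : ∀ t, Hg t + Hg (-t) = 1 := by
    intro t
    have h1 := hc.add_neg he hm t
    show (g t - t) ^ (-e) / FF e m t + (g (-t) - (-t)) ^ (-e) / FF e m (-t) = 1
    rw [sub_neg_eq_add]
    exact h1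
  have hHτ : ∀ p : ℝ, (p : ℂ) ∈ D.D → Hg (τ p) = 1 / (1 + Real.exp (e * p)) := by
    intro p hp
    obtain ⟨o1, o2, o3, o4⟩ := D.orbit p hp (X p) (hX1 _ hp) (hXr p hp)
      (fun n => (hXf _ hp n).2)
    have h3 := D.param p hp (X p) (hX1 _ hp) (hXr p hp) (fun n => (hXf _ hp n).2)
    have h4 := orbit_eq he hm hc o1 o2 o3 o4
    rw [← h4] at h3
    exact h3
  set pb : ℝ → ℝ := fun t => (1 / e) * Real.log (1 / Hg t - 1) with hpb
  have hpbodd : ∀ t, pb (-t) = -pb t := by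
    intro t
    have h1 := hHpos t
    have h2 := hHpos (-t)
    have h3 := hHsum t
    have h4 : 1 / Hg (-t) - 1 = (1 / Hg t - 1)⁻¹ := by
      have h5 : 1 / Hg t - 1 = Hg (-t) / Hg t := by
        rw [eq_div_iff h1.ne', sub_mul, one_div, inv_mul_cancel₀ h1.ne', one_mul]
        linarith
      have h6 : 1 / Hg (-t) - 1 = Hg t / Hg (-t) := by
        rw [eq_div_iff h2.ne', sub_mul, one_div, inv_mul_cancel₀ h2.ne', one_mul]
        linarith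
      rw [h5, h6, inv_div]
    show (1 / e) * Real.log (1 / Hg (-t) - 1) = -((1 / e) * Real.log (1 / Hg t - 1))
    rw [h4, Real.log_inv]
    ring
  have he0 : e ≠ 0 := by linarith
  have hinv : ∀ p ∈ Icc (-D.δ) D.δ, pb (τ p) = p := by
    intro p hp
    show (1 / e) * Real.log (1 / Hg (τ p) - 1) = p
    rw [hHτ p (hIcc p hp), one_div_one_div, add_sub_cancel_left, Real.log_exp]
    field_simp
  have hδ0 := D.hδ
  have hm1 : ((-D.δ : ℝ) : ℂ) ∈ D.D := hIcc (-D.δ) ⟨le_refl _, by linarith⟩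
  have hm2 : ((D.δ : ℝ) : ℂ) ∈ D.D := hIcc D.δ ⟨by linarith, le_refl _⟩
  have hneg : τ (-D.δ) < 0 :=
    D.neg (X ((-D.δ : ℝ) : ℂ)) (hX1 _ hm1) (hXr _ hm1) (fun n => (hXf _ hm1 n).2)
  have hpos : 0 < τ D.δ :=
    D.pos (X ((D.δ : ℝ) : ℂ)) (hX1 _ hm2) (hXr _ hm2) (fun n => (hXf _ hm2 n).2)
  obtain ⟨ε, hε, hodd⟩ := odd_inverse hpbodd D.hδ hτc hinv hneg hpos
  have hmem : ∀ p : ℝ, |p| < min ε D.δ → (p : ℂ) ∈ D.D := fun p hp =>
    D.segr p (hp.le.trans (min_le_right _ _))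
  have hzero := re_eq_zero D.isOpen_D D.hη D.seg hKd (lt_min hε D.hδ)
    (fun t ht => by rw [hKτ t (hmem t ht), Complex.ofReal_im])
    (fun t ht => by
      have h1 := hKτ t (hmem t ht)
      have h2 := hKτ (-t) (hmem (-t) (by rwa [abs_neg]))
      rw [Complex.ofReal_neg] at h2
      rw [h1, h2, hodd t (ht.trans_le (min_le_left _ _)), neg_sq, neg_div, Complex.ofReal_neg])
  have hseg := D.seg D.η (by rw [abs_of_pos D.hη])
  exact D.test (X ((D.η : ℂ) * Complex.I)) (hX1 _ hseg) (fun n => (hXf _ hseg n).2) hzero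

end Pool.Agent.helper31.EQ
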