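import Pool.Agent.helper31.EQ.SeqTrap
import Pool.Agent.helper31.EQ.WTrap
import Pool.Agent.helper31.EQ.TrapFalse
import Pool.Agent.helper31.EQ.PartI
import Pool.Agent.helper31.EQ.Y.Alg

/-!
# EQ-Z3: traps of any of the three kinds for all parameters give the nonexistence theorem

The parameter is `κ = log m`; the parameters which are not trivially excluded satisfy
`2 (cosh κ - 1) / cosh(eκ/2)^(2/e) < 4^(1/e) - 1`.
-/

namespace Pool.Agent.helper31.EQ

open Set Metric Filter Topology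

theorem kappa_bound {e κ : ℝ} (he : 1 < e) (hκ : 0 < κ)
    (h : 1 / 2 < (1 + (CC e (Real.exp κ) / 2) ^ (-2 / e)) ^ (-e / 2)) :
    2 * (Real.cosh κ - 1) / Real.cosh (e * κ / 2) ^ (2 / e) < 4 ^ (1 / e) - 1 := by
  have he0 : 0 < e := by linarith
  have hs : 0 < Real.sinh (κ / 2) := Real.sinh_pos_iff.mpr (by linarith)
  have hc : 0 < Real.cosh (κ * e / 2) := Real.cosh_pos _
  have h2s : (0 : ℝ) < 2 * Real.sinh (κ / 2) := by positivity
  have hx : (CC e (Real.exp κ) / 2) ^ (-2 / e) =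
      2 * (Real.cosh κ - 1) / Real.cosh (e * κ / 2) ^ (2 / e) := by
    rw [Pool.Agent.helper31.EQ.Y.CC_exp hκ]
    have e1 : 2 * Real.cosh (κ * e / 2) / (2 * Real.sinh (κ / 2)) ^ e / 2 =
        Real.cosh (κ * e / 2) / (2 * Real.sinh (κ / 2)) ^ e := by ring
    rw [e1, Real.div_rpow hc.le (by positivity), ← Real.rpow_mul h2s.le]
    have e2 : e * (-2 / e) = -2 := by field_simp
    have e3 : (-2 / e) = -(2 / e) := by ring
    rw [e2, e3, Real.rpow_neg hc.le, Real.rpow_neg h2s.le]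
    have e4 : (2 * Real.sinh (κ / 2)) ^ (2 : ℝ) = 2 * (Real.cosh κ - 1) := by
      rw [Real.rpow_two]
      have h3 := Real.cosh_two_mul (κ / 2)
      have h4 := Real.cosh_sq (κ / 2)
      rw [show 2 * (κ / 2) = κ by ring] at h3
      rw [h3, h4]
      ring
    rw [e4, mul_comm κ e, div_inv_eq_mul, mul_comm]
    rfl
  rw [← hx]
  set x := (CC e (Real.exp κ) / 2) ^ (-2 / e) with hxdef
  have hm : 1 < Real.exp κ := Real.one_lt_exp_iff.mpr hκ
  have hx0 : 0 < x := Real.rpow_pos_of_pos (by have := CC_pos (e := e) hm; linarith) _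
  have h1x : 0 < 1 + x := by linarith
  have h5 : (1 + x) ^ (e / 2) < 2 := by
    have h6 : (1 + x) ^ (-e / 2) = ((1 + x) ^ (e / 2))⁻¹ := by
      rw [← Real.rpow_neg h1x.le]
      congr 1
      ring
    rw [h6] at h
    have h7 : 0 < (1 + x) ^ (e / 2) := Real.rpow_pos_of_pos h1x _
    rw [div_lt_iff₀ (by norm_num : (0 : ℝ) < 2), ← div_eq_inv_mul, lt_div_iff₀ h7] at h
    linarith
  have h8 : 1 + x < 4 ^ (1 / e) := by
    have h9 : ((1 + x) ^ (e / 2)) ^ (2 / e) < 2 ^ (2 / e) :=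
      Real.rpow_lt_rpow (Real.rpow_pos_of_pos h1x _).le h5 (by positivity)
    rw [← Real.rpow_mul h1x.le, show e / 2 * (2 / e) = 1 by field_simp, Real.rpow_one] at h9
    have h10 : (2 : ℝ) ^ (2 / e) = 4 ^ (1 / e) := by
      rw [show (4 : ℝ) = 2 ^ (2 : ℝ) by norm_num, ← Real.rpow_mul (by norm_num)]
      congr 1
      ring
    linarith
  linarith

/-- `e = i`, `m = exp κ`. -/
theorem no_two_points_of_all
    (H : ∀ e κ : ℝ, 1 < e → 0 < κ →
      2 * (Real.cosh κ - 1) / Real.cosh (e * κ / 2) ^ (2 / e) < 4 ^ (1 / e) - 1 →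
      Nonempty (WTrap e (Real.exp κ)) ∨ Nonempty (SeqTrap e (Real.exp κ)) ∨
        Nonempty (TrapData e (Real.exp κ)))
    {n : ℕ} (hn : 2 ≤ n) {i : ℝ} (hi : 1 < i) :
    ¬ ∃ L : Set (EuclideanSpace ℝ (Fin n)), IsBody L ∧ ∃ p q, p ≠ q ∧
      IsEquichordalPoint i L p ∧ IsEquichordalPoint i L q := by
  rintro ⟨L, _, p, q, hpq, hp, hq⟩
  obtain ⟨w, hw, hvw⟩ := exists_orthogonal hn (q - p)
  obtain ⟨m, hm, g, h, hc⟩ := exists_chordPair hi hpq hp hq hw hvw
  have hm0 : 0 < m := by linarith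
  have hlog : Real.exp (Real.log m) = m := Real.exp_log hm0
  have hκ : 0 < Real.log m := Real.log_pos hm
  have h1 := hc.trivial_exclusion hi hm
  rw [← hlog] at h1
  have h2 := kappa_bound hi hκ h1
  have h3 := H i (Real.log m) hi hκ h2
  rw [hlog] at h3
  rcases h3 with ⟨⟨D⟩⟩ | ⟨⟨D⟩⟩ | ⟨⟨D⟩⟩
  · exact D.false hi hm hc
  · exact D.false hi hm hc
  · exact D.false hi hm hc

end Pool.Agent.helper31.EQ
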