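import Pool.Agent.helper31.EQ.Planar

/-!
# EQ-I3a: the node relation

`v ⟂ w`, `‖w‖ = ‖v‖ = d > 0`.  Then `‖t v + w‖ = d √(1 + t²)`, and the `e`-chord relation at `p`
in the direction `u = (t v + w) / ‖t v + w‖` reads
`up^e + dn^e = (2 a / d^e) (1 + t²)^(-e/2)`.
-/

namespace Pool.Agent.helper31.EQ

open Set Metric Filter Topology

variable {E : Type*} [NormedAddCommGroup E] [InnerProductSpace ℝ E]

theorem norm_tv_w {v w : E} (hvw : inner ℝ v w = (0 : ℝ)) (hn : ‖w‖ = ‖v‖) (t : ℝ) :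
    ‖t • v + w‖ = ‖v‖ * Real.sqrt (1 + t ^ 2) := by
  have h1 : ‖t • v + w‖ ^ 2 = ‖v‖ ^ 2 * (1 + t ^ 2) := by
    rw [norm_add_sq_real, real_inner_smul_left, hvw, norm_smul, Real.norm_eq_abs, mul_pow, sq_abs,
      hn]
    ring
  have h2 : (‖v‖ * Real.sqrt (1 + t ^ 2)) ^ 2 = ‖v‖ ^ 2 * (1 + t ^ 2) := by
    rw [mul_pow, Real.sq_sqrt (by positivity)]
  exact (sq_eq_sq₀ (norm_nonneg _) (by positivity)).1 (h1.trans h2.symm)

theorem tv_w_ne_zero {v w : E} (hvw : inner ℝ v w = (0 : ℝ)) (hn : ‖w‖ = ‖v‖) (hv : v ≠ 0)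
    (t : ℝ) : t • v + w ≠ 0 := by
  have h1 : 0 < ‖v‖ := norm_pos_iff.2 hv
  have h2 : 0 < ‖t • v + w‖ := by
    rw [norm_tv_w hvw hn]
    positivity
  exact norm_pos_iff.1 h2

private theorem NodeRel_radial_nonneg (M : Set E) (x : E) : 0 ≤ radial M x :=
  Real.sSup_nonneg fun _ ht => ht.1

/-- Use `radial_smul` with `c = ‖t v + w‖⁻¹`: `up = ρ(u) / ‖t v + w‖`,
`dn = ρ(-u) / ‖t v + w‖`. -/
theorem node_rel {e : ℝ} (he : 1 < e) {L : Set E} {p v w : E}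
    (hp : IsEquichordalPoint e L p) (hvw : inner ℝ v w = (0 : ℝ)) (hn : ‖w‖ = ‖v‖)
    (hv : v ≠ 0) :
    ∃ c : ℝ, 0 < c ∧ ∀ t : ℝ, up L p v w t ^ e + dn L p v w t ^ e =
      c * (1 + t ^ 2) ^ (-e / 2) := by
  obtain ⟨-, -, a, ha, hau⟩ := hp
  have hv0 : 0 < ‖v‖ := norm_pos_iff.2 hv
  refine ⟨2 * a * ‖v‖ ^ (-e), by positivity, fun t => ?_⟩
  set x : E := t • v + w with hx
  have hx0 : x ≠ 0 := tv_w_ne_zero hvw hn hv t
  have hxn : 0 < ‖x‖ := norm_pos_iff.2 hx0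
  have hu : ‖(‖x‖⁻¹ • x)‖ = 1 := by
    rw [norm_smul, norm_inv, norm_norm]
    exact inv_mul_cancel₀ hxn.ne'
  have h1 := hau _ hu
  have he0 : e ≠ 0 := by linarith
  rw [chordFun, if_neg he0, ← smul_neg, radial_smul _ _ (inv_pos.2 hxn),
    radial_smul _ _ (inv_pos.2 hxn), div_inv_eq_mul, div_inv_eq_mul,
    Real.mul_rpow (NodeRel_radial_nonneg _ _) hxn.le,
    Real.mul_rpow (NodeRel_radial_nonneg _ _) hxn.le, ← add_mul] at h1
  have h2 : up L p v w t ^ e + dn L p v w t ^ e = 2 * a * ‖x‖ ^ (-e) := by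
    have h3 : (radial (translate L p) x ^ e + radial (translate L p) (-x) ^ e) * ‖x‖ ^ e =
        2 * a := by linarith
    rw [← h3, mul_assoc, ← Real.rpow_add hxn, add_neg_cancel, Real.rpow_zero, mul_one]
    rfl
  have h4 : ‖x‖ ^ (-e) = ‖v‖ ^ (-e) * (1 + t ^ 2) ^ (-e / 2) := by
    rw [hx, norm_tv_w hvw hn, Real.mul_rpow hv0.le (Real.sqrt_nonneg _), Real.sqrt_eq_rpow,
      ← Real.rpow_mul (by positivity)]
    congr 2
    ring
  rw [h2, h4]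
  ring

end Pool.Agent.helper31.EQ
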