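import Pool.Agent.helper31.EQ.StarBasics

/-!
# EQ-I2: heights above the axis, matching, and the node relation

`p`, `q = p + v` are the two points, `w` is a vector with `t • v + w ≠ 0` for all `t`.
The point `p + y (t v + w)` is `q + y ((t - 1/y) v + w)`.
-/

namespace Pool.Agent.helper31.EQ

open Set Metric Filter Topology

variable {E : Type*} [NormedAddCommGroup E] [NormedSpace ℝ E]

private theorem Planar_point {p q v w : E} (hv : q = p + v) {t y : ℝ} (hy : y ≠ 0) :
    p + y • (t • v + w) = q + y • ((t - 1 / y) • v + w) := by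
  rw [hv, sub_smul, smul_add, smul_add, smul_sub, smul_smul y (1 / y), mul_one_div_cancel hy,
    one_smul]
  abel

private theorem Planar_neg {v w : E} (hvw : ∀ t : ℝ, t • v + w ≠ 0) (t : ℝ) :
    t • (-v) + (-w) ≠ 0 := by
  intro h
  rw [smul_neg, ← neg_add] at h
  exact hvw t (neg_eq_zero.1 h)

/-- `up` is positive. -/
theorem up_pos {L : Set E} {p v w : E} (hp : IsStarBody (translate L p))
    (hvw : ∀ t : ℝ, t • v + w ≠ 0) (t : ℝ) : 0 < up L p v w t := by
  exact radial_pos hp (hvw t)

/-- `up` is continuous. -/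
theorem continuous_up {L : Set E} {p v w : E} (hp : IsStarBody (translate L p))
    (hvw : ∀ t : ℝ, t • v + w ≠ 0) : Continuous (up L p v w) := by
  rw [continuous_iff_continuousAt]
  intro t
  have h1 : ContinuousAt (fun t : ℝ => t • v + w) t := by fun_prop
  exact ContinuousAt.comp (f := fun t : ℝ => t • v + w) (g := radial (translate L p))
    (continuousAt_radial hp (hvw t)) h1

/-- `y ≤ up L p v w t ↔ p + y (t v + w) ∈ L` for `y ≥ 0`. -/
theorem le_up_iff {L : Set E} {p v w : E} (hp : IsStarBody (translate L p))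
    (hvw : ∀ t : ℝ, t • v + w ≠ 0) {t y : ℝ} (hy : 0 ≤ y) :
    y ≤ up L p v w t ↔ p + y • (t • v + w) ∈ L := by
  unfold up
  rw [← mem_iff_le_radial hp (hvw t) hy, mem_translate]

/-- The same point seen from `p` and from `q = p + v`: for `y > 0`,
`y ≤ up L p v w t ↔ y ≤ up L q v w (t - 1 / y)` (both say that
`p + y (t v + w) = q + y ((t - 1/y) v + w) ∈ L`). -/
theorem le_up_iff_le_up {L : Set E} {p q v w : E} (hp : IsStarBody (translate L p))
    (hq : IsStarBody (translate L q)) (hv : q = p + v) (hvw : ∀ t : ℝ, t • v + w ≠ 0)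
    {t y : ℝ} (hy : 0 < y) :
    y ≤ up L p v w t ↔ y ≤ up L q v w (t - 1 / y) := by
  rw [le_up_iff hp hvw hy.le, le_up_iff hq hvw hy.le, Planar_point hv hy.ne']

/-- Matching, from `p` to `q`.  Put `y = up L p v w t > 0`, `s = t - 1 / y`.  By
`le_up_iff_le_up`, `y ≤ up L q v w s`.  If `y < up L q v w s`, then
`q + y (s v + w) = p + y (t v + w)` is an interior point of `L` (`smul_mem_interior` for
`translate L q`; `0 ∈ interior (translate L q)` because `q ∈ interior L`), hence
`y < up L p v w t` by `lt_radial_of_mem_interior`, a contradiction. -/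
theorem up_match {L : Set E} {p q v w : E} (hp : IsStarBody (translate L p))
    (hq : IsStarBody (translate L q)) (hqi : q ∈ interior L) (hv : q = p + v)
    (hvw : ∀ t : ℝ, t • v + w ≠ 0) (t : ℝ) :
    up L q v w (t - 1 / up L p v w t) = up L p v w t := by
  obtain ⟨y, hy⟩ : ∃ y, y = up L p v w t := ⟨_, rfl⟩
  have hy0 : 0 < y := hy ▸ up_pos hp hvw t
  rw [← hy]
  have h1 : y ≤ up L q v w (t - 1 / y) :=
    (le_up_iff_le_up hp hq hv hvw hy0).1 hy.le
  refine le_antisymm ?_ h1
  by_contra h2
  rw [not_le] at h2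
  have h0 : (0 : E) ∈ interior (translate L q) := by
    rw [mem_interior_translate, add_zero]
    exact hqi
  have h3 := smul_mem_interior hq h0 (hvw (t - 1 / y)) hy0.le h2
  rw [mem_interior_translate, ← Planar_point hv hy0.ne', ← mem_interior_translate] at h3
  have h4 := lt_radial_of_mem_interior hp (hvw t) hy0.le h3
  rw [hy] at h4
  exact lt_irrefl _ h4

/-- Matching, from `q` to `p`: the same proof with `p ∈ interior L`. -/
theorem up_match' {L : Set E} {p q v w : E} (hp : IsStarBody (translate L p))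
    (hq : IsStarBody (translate L q)) (hpi : p ∈ interior L) (hv : q = p + v)
    (hvw : ∀ t : ℝ, t • v + w ≠ 0) (s : ℝ) :
    up L p v w (s + 1 / up L q v w s) = up L q v w s := by
  obtain ⟨y, hy⟩ : ∃ y, y = up L q v w s := ⟨_, rfl⟩
  have hy0 : 0 < y := hy ▸ up_pos hq hvw s
  rw [← hy]
  have hs : s + 1 / y - 1 / y = s := by ring
  have h1 : y ≤ up L p v w (s + 1 / y) := by
    rw [le_up_iff_le_up hp hq hv hvw hy0, hs]
    exact hy.le
  refine le_antisymm ?_ h1
  by_contra h2
  rw [not_le] at h2
  have h0 : (0 : E) ∈ interior (translate L p) := by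
    rw [mem_interior_translate, add_zero]
    exact hpi
  have h3 := smul_mem_interior hp h0 (hvw (s + 1 / y)) hy0.le h2
  rw [mem_interior_translate, Planar_point hv hy0.ne', hs, ← mem_interior_translate] at h3
  have h4 := lt_radial_of_mem_interior hq (hvw s) hy0.le h3
  rw [hy] at h4
  exact lt_irrefl _ h4

/-- `dn L p v w = up L p (-v) (-w)`. -/
theorem dn_eq_up (L : Set E) (p v w : E) (t : ℝ) : dn L p v w t = up L p (-v) (-w) t := by
  unfold dn up
  rw [smul_neg, neg_add]

/-- Matching of the lower heights from `p` to `q` (apply `up_match'` to the points `q`, `p` and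
the vectors `-v`, `-w`: `p = q + (-v)`). -/
theorem dn_match {L : Set E} {p q v w : E} (hp : IsStarBody (translate L p))
    (hq : IsStarBody (translate L q)) (hqi : q ∈ interior L) (hv : q = p + v)
    (hvw : ∀ t : ℝ, t • v + w ≠ 0) (t : ℝ) :
    dn L q v w (t + 1 / dn L p v w t) = dn L p v w t := by
  rw [dn_eq_up, dn_eq_up]
  exact up_match' hq hp hqi (by rw [hv]; abel) (Planar_neg hvw) t

/-- Matching of the lower heights from `q` to `p` (apply `up_match` to `q`, `p`, `-v`, `-w`). -/
theorem dn_match' {L : Set E} {p q v w : E} (hp : IsStarBody (translate L p))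
    (hq : IsStarBody (translate L q)) (hpi : p ∈ interior L) (hv : q = p + v)
    (hvw : ∀ t : ℝ, t • v + w ≠ 0) (s : ℝ) :
    dn L p v w (s - 1 / dn L q v w s) = dn L q v w s := by
  rw [dn_eq_up, dn_eq_up]
  exact up_match hq hp hpi (by rw [hv]; abel) (Planar_neg hvw) s

end Pool.Agent.helper31.EQ
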