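import Mathlib

/-!
# EQ-R0: two elementary tools
-/

namespace Pool.Agent.helper31.EQ

open Set Metric Filter Topology

/-- Quantitative first order expansion of a `C²` function with an off-diagonal remainder.
Proof: `fderiv ℝ G` is `C¹` at `p`, hence Lipschitz near `p`
(`ContDiffAt.exists_lipschitzOnWith`), so `‖fderiv ℝ G z - fderiv ℝ G p‖ ≤ K ‖z - p‖` near `p`;
apply `Convex.norm_image_sub_le_of_norm_hasFDerivWithin_le` (or the `fderiv` version) to
`z ↦ G z - fderiv ℝ G p z` on the segment between `x` and `y` (contained in a ball around `p`;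
points of the segment satisfy `‖z - p‖ ≤ max ‖x - p‖ ‖y - p‖ ≤ ‖x - p‖ + ‖y - p‖`). -/
theorem c2_toolkit {G : ℝ × ℝ → ℝ} {p : ℝ × ℝ} (hG : ContDiffAt ℝ 2 G p) :
    ∃ ε > 0, ∃ K : ℝ, 0 ≤ K ∧ ∀ x ∈ ball p ε, ∀ y ∈ ball p ε,
      |G x - G y - fderiv ℝ G p (x - y)| ≤ K * (‖x - p‖ + ‖y - p‖) * ‖x - y‖ := by
  have h1 : ContDiffAt ℝ 1 (fderiv ℝ G) p := hG.fderiv_right (by norm_num)
  obtain ⟨K, t, ht, hK⟩ := h1.exists_lipschitzOnWith
  have hdiff : ∀ᶠ z in 𝓝 p, DifferentiableAt ℝ G z := by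
    have h2 : ∀ᶠ z in 𝓝 p, ContDiffAt ℝ 1 G z :=
      (hG.of_le (by norm_num) : ContDiffAt ℝ 1 G p).eventually (by simp)
    filter_upwards [h2] with z hz
    exact hz.differentiableAt (by norm_num)
  obtain ⟨ε, hε, hball⟩ := Metric.mem_nhds_iff.1 (inter_mem ht hdiff)
  refine ⟨ε, hε, K, K.2, ?_⟩
  intro x hx y hy
  have hp : p ∈ ball p ε := mem_ball_self hε
  -- the segment
  have hseg : segment ℝ y x ⊆ ball p ε := (convex_ball p ε).segment_subset hy hx
  have hnorm : ∀ z ∈ segment ℝ y x, ‖z - p‖ ≤ ‖x - p‖ + ‖y - p‖ := by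
    rintro z ⟨a, b, ha, hb, hab, rfl⟩
    have : a • y + b • x - p = a • (y - p) + b • (x - p) := by
      have : p = (a + b) • p := by rw [hab, one_smul]
      conv_lhs => rw [this]
      simp only [smul_sub, add_smul]; abel
    rw [this]
    calc ‖a • (y - p) + b • (x - p)‖ ≤ ‖a • (y - p)‖ + ‖b • (x - p)‖ := norm_add_le _ _
      _ = a * ‖y - p‖ + b * ‖x - p‖ := by
        rw [norm_smul, norm_smul, Real.norm_of_nonneg ha, Real.norm_of_nonneg hb]
      _ ≤ 1 * ‖y - p‖ + 1 * ‖x - p‖ := by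
        gcongr <;> linarith
      _ = _ := by ring
  have key := (convex_segment y x).norm_image_sub_le_of_norm_hasFDerivWithin_le
    (f := fun z => G z - fderiv ℝ G p z)
    (f' := fun z => fderiv ℝ G z - fderiv ℝ G p)
    (C := K * (‖x - p‖ + ‖y - p‖)) (s := segment ℝ y x) (x := y) (y := x)
    (by
      intro z hz
      have hd : DifferentiableAt ℝ G z := (hball (hseg hz)).2
      exact (hd.hasFDerivAt.sub (fderiv ℝ G p).hasFDerivAt).hasFDerivWithinAt)
    (by
      intro z hz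
      have := hK.norm_sub_le (hball (hseg hz)).1 (hball hp).1
      refine this.trans ?_
      gcongr
      exact hnorm z hz)
    (left_mem_segment ℝ y x) (right_mem_segment ℝ y x)
  have e : G x - G y - fderiv ℝ G p (x - y) =
      (G x - fderiv ℝ G p x) - (G y - fderiv ℝ G p y) := by
    rw [map_sub]; ring
  rw [e]
  simpa [Real.norm_eq_abs] using key

/-- Backward recursion: `a_n ≤ κ a_{n+1} + b_n`, `a` bounded above, `b_{n+1} ≤ q b_n`,
`0 ≤ κ < 1`, `0 ≤ q ≤ 1`, `b_n ≥ 0`.  Then `a_n ≤ b_n / (1 - κ)`.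
Proof: by induction on `k`, `a_n ≤ κ^k M + b_n (1 + κ + ... + κ^(k-1))`, let `k → ∞`. -/
theorem backward_recursion {a b : ℕ → ℝ} {κ q M : ℝ} (hκ : 0 ≤ κ) (hκ1 : κ < 1) (hq : 0 ≤ q)
    (hq1 : q ≤ 1) (hb : ∀ n, 0 ≤ b n) (hbq : ∀ n, b (n + 1) ≤ q * b n)
    (hM : ∀ n, a n ≤ M) (h : ∀ n, a n ≤ κ * a (n + 1) + b n) (n : ℕ) :
    a n ≤ b n / (1 - κ) := by
  have hmono : ∀ n, b (n + 1) ≤ b n := fun n => by nlinarith [hbq n, hb n]
  have key : ∀ k : ℕ, ∀ n, a n ≤ κ ^ k * M + b n / (1 - κ) := by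
    intro k
    induction k with
    | zero =>
      intro n
      have : 0 ≤ b n / (1 - κ) := div_nonneg (hb n) (by linarith)
      simpa using (hM n).trans (le_add_of_nonneg_right this)
    | succ k ih =>
      intro n
      have h1 := ih (n + 1)
      have h2 : b (n + 1) / (1 - κ) ≤ b n / (1 - κ) := by
        have : 0 < 1 - κ := by linarith
        gcongr
        exact hmono n
      have h3 : b n / (1 - κ) = κ * (b n / (1 - κ)) + b n := by
        have : 1 - κ ≠ 0 := by linarith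
        field_simp
        ring
      calc a n ≤ κ * a (n + 1) + b n := h n
        _ ≤ κ * (κ ^ k * M + b n / (1 - κ)) + b n := by gcongr; linarith
        _ = κ ^ (k + 1) * M + (κ * (b n / (1 - κ)) + b n) := by ring
        _ = κ ^ (k + 1) * M + b n / (1 - κ) := by rw [← h3]
  have hlim : Tendsto (fun k : ℕ => κ ^ k * M + b n / (1 - κ)) atTop (𝓝 (0 * M + b n / (1 - κ))) :=
    ((tendsto_pow_atTop_nhds_zero_of_lt_one hκ hκ1).mul_const M).add_const _
  have := ge_of_tendsto' hlim (fun k => key k n)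
  simpa using this

end Pool.Agent.helper31.EQ
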