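import Pool.Agent.helper31.EQ.Defs
import Pool.Agent.helper31.EQ.Toolkit

/-!
# EQ-R1: the backward map near infinity in the variables `z = 1 / t²` and `f`

`lam f = (C f)^(-1/e)`, `rho z f = 1 - lam f √(1+z)` (the quotient previous node / node) and
`BB z f = 1 - f ((rho² + z)/(1+z))^(e/2)` (the value of `f` at the previous node).
At `(0, f_∞)`: `C f_∞ = (m/(m-1))^e`, `lam = (m-1)/m`, `rho = 1/m`, `BB = f_∞`.
-/

namespace Pool.Agent.helper31.EQ

open Set Metric Filter Topology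

noncomputable def lamf (e m f : ℝ) : ℝ := (CC e m * f) ^ (-1 / e)

noncomputable def rho (e m z f : ℝ) : ℝ := 1 - lamf e m f * Real.sqrt (1 + z)

noncomputable def BB (e m z f : ℝ) : ℝ :=
  1 - f * ((rho e m z f ^ 2 + z) / (1 + z)) ^ (e / 2)

/-- The coefficient `∂BB/∂z (0, f_∞)`. -/
noncomputable def bz (e m : ℝ) : ℝ := -(e / 2) * finf e m * m ^ (1 - e) * (m - 1)

theorem CC_pos {e m : ℝ} (hm : 1 < m) : 0 < CC e m := by
  unfold CC
  have h1 : 0 < m ^ e := Real.rpow_pos_of_pos (by linarith) e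
  have h2 : 0 < (m - 1) ^ e := Real.rpow_pos_of_pos (by linarith) e
  positivity

theorem FF_pos {e m : ℝ} (hm : 1 < m) (t : ℝ) : 0 < FF e m t := by
  unfold FF
  have h1 : 0 < (1 + t ^ 2) ^ (-e / 2) := Real.rpow_pos_of_pos (by positivity) _
  have := CC_pos (e := e) hm
  positivity

theorem finf_pos {e m : ℝ} (hm : 1 < m) : 0 < finf e m := by
  unfold finf
  have h1 : 0 < m ^ e := Real.rpow_pos_of_pos (by linarith) e
  positivity

theorem finf_lt_one {e m : ℝ} (hm : 1 < m) : finf e m < 1 := by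
  unfold finf
  have h1 : 0 < m ^ e := Real.rpow_pos_of_pos (by linarith) e
  rw [div_lt_one (by positivity)]
  linarith

private theorem CC_mul_finf {e m : ℝ} (hm : 1 < m) :
    CC e m * finf e m = (m / (m - 1)) ^ e := by
  unfold CC finf
  have h1 : 0 < m ^ e := Real.rpow_pos_of_pos (by linarith) e
  have h2 : 0 < (m - 1) ^ e := Real.rpow_pos_of_pos (by linarith) e
  rw [Real.div_rpow (by linarith) (by linarith)]
  have h4 : (1 + m ^ e) ≠ 0 := by positivity
  field_simp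

theorem lamf_finf {e m : ℝ} (he : 1 < e) (hm : 1 < m) : lamf e m (finf e m) = (m - 1) / m := by
  unfold lamf
  rw [CC_mul_finf hm, ← Real.rpow_mul (div_pos (by linarith) (by linarith)).le]
  have h3 : e * (-1 / e) = -1 := by field_simp
  rw [h3, Real.rpow_neg_one, inv_div]

theorem rho_zero_finf {e m : ℝ} (he : 1 < e) (hm : 1 < m) : rho e m 0 (finf e m) = 1 / m := by
  unfold rho
  rw [lamf_finf he hm]
  have : m ≠ 0 := by linarith
  simp
  field_simp
  ring

private theorem inv_sq_rpow {m : ℝ} (h0 : 0 < m) (a : ℝ) :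
    ((1 / m) ^ 2) ^ (a / 2) = m ^ (-a) := by
  rw [← Real.rpow_natCast, ← Real.rpow_mul (by positivity), one_div, Real.inv_rpow h0.le,
    Real.rpow_neg h0.le]
  congr 2
  push_cast
  ring

theorem BB_zero_finf {e m : ℝ} (he : 1 < e) (hm : 1 < m) : BB e m 0 (finf e m) = finf e m := by
  unfold BB
  rw [rho_zero_finf he hm]
  have h0 : 0 < m := by linarith
  have h1 : 0 < m ^ e := Real.rpow_pos_of_pos h0 e
  rw [show ((1 / m) ^ 2 + 0) / (1 + 0) = (1 / m) ^ 2 by ring, inv_sq_rpow h0]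
  unfold finf
  rw [Real.rpow_neg h0.le]
  field_simp
  ring

private theorem mem_ball_pair {z f f0 ε : ℝ} (hz : |z| < ε) (hf : |f - f0| < ε) :
    ((z, f) : ℝ × ℝ) ∈ ball ((0 : ℝ), f0) ε := by
  rw [mem_ball, Prod.dist_eq]
  simp only [Real.dist_eq, sub_zero]
  exact max_lt hz hf

private theorem rho_contDiffAt {e m : ℝ} {n : WithTop ℕ∞} (hm : 1 < m) :
    ContDiffAt ℝ n (fun p : ℝ × ℝ => rho e m p.1 p.2) ((0 : ℝ), finf e m) := by
  unfold rho lamf
  have h1 := CC_pos (e := e) hm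
  have h2 := finf_pos (e := e) hm
  refine contDiffAt_const.sub (ContDiffAt.mul ?_ ?_)
  · exact (contDiffAt_const.mul contDiffAt_snd).rpow_const_of_ne (mul_pos h1 h2).ne'
  · exact (contDiffAt_const.add contDiffAt_fst).sqrt (by simp)

private theorem BB_contDiffAt {e m : ℝ} {n : WithTop ℕ∞} (he : 1 < e) (hm : 1 < m) :
    ContDiffAt ℝ n (fun p : ℝ × ℝ => BB e m p.1 p.2) ((0 : ℝ), finf e m) := by
  unfold BB
  refine contDiffAt_const.sub (contDiffAt_snd.mul ?_)
  refine ContDiffAt.rpow_const_of_ne ?_ ?_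
  · refine ContDiffAt.div (((rho_contDiffAt hm).pow 2).add contDiffAt_fst)
      (contDiffAt_const.add contDiffAt_fst) (by simp)
  · have h0 : 0 < m := by linarith
    simp only [rho_zero_finf he hm]
    positivity

/-- Expansion of `rho`: from `c2_toolkit` (or directly): near `(0, f_∞)` the function `rho` is
Lipschitz. -/
theorem rho_lipschitz {e m : ℝ} (he : 1 < e) (hm : 1 < m) :
    ∃ ε > 0, ∃ K : ℝ, 0 ≤ K ∧ ∀ z f z' f' : ℝ, |z| < ε → |f - finf e m| < ε → |z'| < ε →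
      |f' - finf e m| < ε → |rho e m z f - rho e m z' f'| ≤ K * (|z - z'| + |f - f'|) := by
  obtain ⟨K, t, ht, hK⟩ := ((rho_contDiffAt (n := 1) hm).exists_lipschitzOnWith :
    ∃ K, ∃ t ∈ 𝓝 ((0 : ℝ), finf e m), LipschitzOnWith K
      (fun p : ℝ × ℝ => rho e m p.1 p.2) t)
  obtain ⟨ε, hε, hball⟩ := Metric.mem_nhds_iff.1 ht
  refine ⟨ε, hε, K, K.2, ?_⟩
  intro z f z' f' hz hf hz' hf'
  have m1 : ((z, f) : ℝ × ℝ) ∈ t := hball (mem_ball_pair hz hf)
  have m2 : ((z', f') : ℝ × ℝ) ∈ t := hball (mem_ball_pair hz' hf')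
  have := hK.norm_sub_le m1 m2
  rw [Real.norm_eq_abs] at this
  refine this.trans ?_
  gcongr
  rw [Prod.norm_def]
  simp only [Prod.fst_sub, Prod.snd_sub, Real.norm_eq_abs]
  exact max_le (le_add_of_nonneg_right (abs_nonneg _)) (le_add_of_nonneg_left (abs_nonneg _))

private theorem BB_deriv_f {e m : ℝ} (he : 1 < e) (hm : 1 < m) :
    HasDerivAt ((fun p : ℝ × ℝ => BB e m p.1 p.2) ∘ fun f : ℝ => (((0 : ℝ), f) : ℝ × ℝ))
      (-(m ^ (1 - e))) (finf e m) := by
  have h0 : 0 < m := by linarith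
  have hC := CC_pos (e := e) hm
  have hF := finf_pos (e := e) hm
  have hCF : CC e m * finf e m ≠ 0 := (mul_pos hC hF).ne'
  have hrho : rho e m 0 (finf e m) = 1 / m := rho_zero_finf he hm
  have hlam : lamf e m (finf e m) = (m - 1) / m := lamf_finf he hm
  have l1 : HasDerivAt (fun f : ℝ => lamf e m f) (-((m - 1) / m) / (e * finf e m)) (finf e m) := by
    have := ((hasDerivAt_id (finf e m)).const_mul (CC e m)).rpow_const (p := -1 / e)
      (Or.inl (by simpa using hCF))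
    refine HasDerivAt.congr_deriv (f := fun f : ℝ => lamf e m f) this ?_
    have e1 : (CC e m * id (finf e m)) ^ (-1 / e - 1)
        = lamf e m (finf e m) / (CC e m * finf e m) := by
      unfold lamf
      rw [id, Real.rpow_sub_one hCF]
    rw [e1, hlam]
    field_simp
  have l2 : HasDerivAt (fun f : ℝ => rho e m 0 f) (((m - 1) / m) / (e * finf e m)) (finf e m) := by
    have := (l1.mul_const (Real.sqrt (1 + 0))).const_sub 1
    simp only [add_zero, Real.sqrt_one, mul_one] at this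
    refine (this.congr_deriv (by ring)).congr_of_eventuallyEq ?_
    refine Eventually.of_forall fun f => ?_
    simp [rho]
  have l3 : HasDerivAt (fun f : ℝ => (rho e m 0 f ^ 2 + 0) / (1 + 0))
      (2 * (1 / m) * (((m - 1) / m) / (e * finf e m))) (finf e m) := by
    have := (l2.pow 2).add_const 0 |>.div_const (1 + 0)
    refine this.congr_deriv ?_
    rw [hrho]
    simp
  have hne : (rho e m 0 (finf e m) ^ 2 + 0) / (1 + 0) ≠ 0 := by
    rw [hrho]; positivity
  have l4 := l3.rpow_const (p := e / 2) (Or.inl hne)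
  have l5 := ((hasDerivAt_id (finf e m)).mul l4).const_sub 1
  refine (l5.congr_deriv ?_).congr_of_eventuallyEq ?_
  · have e1 : ((rho e m 0 (finf e m) ^ 2 + 0) / (1 + 0)) ^ (e / 2) = m ^ (-e) := by
      rw [hrho, show ((1 / m) ^ 2 + 0) / (1 + 0) = (1 / m) ^ 2 by ring, inv_sq_rpow h0]
    have e2 : ((rho e m 0 (finf e m) ^ 2 + 0) / (1 + 0)) ^ (e / 2 - 1) = m ^ (-e) * m ^ 2 := by
      rw [hrho, show ((1 / m) ^ 2 + 0) / (1 + 0) = (1 / m) ^ 2 by ring,
        Real.rpow_sub_one (by positivity), inv_sq_rpow h0]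
      field_simp
    rw [e1, e2]
    have e3 : m ^ (1 - e) = m * m ^ (-e) := by
      rw [sub_eq_add_neg, Real.rpow_add h0, Real.rpow_one]
    rw [e3]
    simp only [id]
    field_simp
    ring
  · exact Eventually.of_forall fun f => by simp [BB]

private theorem BB_deriv_z {e m : ℝ} (he : 1 < e) (hm : 1 < m) :
    HasDerivAt ((fun p : ℝ × ℝ => BB e m p.1 p.2) ∘ fun z : ℝ => ((z, finf e m) : ℝ × ℝ))
      (bz e m) 0 := by
  have h0 : 0 < m := by linarith
  have hF := finf_pos (e := e) hm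
  have hrho : rho e m 0 (finf e m) = 1 / m := rho_zero_finf he hm
  have hlam : lamf e m (finf e m) = (m - 1) / m := lamf_finf he hm
  have l0 : HasDerivAt (fun z : ℝ => 1 + z) 1 0 := by
    simpa using (hasDerivAt_id (0 : ℝ)).const_add 1
  have l1 : HasDerivAt (fun z : ℝ => Real.sqrt (1 + z)) (1 / 2) 0 := by
    have := l0.sqrt (by simp)
    simpa using this
  have l2 : HasDerivAt (fun z : ℝ => rho e m z (finf e m)) (-(((m - 1) / m) * (1 / 2))) 0 := by
    have := (l1.const_mul (lamf e m (finf e m))).const_sub 1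
    rw [hlam] at this
    refine this.congr_of_eventuallyEq (Eventually.of_forall fun z => ?_)
    simp [rho, hlam]
  have l3 : HasDerivAt (fun z : ℝ => (rho e m z (finf e m) ^ 2 + z) / (1 + z))
      ((m - 1) / m) 0 := by
    have := ((l2.pow 2).add (hasDerivAt_id (0 : ℝ))).div l0 (by simp)
    refine this.congr_deriv ?_
    have hm0 : m ≠ 0 := h0.ne'
    simp only [Pi.add_apply, Pi.pow_apply, hrho, id]
    norm_num
    field_simp
    ring
  have hne : (rho e m 0 (finf e m) ^ 2 + 0) / (1 + 0) ≠ 0 := by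
    rw [hrho]; positivity
  have l4 := l3.rpow_const (p := e / 2) (Or.inl hne)
  have l5 := (l4.const_mul (finf e m)).const_sub 1
  refine (l5.congr_deriv ?_).congr_of_eventuallyEq ?_
  · have e2 : ((rho e m 0 (finf e m) ^ 2 + 0) / (1 + 0)) ^ (e / 2 - 1) = m ^ (-e) * m ^ 2 := by
      rw [hrho, show ((1 / m) ^ 2 + 0) / (1 + 0) = (1 / m) ^ 2 by ring,
        Real.rpow_sub_one (by positivity), inv_sq_rpow h0]
      field_simp
    rw [e2]
    unfold bz
    have e3 : m ^ (1 - e) = m * m ^ (-e) := by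
      rw [sub_eq_add_neg, Real.rpow_add h0, Real.rpow_one]
    rw [e3]
    field_simp
  · exact Eventually.of_forall fun f => by simp [BB]

/-- Expansion of `BB`.  `(z, f) ↦ BB z f` is `C^∞` near `(0, f_∞)` (there `1 + z > 0`, `f > 0`,
`C f > 0`, and `(rho² + z)/(1+z)` is near `1/m² > 0`).  Its partial derivatives at `(0, f_∞)`:
`∂/∂f`: `lam' = -lam/(e f)`, so `d rho/df = lam/(e f)`, and
`∂BB/∂f = -rho^e - f e rho^(e-1) lam/(e f) = -rho^(e-1) (rho + lam) = -m^(1-e)`;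
`∂/∂z`: `G(z) = ((1 - lam √(1+z))² + z)/(1+z)` has `G(0) = (1-lam)²` and
`G'(0) = -lam (1 - lam) + 1 - (1 - lam)² = lam`, so
`∂BB/∂z = -f (e/2) (1-lam)^(e-2) lam = -f_∞ (e/2) m^(1-e) (m-1) = bz`.
Then apply `c2_toolkit`. -/
theorem BB_expansion {e m : ℝ} (he : 1 < e) (hm : 1 < m) :
    ∃ ε > 0, ∃ K : ℝ, 0 ≤ K ∧ ∀ z f z' f' : ℝ, |z| < ε → |f - finf e m| < ε → |z'| < ε →
      |f' - finf e m| < ε →
      |BB e m z f - BB e m z' f' - (-(m ^ (1 - e)) * (f - f') + bz e m * (z - z'))| ≤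
        K * (|z| + |f - finf e m| + |z'| + |f' - finf e m|) * (|z - z'| + |f - f'|) := by
  have hcd : ContDiffAt ℝ 2 (fun p : ℝ × ℝ => BB e m p.1 p.2) ((0 : ℝ), finf e m) :=
    BB_contDiffAt he hm
  obtain ⟨ε, hε, K, hK0, hK⟩ := c2_toolkit hcd
  have hd : HasFDerivAt (fun p : ℝ × ℝ => BB e m p.1 p.2)
      (fderiv ℝ (fun p : ℝ × ℝ => BB e m p.1 p.2) ((0 : ℝ), finf e m)) ((0 : ℝ), finf e m) :=
    (hcd.differentiableAt (by norm_num)).hasFDerivAt
  have d1 : fderiv ℝ (fun p : ℝ × ℝ => BB e m p.1 p.2) ((0 : ℝ), finf e m) (1, 0)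
      = bz e m := by
    have hz : HasDerivAt (fun z : ℝ => ((z, finf e m) : ℝ × ℝ)) (1, 0) 0 :=
      (hasDerivAt_id (0 : ℝ)).prodMk (hasDerivAt_const _ _)
    have h1 := HasFDerivAt.comp_hasDerivAt (0 : ℝ) (f := fun z : ℝ => ((z, finf e m) : ℝ × ℝ))
      hd hz
    exact h1.unique (BB_deriv_z he hm)
  have d2 : fderiv ℝ (fun p : ℝ × ℝ => BB e m p.1 p.2) ((0 : ℝ), finf e m) (0, 1)
      = -(m ^ (1 - e)) := by
    have hz : HasDerivAt (fun f : ℝ => (((0 : ℝ), f) : ℝ × ℝ)) (0, 1) (finf e m) :=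
      (hasDerivAt_const _ _).prodMk (hasDerivAt_id _)
    have h1 := HasFDerivAt.comp_hasDerivAt (finf e m) (f := fun f : ℝ => (((0 : ℝ), f) : ℝ × ℝ))
      hd hz
    exact h1.unique (BB_deriv_f he hm)
  refine ⟨ε, hε, K, hK0, ?_⟩
  intro z f z' f' hz hf hz' hf'
  have := hK (z, f) (mem_ball_pair hz hf) (z', f') (mem_ball_pair hz' hf')
  have e1 : fderiv ℝ (fun p : ℝ × ℝ => BB e m p.1 p.2) ((0 : ℝ), finf e m)
      ((z, f) - (z', f')) = -(m ^ (1 - e)) * (f - f') + bz e m * (z - z') := by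
    have : ((z, f) - (z', f') : ℝ × ℝ) = (z - z') • ((1 : ℝ), (0 : ℝ)) + (f - f') • ((0 : ℝ), (1 : ℝ)) := by
      ext <;> simp
    rw [this, map_add, map_smul, map_smul, d1, d2, smul_eq_mul, smul_eq_mul]
    ring
  rw [e1] at this
  refine this.trans ?_
  have n1 : ‖((z, f) : ℝ × ℝ) - ((0 : ℝ), finf e m)‖ ≤ |z| + |f - finf e m| := by
    rw [Prod.norm_def]
    simp only [Prod.fst_sub, Prod.snd_sub, Real.norm_eq_abs, sub_zero]
    exact max_le (le_add_of_nonneg_right (abs_nonneg _)) (le_add_of_nonneg_left (abs_nonneg _))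
  have n2 : ‖((z', f') : ℝ × ℝ) - ((0 : ℝ), finf e m)‖ ≤ |z'| + |f' - finf e m| := by
    rw [Prod.norm_def]
    simp only [Prod.fst_sub, Prod.snd_sub, Real.norm_eq_abs, sub_zero]
    exact max_le (le_add_of_nonneg_right (abs_nonneg _)) (le_add_of_nonneg_left (abs_nonneg _))
  have n3 : ‖((z, f) : ℝ × ℝ) - (z', f')‖ ≤ |z - z'| + |f - f'| := by
    rw [Prod.norm_def]
    simp only [Prod.fst_sub, Prod.snd_sub, Real.norm_eq_abs]
    exact max_le (le_add_of_nonneg_right (abs_nonneg _)) (le_add_of_nonneg_left (abs_nonneg _))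
  have n4 : ‖((z, f) : ℝ × ℝ) - ((0 : ℝ), finf e m)‖ + ‖((z', f') : ℝ × ℝ) - ((0 : ℝ), finf e m)‖
      ≤ |z| + |f - finf e m| + |z'| + |f' - finf e m| := by linarith
  gcongr

/-- `φ₁ (m² + m^(1-e)) = bz`. -/
theorem phi1_eq {e m : ℝ} (he : 1 < e) (hm : 1 < m) :
    phi1 e m * (m ^ 2 + m ^ (1 - e)) = bz e m := by
  have h0 : 0 < m := by linarith
  unfold phi1 bz
  have e1 : m ^ (e + 1) = m ^ e * m := by rw [Real.rpow_add h0, Real.rpow_one]
  have e2 : m ^ (1 - e) = m / m ^ e := by rw [Real.rpow_sub h0, Real.rpow_one]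
  have h1 : 0 < m ^ e := Real.rpow_pos_of_pos h0 e
  rw [e1, e2]
  have h2 : m ^ e * m + 1 ≠ 0 := by positivity
  field_simp

/-- A real forward orbit with its values `f_n = V_- / F` at the node `n`. -/
structure IsOrb (e m : ℝ) (s f : ℕ → ℝ) : Prop where
  pos : ∀ n, 0 < s n
  lt : ∀ n, s n < s (n + 1)
  fpos : ∀ n, 0 < f n
  back : ∀ n, (s (n + 1) - s n) ^ (-e) = FF e m (s (n + 1)) * f (n + 1)
  forw : ∀ n, (s (n + 1) - s n) ^ (-e) = FF e m (s n) * (1 - f n)

/-- `s_n = s_{n+1} rho(1/s_{n+1}², f_{n+1})`: from `back`,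
`s_{n+1} - s_n = (C f_{n+1})^(-1/e) (1 + s_{n+1}²)^(1/2)`. -/
theorem IsOrb.rho_eq {e m : ℝ} (he : 1 < e) (hm : 1 < m) {s f : ℕ → ℝ} (h : IsOrb e m s f)
    (n : ℕ) : s n = s (n + 1) * rho e m (1 / s (n + 1) ^ 2) (f (n + 1)) := by
  have hs := h.pos (n + 1)
  have hlt := h.lt n
  have hf := h.fpos (n + 1)
  have hC := CC_pos (e := e) hm
  have hd : 0 < s (n + 1) - s n := by linarith
  have e1 : s (n + 1) - s n = lamf e m (f (n + 1)) * Real.sqrt (1 + s (n + 1) ^ 2) := by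
    have h1 : ((s (n + 1) - s n) ^ (-e)) ^ (-1 / e) = s (n + 1) - s n := by
      rw [← Real.rpow_mul hd.le]
      have : -e * (-1 / e) = 1 := by field_simp
      rw [this, Real.rpow_one]
    rw [← h1, h.back n]
    unfold FF lamf
    have h2 : 0 < (1 + s (n + 1) ^ 2) := by positivity
    rw [show CC e m * (1 + s (n + 1) ^ 2) ^ (-e / 2) * f (n + 1)
      = (CC e m * f (n + 1)) * (1 + s (n + 1) ^ 2) ^ (-e / 2) by ring,
      Real.mul_rpow (by positivity) (Real.rpow_nonneg h2.le _), ← Real.rpow_mul h2.le,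
      Real.sqrt_eq_rpow]
    congr 2
    field_simp
  have e2 : Real.sqrt (1 + s (n + 1) ^ 2) = s (n + 1) * Real.sqrt (1 + 1 / s (n + 1) ^ 2) := by
    rw [Real.sqrt_eq_iff_mul_self_eq (by positivity) (by positivity)]
    rw [show s (n + 1) * Real.sqrt (1 + 1 / s (n + 1) ^ 2) * (s (n + 1) *
      Real.sqrt (1 + 1 / s (n + 1) ^ 2)) = s (n + 1) ^ 2 * (Real.sqrt (1 + 1 / s (n + 1) ^ 2) *
      Real.sqrt (1 + 1 / s (n + 1) ^ 2)) by ring, Real.mul_self_sqrt (by positivity)]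
    field_simp
    ring
  unfold rho
  rw [e2] at e1
  linarith

/-- `f_n = BB(1/s_{n+1}², f_{n+1})`: from `back` and `forw`,
`1 - f_n = f_{n+1} F(s_{n+1})/F(s_n) = f_{n+1} ((1 + s_n²)/(1 + s_{n+1}²))^(e/2)`. -/
theorem IsOrb.BB_eq {e m : ℝ} (he : 1 < e) (hm : 1 < m) {s f : ℕ → ℝ} (h : IsOrb e m s f)
    (n : ℕ) : f n = BB e m (1 / s (n + 1) ^ 2) (f (n + 1)) := by
  have hs := h.pos (n + 1)
  have hr := h.rho_eq he hm n
  have hb := h.back n
  have hw := h.forw n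
  have hFn := FF_pos (e := e) hm (s n)
  have h1 : 0 < 1 + s n ^ 2 := by positivity
  have h2 : 0 < 1 + s (n + 1) ^ 2 := by positivity
  have hC := CC_pos (e := e) hm
  have e1 : (rho e m (1 / s (n + 1) ^ 2) (f (n + 1)) ^ 2 + 1 / s (n + 1) ^ 2)
      / (1 + 1 / s (n + 1) ^ 2) = (1 + s n ^ 2) / (1 + s (n + 1) ^ 2) := by
    rw [hr]
    field_simp
    ring
  unfold BB
  rw [e1, Real.div_rpow h1.le h2.le]
  have e2 : FF e m (s (n + 1)) * f (n + 1) = FF e m (s n) * (1 - f n) := by rw [← hb, ← hw]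
  have p1 : 0 < (1 + s n ^ 2) ^ (e / 2) := Real.rpow_pos_of_pos h1 _
  have p2 : 0 < (1 + s (n + 1) ^ 2) ^ (e / 2) := Real.rpow_pos_of_pos h2 _
  unfold FF at e2
  rw [show -e / 2 = -(e / 2) by ring, Real.rpow_neg h1.le, Real.rpow_neg h2.le] at e2
  field_simp at e2
  field_simp
  linarith

end Pool.Agent.helper31.EQ
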