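import Pool.Agent.helper31.EQ.RealMap

/-!
# EQ-R2: second order asymptotics of real orbits
-/

namespace Pool.Agent.helper31.EQ

open Set Metric Filter Topology

/-- **Second order tail bound.**
Put `z_n = 1/s_n²`, `x_n = f_n - f_∞`, `k = m^(1-e) < 1`.
Choose `ε₀` and `T₀` so small (large) that `BB_expansion`, `rho_lipschitz` apply at
`(z, f) = (z_{n+1}, f_{n+1})`, `(z', f') = (0, f_∞)` and `rho ≤ ρ̄ := (1 + 1/m)/2 < 1`
(`rho` is within `K (z + |x|)` of `1/m`).  Since `s_n = s_{n+1} rho`, `z_{n+1} = rho² z_n ≤ ρ̄² z_n`.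

Step 1.  `BB_expansion` gives
`|x_n + k x_{n+1} - bz z_{n+1}| ≤ K (z_{n+1} + |x_{n+1}|)²`, so with
`κ = (1 + k)/2` and `ε₀, 1/T₀²` small, `|x_n| ≤ κ |x_{n+1}| + K₁ z_{n+1}`; `|x_n| ≤ ε₀` is bounded,
so `backward_recursion` (`b_n = K₁ z_{n+1}`, `q = 1`) gives `|x_n| ≤ K₂ z_n`.

Step 2.  Put `y_n = x_n - φ₁ z_n`.  `|z_n - m² z_{n+1}| = z_{n+1} |rho^(-2) - m²| ≤ K₃ z_{n+1}²`,
and `φ₁ (m² + k) = bz` (`phi1_eq`), hence `|y_n + k y_{n+1}| ≤ K₄ z_{n+1}²`, and
`backward_recursion` again gives `|y_n| ≤ K₅ z_n²`. -/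
theorem tail_bound {e m : ℝ} (he : 1 < e) (hm : 1 < m) :
    ∃ ε₀ > 0, ∃ T₀ > 0, ∃ K : ℝ, ∀ s f : ℕ → ℝ, IsOrb e m s f → (∀ n, T₀ ≤ s n) →
      (∀ n, |f n - finf e m| ≤ ε₀) →
      ∀ n, |f n - finf e m - phi1 e m / s n ^ 2| ≤ K / s n ^ 4 := by
  obtain ⟨ε1, hε1, K1, hK1, h1⟩ := rho_lipschitz he hm
  obtain ⟨ε2, hε2, K2, hK2, h2⟩ := BB_expansion he hm
  have hm0 : 0 < m := by linarith
  have hinv1 : 1 / m < 1 := by rw [div_lt_one hm0]; exact hm
  have hinv0 : 0 < 1 / m := by positivity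
  set k : ℝ := m ^ (1 - e) with hk
  have hk0 : 0 < k := Real.rpow_pos_of_pos hm0 _
  have hk1 : k < 1 := Real.rpow_lt_one_of_one_lt_of_neg hm (by linarith)
  obtain ⟨δ, hδ, hδ1, hδ2, hδ3, hδ4, hδ5⟩ : ∃ δ : ℝ, 0 < δ ∧ δ < ε1 ∧ δ < ε2 ∧
      K1 * (2 * δ) ≤ (1 - 1 / m) / 2 ∧ K1 * (2 * δ) ≤ 1 / m / 2 ∧ K2 * (2 * δ) ≤ (1 - k) / 2 := by
    set c : ℝ := min (min ((1 - 1 / m) / 2) (1 / m / 2)) ((1 - k) / 2) with hc
    have hc0 : 0 < c := by
      rw [hc, lt_min_iff, lt_min_iff]
      refine ⟨⟨by linarith, by positivity⟩, by linarith⟩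
    have hc1 : c ≤ (1 - 1 / m) / 2 := (min_le_left _ _).trans (min_le_left _ _)
    have hc2 : c ≤ 1 / m / 2 := (min_le_left _ _).trans (min_le_right _ _)
    have hc3 : c ≤ (1 - k) / 2 := min_le_right _ _
    set L : ℝ := K1 + K2 + 1 with hL
    have hL0 : 0 < L := by positivity
    refine ⟨min (min (ε1 / 2) (ε2 / 2)) (c / (2 * L)), ?_, ?_, ?_, ?_, ?_, ?_⟩
    · rw [lt_min_iff, lt_min_iff]
      refine ⟨⟨by linarith, by linarith⟩, by positivity⟩
    · exact lt_of_le_of_lt ((min_le_left _ _).trans (min_le_left _ _)) (by linarith)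
    · exact lt_of_le_of_lt ((min_le_left _ _).trans (min_le_right _ _)) (by linarith)
    all_goals
      have hd : 2 * min (min (ε1 / 2) (ε2 / 2)) (c / (2 * L)) ≤ c / L := by
        have := min_le_right (min (ε1 / 2) (ε2 / 2)) (c / (2 * L))
        have h' : c / L = 2 * (c / (2 * L)) := by field_simp
        rw [h']
        linarith
    · refine le_trans (mul_le_mul_of_nonneg_left hd hK1) (le_trans ?_ hc1)
      rw [mul_div_assoc', div_le_iff₀ hL0, hL]
      nlinarith [mul_nonneg hK2 hc0.le]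
    · refine le_trans (mul_le_mul_of_nonneg_left hd hK1) (le_trans ?_ hc2)
      rw [mul_div_assoc', div_le_iff₀ hL0, hL]
      nlinarith [mul_nonneg hK2 hc0.le]
    · refine le_trans (mul_le_mul_of_nonneg_left hd hK2) (le_trans ?_ hc3)
      rw [mul_div_assoc', div_le_iff₀ hL0, hL]
      nlinarith [mul_nonneg hK1 hc0.le]
  set κ : ℝ := (1 + k) / 2 with hκ
  have hκ0 : 0 ≤ κ := by rw [hκ]; linarith
  have hκ1 : κ < 1 := by rw [hκ]; linarith
  set A1 : ℝ := |bz e m| + K2 * (2 * δ) with hA1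
  have hA1' : 0 ≤ A1 := by positivity
  set Kx : ℝ := A1 / (1 - κ) with hKx
  have hKx0 : 0 ≤ Kx := div_nonneg hA1' (by linarith)
  set K3 : ℝ := 4 * m ^ 3 * (1 + m) * (K1 * (1 + Kx)) with hK3
  have hK30 : 0 ≤ K3 := by positivity
  set K4 : ℝ := K2 * (1 + Kx) ^ 2 + |phi1 e m| * K3 with hK4
  have hK40 : 0 ≤ K4 := by positivity
  refine ⟨δ, hδ, 1 / Real.sqrt δ, by positivity, K4 / (1 - k), ?_⟩
  intro s f horb hT hf
  set z : ℕ → ℝ := fun n => 1 / s n ^ 2 with hz
  have hz0 : ∀ n, 0 < z n := fun n => by have := horb.pos n; simp only [hz]; positivity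
  have hzδ : ∀ n, z n ≤ δ := by
    intro n
    have h3 := hT n
    have h4 : (1 / Real.sqrt δ) ^ 2 ≤ s n ^ 2 := pow_le_pow_left₀ (by positivity) h3 2
    rw [div_pow, one_pow, Real.sq_sqrt hδ.le] at h4
    simp only [hz]
    rw [div_le_iff₀ (by have := horb.pos n; positivity)]
    rw [div_le_iff₀ hδ] at h4
    linarith
  have hzmono : ∀ n, z (n + 1) ≤ z n := by
    intro n
    simp only [hz]
    apply one_div_le_one_div_of_le (by have := horb.pos n; positivity)
    exact pow_le_pow_left₀ (horb.pos n).le (horb.lt n).le 2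
  set x : ℕ → ℝ := fun n => f n - finf e m with hx
  have hxδ : ∀ n, |x n| ≤ δ := hf
  -- the map rho
  have hr : ∀ n, |rho e m (z n) (f n) - 1 / m| ≤ K1 * (z n + |x n|) := by
    intro n
    have h3 := h1 (z n) (f n) 0 (finf e m) (by rw [abs_of_pos (hz0 n)]; exact lt_of_le_of_lt (hzδ n) hδ1)
      (lt_of_le_of_lt (hxδ n) hδ1) (by rw [abs_zero]; exact hε1) (by rw [sub_self, abs_zero]; exact hε1)
    rw [rho_zero_finf he hm, sub_zero, abs_of_pos (hz0 n)] at h3
    exact h3
  have hzx : ∀ n, z n + |x n| ≤ 2 * δ := fun n => by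
    have := hzδ n
    have := hxδ n
    linarith
  have hzx0 : ∀ n, 0 ≤ z n + |x n| := fun n => by
    have := hz0 n
    positivity
  have hrlo : ∀ n, 1 / m / 2 ≤ rho e m (z n) (f n) := by
    intro n
    have h3 := (abs_le.1 (hr n)).1
    have h4 := mul_le_mul_of_nonneg_left (hzx n) hK1
    linarith
  have hrhi : ∀ n, rho e m (z n) (f n) ≤ 1 := by
    intro n
    have h3 := (abs_le.1 (hr n)).2
    have h4 := mul_le_mul_of_nonneg_left (hzx n) hK1
    linarith
  have hzrec : ∀ n, z (n + 1) = rho e m (z (n + 1)) (f (n + 1)) ^ 2 * z n := by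
    intro n
    have h3 := horb.rho_eq he hm n
    have h4 := horb.pos (n + 1)
    have h5 := horb.pos n
    have h6 : rho e m (z (n + 1)) (f (n + 1)) = s n / s (n + 1) := by
      rw [eq_div_iff h4.ne']
      simp only [hz]
      rw [mul_comm]
      exact h3.symm
    rw [h6]
    simp only [hz]
    field_simp
  -- the map BB
  have hB : ∀ n, |x n + k * x (n + 1) - bz e m * z (n + 1)| ≤ K2 * (z (n + 1) + |x (n + 1)|) ^ 2 := by
    intro n
    have h3 := h2 (z (n + 1)) (f (n + 1)) 0 (finf e m)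
      (by rw [abs_of_pos (hz0 _)]; exact lt_of_le_of_lt (hzδ _) hδ2)
      (lt_of_le_of_lt (hxδ _) hδ2) (by rw [abs_zero]; exact hε2) (by rw [sub_self, abs_zero]; exact hε2)
    rw [BB_zero_finf he hm, sub_zero, abs_of_pos (hz0 _), abs_zero, sub_self, abs_zero, add_zero, add_zero] at h3
    have h4 : BB e m (z (n + 1)) (f (n + 1)) = f n := (horb.BB_eq he hm n).symm
    rw [h4] at h3
    have h5 : x n + k * x (n + 1) - bz e m * z (n + 1) =
        f n - finf e m - (-k * (f (n + 1) - finf e m) + bz e m * z (n + 1)) := by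
      simp only [hx]
      ring
    rw [h5, sq, ← mul_assoc]
    exact h3
  -- step 1
  have hstep1 : ∀ n, |x n| ≤ κ * |x (n + 1)| + A1 * z (n + 1) := by
    intro n
    have h3 := hB n
    have h4 : |x n| ≤ |x n + k * x (n + 1) - bz e m * z (n + 1)| + k * |x (n + 1)| + |bz e m| * z (n + 1) := by
      have e1 : x n = (x n + k * x (n + 1) - bz e m * z (n + 1)) + (-(k * x (n + 1))) + bz e m * z (n + 1) := by
        ring
      calc |x n| = |(x n + k * x (n + 1) - bz e m * z (n + 1)) + (-(k * x (n + 1))) + bz e m * z (n + 1)| := by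
            rw [← e1]
        _ ≤ |x n + k * x (n + 1) - bz e m * z (n + 1)| + |(-(k * x (n + 1)))| + |bz e m * z (n + 1)| :=
            abs_add_three _ _ _
        _ = _ := by
            rw [abs_neg, abs_mul, abs_mul, abs_of_pos hk0, abs_of_pos (hz0 (n + 1))]
    have h5 : K2 * (z (n + 1) + |x (n + 1)|) ^ 2 ≤ K2 * (2 * δ) * (z (n + 1) + |x (n + 1)|) := by
      rw [sq, mul_assoc]
      exact mul_le_mul_of_nonneg_left (mul_le_mul_of_nonneg_right (hzx _) (hzx0 _)) hK2
    have h6 : (k + K2 * (2 * δ)) * |x (n + 1)| ≤ κ * |x (n + 1)| := by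
      apply mul_le_mul_of_nonneg_right _ (abs_nonneg _)
      rw [hκ]
      linarith
    rw [hA1]
    nlinarith
  have hxz' : ∀ n, |x n| ≤ A1 * z (n + 1) / (1 - κ) := by
    intro n
    exact backward_recursion (a := fun n => |x n|) (b := fun n => A1 * z (n + 1)) (q := 1) (M := δ)
      hκ0 hκ1 zero_le_one le_rfl (fun n => mul_nonneg hA1' (hz0 _).le)
      (fun n => by rw [one_mul]; exact mul_le_mul_of_nonneg_left (hzmono _) hA1') hxδ hstep1 n
  have hxz : ∀ n, |x n| ≤ Kx * z n := by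
    intro n
    refine (hxz' n).trans ?_
    rw [hKx, div_mul_eq_mul_div]
    apply div_le_div_of_nonneg_right _ (by linarith)
    exact mul_le_mul_of_nonneg_left (hzmono n) hA1'
  -- step 2
  set y : ℕ → ℝ := fun n => x n - phi1 e m * z n with hy
  have hzdiff : ∀ n, |z n - m ^ 2 * z (n + 1)| ≤ K3 * z (n + 1) ^ 2 := by
    intro n
    set r := rho e m (z (n + 1)) (f (n + 1)) with hr'
    have h3 := hrlo (n + 1)
    have h4 := hrhi (n + 1)
    rw [← hr'] at h3 h4
    have h5 : 0 < r := lt_of_lt_of_le (by positivity) h3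
    have h6 : z n = z (n + 1) / r ^ 2 := by
      rw [eq_div_iff (by positivity)]
      have := hzrec n
      rw [← hr'] at this
      rw [mul_comm]
      exact this.symm
    have h7 : |r - 1 / m| ≤ K1 * (1 + Kx) * z (n + 1) := by
      refine (hr (n + 1)).trans ?_
      rw [mul_assoc]
      apply mul_le_mul_of_nonneg_left _ hK1
      have := hxz (n + 1)
      linarith
    have h8 : z n - m ^ 2 * z (n + 1) = z (n + 1) * ((1 / m - r) * (m * (1 + m * r)) / r ^ 2) := by
      rw [h6]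
      field_simp
      ring
    rw [h8, abs_mul, abs_of_pos (hz0 (n + 1)), abs_div, abs_mul, abs_sub_comm]
    have h9 : |m * (1 + m * r)| ≤ m * (1 + m) := by
      rw [abs_of_pos (by positivity)]
      apply mul_le_mul_of_nonneg_left _ hm0.le
      nlinarith
    have h10 : 1 / (4 * m ^ 2) ≤ |r ^ 2| := by
      rw [abs_of_pos (by positivity)]
      have := pow_le_pow_left₀ (by positivity) h3 2
      refine le_trans (le_of_eq ?_) this
      field_simp
      ring
    have h11 : |r - 1 / m| * |m * (1 + m * r)| / |r ^ 2| ≤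
        (K1 * (1 + Kx) * z (n + 1)) * (m * (1 + m)) / (1 / (4 * m ^ 2)) := by
      apply div_le_div₀ _ _ (by positivity) h10
      · have := hz0 (n + 1)
        positivity
      · apply mul_le_mul h7 h9 (abs_nonneg _)
        have := hz0 (n + 1)
        positivity
    calc z (n + 1) * (|r - 1 / m| * |m * (1 + m * r)| / |r ^ 2|)
        ≤ z (n + 1) * ((K1 * (1 + Kx) * z (n + 1)) * (m * (1 + m)) / (1 / (4 * m ^ 2))) :=
          mul_le_mul_of_nonneg_left h11 (hz0 _).le
      _ = K3 * z (n + 1) ^ 2 := by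
          rw [hK3]
          field_simp
  have hstep2 : ∀ n, |y n| ≤ k * |y (n + 1)| + K4 * z (n + 1) ^ 2 := by
    intro n
    have e1 : y n = (x n + k * x (n + 1) - bz e m * z (n + 1)) + (-(k * y (n + 1))) +
        (-(phi1 e m * (z n - m ^ 2 * z (n + 1)))) := by
      have := phi1_eq he hm
      rw [← hk] at this
      simp only [hy]
      linear_combination (-(z (n + 1))) * this
    have h3 : |y n| ≤ |x n + k * x (n + 1) - bz e m * z (n + 1)| + k * |y (n + 1)| +
        |phi1 e m| * |z n - m ^ 2 * z (n + 1)| := by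
      calc |y n| = |(x n + k * x (n + 1) - bz e m * z (n + 1)) + (-(k * y (n + 1))) +
            (-(phi1 e m * (z n - m ^ 2 * z (n + 1))))| := by rw [← e1]
        _ ≤ |x n + k * x (n + 1) - bz e m * z (n + 1)| + |(-(k * y (n + 1)))| +
            |(-(phi1 e m * (z n - m ^ 2 * z (n + 1))))| := abs_add_three _ _ _
        _ = _ := by rw [abs_neg, abs_neg, abs_mul, abs_mul, abs_of_pos hk0]
    have h4 : K2 * (z (n + 1) + |x (n + 1)|) ^ 2 ≤ K2 * (1 + Kx) ^ 2 * z (n + 1) ^ 2 := by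
      rw [mul_assoc, ← mul_pow]
      apply mul_le_mul_of_nonneg_left _ hK2
      apply pow_le_pow_left₀ (hzx0 _)
      have := hxz (n + 1)
      linarith
    have h5 := mul_le_mul_of_nonneg_left (hzdiff n) (abs_nonneg (phi1 e m))
    have h6 := hB n
    rw [hK4]
    nlinarith
  intro n
  have hfin : |y n| ≤ K4 * z (n + 1) ^ 2 / (1 - k) := by
    refine backward_recursion (a := fun n => |y n|) (b := fun n => K4 * z (n + 1) ^ 2) (q := 1)
      (M := δ + |phi1 e m| * δ) hk0.le hk1 zero_le_one le_rfl ?_ ?_ ?_ hstep2 n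
    · intro n
      positivity
    · intro n
      rw [one_mul]
      apply mul_le_mul_of_nonneg_left _ hK40
      exact pow_le_pow_left₀ (hz0 _).le (hzmono _) 2
    · intro n
      simp only [hy]
      have h3 : |phi1 e m * z n| ≤ |phi1 e m| * δ := by
        rw [abs_mul, abs_of_pos (hz0 n)]
        exact mul_le_mul_of_nonneg_left (hzδ n) (abs_nonneg _)
      have h4 := abs_sub (x n) (phi1 e m * z n)
      have h5 := hxδ n
      linarith
  have e2 : f n - finf e m - phi1 e m / s n ^ 2 = y n := by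
    simp only [hy, hx, hz]
    ring
  have e3 : K4 / (1 - k) / s n ^ 4 = K4 * z n ^ 2 / (1 - k) := by
    have h3 := horb.pos n
    have h4 : (1 - k) ≠ 0 := by linarith
    simp only [hz]
    field_simp
  rw [e2, e3]
  refine hfin.trans ?_
  apply div_le_div_of_nonneg_right _ (by linarith)
  apply mul_le_mul_of_nonneg_left _ hK40
  exact pow_le_pow_left₀ (hz0 _).le (hzmono _) 2

end Pool.Agent.helper31.EQ
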