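import Mathlib

/-!
# EQ-S3: real orbits stay in the trap (continuity argument)
-/

namespace Pool.Agent.helper31.EQ

open Set Metric Filter Topology

/-- Let `J = [a, ∞)` and let `x t n` (`t ∈ J`) be continuous in `t` for every `n`.  Assume that
the trap `‖x t n‖ ≤ 1` holds for all `n ≥ N` and all `t ∈ J`, and for all `n` if `t ≥ b`; and that
being in the trap for all `n` improves to `‖x t n‖ ≤ θ < 1` for all `n`.  Then `x t` is in the trap
for all `t ∈ J`.
Proof: `A = {t ∈ J : ∀ n, ‖x t n‖ ≤ 1}` is closed in `J`, contains `[b, ∞)`, and is open in `J`: at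
`t ∈ A` the finitely many `n < N` satisfy `‖x t n‖ ≤ θ < 1`, which persists near `t`, and the
`n ≥ N` are always fine.  `J` is connected. -/
theorem trap_of_continuity {a b θ : ℝ} (hab : a ≤ b) (hθ : θ < 1) {x : ℝ → ℕ → ℂ} {N : ℕ}
    (hcont : ∀ n, ContinuousOn (fun t => x t n) (Ici a))
    (htail : ∀ t, a ≤ t → ∀ n, N ≤ n → ‖x t n‖ ≤ 1)
    (hfar : ∀ t, b ≤ t → ∀ n, ‖x t n‖ ≤ 1)
    (hinv : ∀ t, a ≤ t → (∀ n, ‖x t n‖ ≤ 1) → ∀ n, ‖x t n‖ ≤ θ) :
    ∀ t, a ≤ t → ∀ n, ‖x t n‖ ≤ 1 := by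
  intro t hat
  rcases le_total b t with hbt | htb
  · exact hfar t hbt
  have hmaps : MapsTo (fun u : ℝ => b - u) (Icc 0 (b - a)) (Ici a) := by
    intro u hu
    have := hu.2
    simp only [mem_Ici]
    linarith
  have hc : ∀ n, ContinuousOn (fun u : ℝ => ‖x (b - u) n‖) (Icc 0 (b - a)) := by
    intro n
    exact ((hcont n).comp (continuous_const.sub continuous_id).continuousOn hmaps).norm
  set s : Set ℝ := {u : ℝ | ∀ n, ‖x (b - u) n‖ ≤ 1} with hs
  have hclosed : IsClosed (s ∩ Icc 0 (b - a)) := by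
    have h1 : s ∩ Icc 0 (b - a) =
        ⋂ n, (Icc 0 (b - a) ∩ (fun u : ℝ => ‖x (b - u) n‖) ⁻¹' (Iic 1)) := by
      ext u
      simp only [hs, mem_inter_iff, mem_iInter, mem_preimage, mem_Iic, mem_setOf_eq]
      exact ⟨fun h n => ⟨h.2, h.1 n⟩, fun h => ⟨fun n => (h n).2, (h 0).1⟩⟩
    rw [h1]
    exact isClosed_iInter fun n => (hc n).preimage_isClosed_of_isClosed isClosed_Icc isClosed_Iic
  have h0 : (0 : ℝ) ∈ s := by
    intro n
    rw [sub_zero]
    exact hfar b le_rfl n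
  have hgt : ∀ u ∈ s ∩ Ico 0 (b - a), s ∈ 𝓝[>] u := by
    rintro u ⟨hus, hu⟩
    have hmem : Icc 0 (b - a) ∈ 𝓝[>] u := Icc_mem_nhdsGT_of_mem hu
    have hle : 𝓝[>] u ≤ 𝓝[Icc 0 (b - a)] u := by
      refine le_inf nhdsWithin_le_nhds ?_
      exact le_principal_iff.2 hmem
    have hau : a ≤ b - u := by
      have := hu.2
      linarith
    have h2 : ∀ n, ∀ᶠ v in 𝓝[>] u, ‖x (b - v) n‖ < 1 := by
      intro n
      have h3 : ‖x (b - u) n‖ < 1 := lt_of_le_of_lt (hinv (b - u) hau hus n) hθ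
      have h4 : Tendsto (fun v : ℝ => ‖x (b - v) n‖) (𝓝[>] u) (𝓝 ‖x (b - u) n‖) :=
        (hc n u ⟨hu.1, hu.2.le⟩).mono_left hle
      exact h4.eventually_lt_const h3
    have h5 : ∀ᶠ v in 𝓝[>] u, ∀ n ∈ Finset.range N, ‖x (b - v) n‖ < 1 :=
      (Filter.eventually_all_finset _).2 fun n _ => h2 n
    filter_upwards [h5, hmem] with v hv hvI n
    rcases lt_or_ge n N with hn | hn
    · exact (hv n (Finset.mem_range.2 hn)).le
    · exact htail (b - v) (hmaps hvI) n hn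
  have hsub := hclosed.Icc_subset_of_forall_mem_nhdsWithin h0 hgt
  have h6 : b - t ∈ Icc 0 (b - a) := ⟨by linarith, by linarith⟩
  have h7 := hsub h6
  intro n
  have h8 := h7 n
  rwa [sub_sub_cancel] at h8

end Pool.Agent.helper31.EQ
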