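import Pool.Agent.helper31.EQ.RealTail

/-!
# EQ-R3: uniqueness of the forward orbit near infinity
-/

namespace Pool.Agent.helper31.EQ

open Set Metric Filter Topology

private theorem RU_small (a : ℝ) {b : ℝ} (hb : 0 < b) : ∀ᶠ η in 𝓝[>] (0 : ℝ), a * η < b := by
  have h1 : Tendsto (fun η : ℝ => a * η) (𝓝 0) (𝓝 0) := by
    have h2 : Continuous (fun η : ℝ => a * η) := by fun_prop
    have h3 := h2.tendsto 0
    rw [mul_zero] at h3
    exact h3
  exact (h1.mono_left nhdsWithin_le_nhds).eventually (gt_mem_nhds hb)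

private theorem RU_log1 {a b c : ℝ} (hc : 0 < c) (ha : c ≤ a) (hb : c ≤ b) :
    Real.log a - Real.log b ≤ |a - b| / c := by
  have ha0 : 0 < a := lt_of_lt_of_le hc ha
  have hb0 : 0 < b := lt_of_lt_of_le hc hb
  have h1 := Real.log_le_sub_one_of_pos (div_pos ha0 hb0)
  rw [Real.log_div ha0.ne' hb0.ne'] at h1
  have h2 : a / b - 1 = (a - b) / b := by
    field_simp
  rw [h2] at h1
  refine h1.trans ?_
  calc (a - b) / b ≤ |a - b| / b := div_le_div_of_nonneg_right (le_abs_self _) hb0.le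
    _ ≤ |a - b| / c := div_le_div_of_nonneg_left (abs_nonneg _) hc hb

private theorem RU_log {a b c : ℝ} (hc : 0 < c) (ha : c ≤ a) (hb : c ≤ b) :
    |Real.log a - Real.log b| ≤ |a - b| / c := by
  rw [abs_le]
  have h1 := RU_log1 hc ha hb
  have h2 := RU_log1 hc hb ha
  rw [abs_sub_comm] at h2
  constructor <;> linarith

private theorem RU_z1 {z z' B : ℝ} (hz : 0 < z) (hz' : 0 < z') (h1 : z ≤ B) :
    z - z' ≤ B * |Real.log z - Real.log z'| := by
  have h2 := Real.log_le_sub_one_of_pos (div_pos hz' hz)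
  rw [Real.log_div hz'.ne' hz.ne'] at h2
  have h3 : z * (Real.log z' - Real.log z) ≤ z' - z := by
    calc z * (Real.log z' - Real.log z) ≤ z * (z' / z - 1) := mul_le_mul_of_nonneg_left h2 hz.le
      _ = z' - z := by field_simp
  calc z - z' ≤ z * (Real.log z - Real.log z') := by linarith
    _ ≤ z * |Real.log z - Real.log z'| := mul_le_mul_of_nonneg_left (le_abs_self _) hz.le
    _ ≤ B * |Real.log z - Real.log z'| := mul_le_mul_of_nonneg_right h1 (abs_nonneg _)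

private theorem RU_z {z z' B : ℝ} (hz : 0 < z) (hz' : 0 < z') (h1 : z ≤ B) (h2 : z' ≤ B) :
    |z - z'| ≤ B * |Real.log z - Real.log z'| := by
  rw [abs_le]
  have h3 := RU_z1 hz hz' h1
  have h4 := RU_z1 hz' hz h2
  rw [abs_sub_comm] at h4
  constructor <;> linarith

/-- One orbit near infinity. -/
private theorem RU_orb {e m : ℝ} (he : 1 < e) (hm : 1 < m) {ε₁ K₁ η : ℝ} (hK : 0 ≤ K₁)
    (hε : 0 < ε₁)
    (hlip : ∀ z f z' f' : ℝ, |z| < ε₁ → |f - finf e m| < ε₁ → |z'| < ε₁ →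
      |f' - finf e m| < ε₁ → |rho e m z f - rho e m z' f'| ≤ K₁ * (|z - z'| + |f - f'|))
    (h1 : η < ε₁) (h2 : 2 * K₁ * η < (1 - 1 / m) / 2) (h3 : 2 * K₁ * η < 1 / (2 * m))
    {s f : ℕ → ℝ} (h : IsOrb e m s f) (hs : ∀ n, 1 / s n ^ 2 ≤ η)
    (hf : ∀ n, |f n - finf e m| ≤ η) (n : ℕ) :
    1 / (2 * m) ≤ rho e m (1 / s (n + 1) ^ 2) (f (n + 1)) ∧
      1 / s (n + 1) ^ 2 ≤ ((1 + 1 / m) / 2) ^ 2 * (1 / s n ^ 2) := by
  have hm0 : 0 < m := by linarith
  have hz0 : 0 < 1 / s (n + 1) ^ 2 := by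
    have := h.pos (n + 1)
    positivity
  have e1 := hlip (1 / s (n + 1) ^ 2) (f (n + 1)) 0 (finf e m)
    (by rw [abs_of_pos hz0]; exact lt_of_le_of_lt (hs (n + 1)) h1)
    (lt_of_le_of_lt (hf (n + 1)) h1) (by rw [abs_zero]; exact hε)
    (by rw [sub_self, abs_zero]; exact hε)
  rw [rho_zero_finf he hm, sub_zero, abs_of_pos hz0] at e1
  have e2 : K₁ * (1 / s (n + 1) ^ 2 + |f (n + 1) - finf e m|) ≤ 2 * K₁ * η := by
    calc K₁ * (1 / s (n + 1) ^ 2 + |f (n + 1) - finf e m|) ≤ K₁ * (η + η) :=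
          mul_le_mul_of_nonneg_left (add_le_add (hs (n + 1)) (hf (n + 1))) hK
      _ = 2 * K₁ * η := by ring
  have e3 := abs_le.mp (e1.trans e2)
  have e4 : 1 / m - 1 / (2 * m) = 1 / (2 * m) := by
    field_simp
    norm_num
  have e5 : 1 / (2 * m) ≤ rho e m (1 / s (n + 1) ^ 2) (f (n + 1)) := by linarith [e3.1]
  have e6 : rho e m (1 / s (n + 1) ^ 2) (f (n + 1)) ≤ (1 + 1 / m) / 2 := by linarith [e3.2]
  refine ⟨e5, ?_⟩
  have e7 := h.rho_eq he hm n
  have hs1 := h.pos (n + 1)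
  have hr : 0 < rho e m (1 / s (n + 1) ^ 2) (f (n + 1)) :=
    lt_of_lt_of_le (by positivity) e5
  have e8 : 1 / s (n + 1) ^ 2 =
      rho e m (1 / s (n + 1) ^ 2) (f (n + 1)) ^ 2 * (1 / s n ^ 2) := by
    generalize rho e m (1 / s (n + 1) ^ 2) (f (n + 1)) = r at e7 hr
    rw [e7]
    field_simp
  rw [e8]
  refine mul_le_mul_of_nonneg_right (pow_le_pow_left₀ hr.le e6 2) ?_
  have := h.pos n
  positivity

/-- Two orbits: a bound of the differences `z - z'` gives one for the differences of the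
logarithms. -/
private theorem RU_step {Δ δ ζ : ℕ → ℝ} {κ q Kb C₁ A M : ℝ} (hκ : 0 ≤ κ) (hκ1 : κ < 1)
    (hq : 0 ≤ q) (hq1 : q < 1) (hKb : 0 ≤ Kb) (hC : 0 ≤ C₁) (hA : 0 ≤ A)
    (hδM : ∀ n, δ n ≤ M) (hζ : ∀ n, ζ n ≤ A * q ^ n)
    (hδ : ∀ n, δ n ≤ κ * δ (n + 1) + Kb * ζ (n + 1))
    (hΔ : ∀ n, Δ (n + 1) ≤ Δ n + C₁ * (ζ (n + 1) + δ (n + 1))) (h0 : Δ 0 = 0) (n : ℕ) :
    Δ n ≤ C₁ * (1 + Kb / (1 - κ)) / (1 - q) * A := by
  have hκ2 : 0 < 1 - κ := by linarith
  have hq2 : 0 < 1 - q := by linarith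
  have d1 : ∀ n, δ n ≤ Kb * (A * q ^ n) / (1 - κ) := by
    intro n
    refine backward_recursion (a := δ) (b := fun n => Kb * (A * q ^ n)) (κ := κ) (q := q)
      (M := M) hκ hκ1 hq hq1.le ?_ ?_ hδM ?_ n
    · intro n
      positivity
    · intro n
      show Kb * (A * q ^ (n + 1)) ≤ q * (Kb * (A * q ^ n))
      rw [pow_succ]
      apply le_of_eq
      ring
    · intro n
      refine (hδ n).trans ?_
      have h1 : ζ (n + 1) ≤ A * q ^ n := by
        refine (hζ (n + 1)).trans (mul_le_mul_of_nonneg_left ?_ hA)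
        exact pow_le_pow_of_le_one hq hq1.le (Nat.le_succ n)
      have h2 := mul_le_mul_of_nonneg_left h1 hKb
      show κ * δ (n + 1) + Kb * ζ (n + 1) ≤ κ * δ (n + 1) + Kb * (A * q ^ n)
      linarith
  have d2 : ∀ n, Δ (n + 1) ≤ Δ n + C₁ * (1 + Kb / (1 - κ)) * A * q ^ n := by
    intro n
    have h1 : q ^ (n + 1) ≤ q ^ n := pow_le_pow_of_le_one hq hq1.le (Nat.le_succ n)
    have h2 : ζ (n + 1) ≤ A * q ^ n := (hζ (n + 1)).trans (mul_le_mul_of_nonneg_left h1 hA)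
    have h3 : δ (n + 1) ≤ Kb / (1 - κ) * (A * q ^ n) := by
      refine (d1 (n + 1)).trans ?_
      rw [mul_div_right_comm]
      exact mul_le_mul_of_nonneg_left (mul_le_mul_of_nonneg_left h1 hA)
        (div_nonneg hKb hκ2.le)
    have h4 := mul_le_mul_of_nonneg_left (add_le_add h2 h3) hC
    have h5 := hΔ n
    calc Δ (n + 1) ≤ Δ n + C₁ * (ζ (n + 1) + δ (n + 1)) := h5
      _ ≤ Δ n + C₁ * (A * q ^ n + Kb / (1 - κ) * (A * q ^ n)) := by linarith
      _ = Δ n + C₁ * (1 + Kb / (1 - κ)) * A * q ^ n := by ring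
  have d3 : ∀ n, Δ n ≤ C₁ * (1 + Kb / (1 - κ)) * A * ((1 - q ^ n) / (1 - q)) := by
    intro n
    induction n with
    | zero => rw [h0, pow_zero, sub_self, zero_div, mul_zero]
    | succ n ih =>
      have h1 := d2 n
      have h2 : (1 - q ^ (n + 1)) / (1 - q) = (1 - q ^ n) / (1 - q) + q ^ n := by
        field_simp
        ring
      rw [h2, mul_add]
      linarith
  refine (d3 n).trans ?_
  have h1 : (1 - q ^ n) / (1 - q) ≤ 1 / (1 - q) := by
    refine div_le_div_of_nonneg_right ?_ hq2.le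
    have := pow_nonneg hq n
    linarith
  have h2 : 0 ≤ C₁ * (1 + Kb / (1 - κ)) * A := by
    have := div_nonneg hKb hκ2.le
    positivity
  calc C₁ * (1 + Kb / (1 - κ)) * A * ((1 - q ^ n) / (1 - q))
      ≤ C₁ * (1 + Kb / (1 - κ)) * A * (1 / (1 - q)) := mul_le_mul_of_nonneg_left h1 h2
    _ = C₁ * (1 + Kb / (1 - κ)) / (1 - q) * A := by ring

/-- **Uniqueness near infinity.**  Two orbits with the same start, all nodes `≥ T₀` and all `f`
values within `ε₀` of `f_∞`, coincide.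

Notation: `z_n = 1/s_n²`, `z'_n`, `τ_n = log s_n`, `τ'_n`, `δ_n = f_n - f'_n`, `k = m^(1-e) < 1`.
As in `tail_bound` (use it, and its proof of `z_{n+1} ≤ ρ̄² z_n`; `s_{n+1} ≥ s_n / ρ̄` follows from
`IsOrb.rho_eq` and `rho_lipschitz`): `|f_n - f_∞| ≤ K z_n`, same for `f'`, so
`Σ_n |f_n - f_∞|` and `Σ_n z_n` converge geometrically.

(1) `τ_n - τ_{n+1} = log rho(z_{n+1}, f_{n+1})`, so
`|(τ_n - τ'_n) - (τ_{n+1} - τ'_{n+1})| ≤ K (|z_{n+1} - z'_{n+1}| + |δ_{n+1}|)`; in particular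
`D := sup_n |τ_n - τ'_n|` is finite (the right side is `≤ K' (z_{n+1} + z'_{n+1})`, summable).
(2) `|z_n - z'_n| ≤ 2 max(z_n, z'_n) |τ_n - τ'_n|` (mean value theorem for `exp (-2 τ)`), so
`|z_n - z'_n| ≤ 2 Z ρ̄^(2n) D` with `Z = 1/T₀²` (both `z_n, z'_n ≤ Z ρ̄^(2n)`).
(3) `BB_expansion` gives `|δ_n| ≤ κ |δ_{n+1}| + K |z_{n+1} - z'_{n+1}|` with `κ = (1+k)/2 < 1`
(if `ε₀` is small and `T₀` large), hence by `backward_recursion`
`|δ_n| ≤ K'' Z ρ̄^(2n) D`.
(4) `τ_0 = τ'_0`; summing (1) from `0` to `n-1` gives `|τ_n - τ'_n| ≤ K''' Z D` for all `n`, i.e.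
`D ≤ K''' D / T₀²`.  For `T₀` large `D = 0`, so `s = s'`.

(The constants `K, K', ...` depend only on `e, m`, so `T₀` can be chosen after them.) -/
theorem orb_unique {e m : ℝ} (he : 1 < e) (hm : 1 < m) :
    ∃ ε₀ > 0, ∃ T₀ > 0, ∀ s f s' f' : ℕ → ℝ, IsOrb e m s f → IsOrb e m s' f' →
      (∀ n, T₀ ≤ s n) → (∀ n, T₀ ≤ s' n) → (∀ n, |f n - finf e m| ≤ ε₀) →
      (∀ n, |f' n - finf e m| ≤ ε₀) → s 0 = s' 0 → ∀ n, s n = s' n := by
  have hm0 : 0 < m := by linarith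
  obtain ⟨ε₁, hε₁, K₁, hK₁, hlip⟩ := rho_lipschitz he hm
  obtain ⟨ε₂, hε₂, K₂, hK₂, hexp⟩ := BB_expansion he hm
  set k : ℝ := m ^ (1 - e) with hk
  have hk0 : 0 < k := Real.rpow_pos_of_pos hm0 _
  have hk1 : k < 1 := Real.rpow_lt_one_of_one_lt_of_neg hm (by linarith)
  set κ : ℝ := (1 + k) / 2 with hκ
  have hκ0 : 0 ≤ κ := by rw [hκ]; linarith
  have hκ1 : κ < 1 := by rw [hκ]; linarith
  set q : ℝ := ((1 + 1 / m) / 2) ^ 2 with hq
  have hm1 : 1 / m < 1 := by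
    rw [div_lt_one hm0]
    exact hm
  have hm2 : 0 < 1 / m := by positivity
  have hq0 : 0 ≤ q := by rw [hq]; positivity
  have hq1 : q < 1 := by
    rw [hq]
    exact pow_lt_one₀ (by linarith) (by linarith) (by norm_num)
  set Kb : ℝ := |bz e m| + 1 with hKb
  have hKb0 : 0 ≤ Kb := by rw [hKb]; positivity
  set C₁ : ℝ := K₁ * (2 * m) with hC₁
  have hC₁0 : 0 ≤ C₁ := by rw [hC₁]; positivity
  set C₂ : ℝ := C₁ * (1 + Kb / (1 - κ)) / (1 - q) with hC₂
  obtain ⟨η, ⟨h1, h2, h3, h4, h5, h6⟩, hη⟩ :=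
    (((RU_small 1 hε₁).and ((RU_small 1 hε₂).and ((RU_small (2 * K₁)
      (show 0 < (1 - 1 / m) / 2 by linarith)).and ((RU_small (2 * K₁)
      (show 0 < 1 / (2 * m) by positivity)).and ((RU_small (4 * K₂)
      (show 0 < (1 - k) / 2 by linarith)).and (RU_small (4 * C₂) one_pos)))))).and
      self_mem_nhdsWithin).exists
  have hη0 : 0 < η := hη
  rw [one_mul] at h1 h2
  refine ⟨η, hη0, (Real.sqrt η)⁻¹, by positivity, ?_⟩
  intro s f s' f' hs hs' hT hT' hf hf' h0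
  have hzb : ∀ (s f : ℕ → ℝ), IsOrb e m s f → (∀ n, (Real.sqrt η)⁻¹ ≤ s n) →
      ∀ n, 1 / s n ^ 2 ≤ η := by
    intro s f hs hT n
    have g1 : 0 < Real.sqrt η := Real.sqrt_pos.mpr hη0
    have g2 : ((Real.sqrt η)⁻¹) ^ 2 ≤ s n ^ 2 := pow_le_pow_left₀ (by positivity) (hT n) 2
    have g3 : ((Real.sqrt η)⁻¹) ^ 2 = 1 / η := by
      rw [inv_pow, Real.sq_sqrt hη0.le, one_div]
    rw [g3] at g2
    have g4 : 1 / s n ^ 2 ≤ 1 / (1 / η) := one_div_le_one_div_of_le (by positivity) g2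
    rwa [one_div_one_div] at g4
  have hz := hzb s f hs hT
  have hz' := hzb s' f' hs' hT'
  have o1 := RU_orb he hm hK₁ hε₁ hlip h1 h3 h4 hs hz hf
  have o2 := RU_orb he hm hK₁ hε₁ hlip h1 h3 h4 hs' hz' hf'
  rw [← hq] at o1 o2
  have hzpos : ∀ n, 0 < 1 / s n ^ 2 := fun n => by
    have := hs.pos n
    positivity
  have hzpos' : ∀ n, 0 < 1 / s' n ^ 2 := fun n => by
    have := hs'.pos n
    positivity
  have hgeo : ∀ (z : ℕ → ℝ), (z 0 ≤ η) → (∀ n, z (n + 1) ≤ q * z n) → ∀ n, z n ≤ η * q ^ n := by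
    intro z z0 hz n
    induction n with
    | zero => rw [pow_zero, mul_one]; exact z0
    | succ n ih =>
      calc z (n + 1) ≤ q * z n := hz n
        _ ≤ q * (η * q ^ n) := mul_le_mul_of_nonneg_left ih hq0
        _ = η * q ^ (n + 1) := by ring
  have hg := hgeo (fun n => 1 / s n ^ 2) (hz 0) (fun n => (o1 n).2)
  have hg' := hgeo (fun n => 1 / s' n ^ 2) (hz' 0) (fun n => (o2 n).2)
  -- the recursions
  have hδ : ∀ n, |f n - f' n| ≤ κ * |f (n + 1) - f' (n + 1)| +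
      Kb * |1 / s (n + 1) ^ 2 - 1 / s' (n + 1) ^ 2| := by
    intro n
    have e1 := hexp (1 / s (n + 1) ^ 2) (f (n + 1)) (1 / s' (n + 1) ^ 2) (f' (n + 1))
      (by rw [abs_of_pos (hzpos _)]; exact lt_of_le_of_lt (hz _) h2)
      (lt_of_le_of_lt (hf _) h2)
      (by rw [abs_of_pos (hzpos' _)]; exact lt_of_le_of_lt (hz' _) h2)
      (lt_of_le_of_lt (hf' _) h2)
    rw [← hs.BB_eq he hm n, ← hs'.BB_eq he hm n, abs_of_pos (hzpos _), abs_of_pos (hzpos' _)] at e1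
    set Z : ℝ := 1 / s (n + 1) ^ 2 - 1 / s' (n + 1) ^ 2 with hZ
    set F : ℝ := f (n + 1) - f' (n + 1) with hF
    have e2 : K₂ * (1 / s (n + 1) ^ 2 + |f (n + 1) - finf e m| + 1 / s' (n + 1) ^ 2 +
        |f' (n + 1) - finf e m|) ≤ (1 - k) / 2 := by
      calc K₂ * (1 / s (n + 1) ^ 2 + |f (n + 1) - finf e m| + 1 / s' (n + 1) ^ 2 +
        |f' (n + 1) - finf e m|) ≤ K₂ * (η + η + η + η) :=
            mul_le_mul_of_nonneg_left (add_le_add (add_le_add (add_le_add (hz _) (hf _)) (hz' _))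
              (hf' _)) hK₂
        _ = 4 * K₂ * η := by ring
        _ ≤ (1 - k) / 2 := h5.le
    have e3 := e1.trans (mul_le_mul_of_nonneg_right e2 (by positivity : 0 ≤ |Z| + |F|))
    have e4 : |f n - f' n| ≤ |f n - f' n - (-k * F + bz e m * Z)| + |(-k * F + bz e m * Z)| := by
      have := abs_add_le (f n - f' n - (-k * F + bz e m * Z)) (-k * F + bz e m * Z)
      rwa [sub_add_cancel] at this
    have e5 : |(-k * F + bz e m * Z)| ≤ k * |F| + |bz e m| * |Z| := by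
      refine (abs_add_le _ _).trans ?_
      rw [abs_mul, abs_mul, abs_neg, abs_of_pos hk0]
    have e6 : (1 - k) / 2 * |Z| ≤ 1 * |Z| :=
      mul_le_mul_of_nonneg_right (by linarith) (abs_nonneg Z)
    calc |f n - f' n| ≤ (1 - k) / 2 * (|Z| + |F|) + (k * |F| + |bz e m| * |Z|) := by linarith
      _ ≤ κ * |F| + Kb * |Z| := by
        rw [hκ, hKb]
        linarith
  have hΔ : ∀ n, |Real.log (s (n + 1)) - Real.log (s' (n + 1))| ≤
      |Real.log (s n) - Real.log (s' n)| +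
        C₁ * (|1 / s (n + 1) ^ 2 - 1 / s' (n + 1) ^ 2| + |f (n + 1) - f' (n + 1)|) := by
    intro n
    have e1 := hlip (1 / s (n + 1) ^ 2) (f (n + 1)) (1 / s' (n + 1) ^ 2) (f' (n + 1))
      (by rw [abs_of_pos (hzpos _)]; exact lt_of_le_of_lt (hz _) h1)
      (lt_of_le_of_lt (hf _) h1)
      (by rw [abs_of_pos (hzpos' _)]; exact lt_of_le_of_lt (hz' _) h1)
      (lt_of_le_of_lt (hf' _) h1)
    have g1 := (o1 n).1
    have g2 := (o2 n).1
    have g3 := hs.rho_eq he hm n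
    have g4 := hs'.rho_eq he hm n
    generalize rho e m (1 / s (n + 1) ^ 2) (f (n + 1)) = r at e1 g1 g3
    generalize rho e m (1 / s' (n + 1) ^ 2) (f' (n + 1)) = r' at e1 g2 g4
    have hc : 0 < 1 / (2 * m) := by positivity
    have r0 : 0 < r := lt_of_lt_of_le hc g1
    have r0' : 0 < r' := lt_of_lt_of_le hc g2
    have e2 := RU_log hc g1 g2
    have e3 : Real.log (s n) = Real.log (s (n + 1)) + Real.log r := by
      rw [g3, Real.log_mul (hs.pos _).ne' r0.ne']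
    have e4 : Real.log (s' n) = Real.log (s' (n + 1)) + Real.log r' := by
      rw [g4, Real.log_mul (hs'.pos _).ne' r0'.ne']
    have e5 : |r - r'| / (1 / (2 * m)) ≤
        C₁ * (|1 / s (n + 1) ^ 2 - 1 / s' (n + 1) ^ 2| + |f (n + 1) - f' (n + 1)|) := by
      rw [div_div_eq_mul_div, div_one, hC₁]
      calc |r - r'| * (2 * m) ≤ K₁ * (|1 / s (n + 1) ^ 2 - 1 / s' (n + 1) ^ 2| +
            |f (n + 1) - f' (n + 1)|) * (2 * m) := mul_le_mul_of_nonneg_right e1 (by positivity)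
        _ = _ := by ring
    have e6 : Real.log (s (n + 1)) - Real.log (s' (n + 1)) =
        (Real.log (s n) - Real.log (s' n)) - (Real.log r - Real.log r') := by
      rw [e3, e4]
      ring
    rw [e6]
    refine (abs_sub _ _).trans ?_
    linarith
  have hΔ0 : |Real.log (s 0) - Real.log (s' 0)| = 0 := by rw [h0, sub_self, abs_zero]
  have hδM : ∀ n, |f n - f' n| ≤ 2 * η := by
    intro n
    have e1 : f n - f' n = (f n - finf e m) - (f' n - finf e m) := by ring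
    rw [e1]
    refine (abs_sub _ _).trans ?_
    have := hf n
    have := hf' n
    linarith
  have step : ∀ A : ℝ, 0 ≤ A → (∀ n, |1 / s n ^ 2 - 1 / s' n ^ 2| ≤ A * q ^ n) →
      ∀ n, |Real.log (s n) - Real.log (s' n)| ≤ C₂ * A := by
    intro A hA hζ n
    exact RU_step (Δ := fun n => |Real.log (s n) - Real.log (s' n)|)
      (δ := fun n => |f n - f' n|) (ζ := fun n => |1 / s n ^ 2 - 1 / s' n ^ 2|)
      hκ0 hκ1 hq0 hq1 hKb0 hC₁0 hA hδM hζ hδ hΔ hΔ0 n
  have hlogz : ∀ (s : ℕ → ℝ) n, Real.log (1 / s n ^ 2) = -2 * Real.log (s n) := by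
    intro s n
    rw [one_div, Real.log_inv, Real.log_pow]
    push_cast
    ring
  have iter : ∀ j : ℕ, ∀ n, |Real.log (s n) - Real.log (s' n)| ≤ C₂ * η * (1 / 2) ^ j := by
    intro j
    induction j with
    | zero =>
      intro n
      rw [pow_zero, mul_one]
      refine step η hη0.le (fun n => ?_) n
      rw [abs_le]
      have g1 := hg n
      have g2 := hg' n
      have g3 := hzpos n
      have g4 := hzpos' n
      constructor
      · linarith
      · linarith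
    | succ j ih =>
      intro n
      have hCn : 0 ≤ C₂ * η * (1 / 2) ^ j := (abs_nonneg _).trans (ih 0)
      have g := step (2 * η * (C₂ * η * (1 / 2) ^ j)) (by positivity) (fun n => ?_) n
      · refine g.trans ?_
        have g5 : C₂ * (2 * η * (C₂ * η * (1 / 2) ^ j)) =
            (4 * C₂ * η) * (C₂ * η * (1 / 2) ^ j) / 2 := by ring
        rw [g5, pow_succ]
        have g6 : (4 * C₂ * η) * (C₂ * η * (1 / 2) ^ j) ≤ 1 * (C₂ * η * (1 / 2) ^ j) :=
          mul_le_mul_of_nonneg_right h6.le hCn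
        linarith
      · have g1 := RU_z (hzpos n) (hzpos' n) (hg n) (hg' n)
        rw [hlogz, hlogz] at g1
        have g2 : |(-2) * Real.log (s n) - (-2) * Real.log (s' n)| =
            2 * |Real.log (s n) - Real.log (s' n)| := by
          rw [← mul_sub, abs_mul, abs_neg, abs_two]
        rw [g2] at g1
        refine g1.trans ?_
        have g3 := ih n
        have g4 : 0 ≤ η * q ^ n := by positivity
        calc η * q ^ n * (2 * |Real.log (s n) - Real.log (s' n)|)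
            ≤ η * q ^ n * (2 * (C₂ * η * (1 / 2) ^ j)) :=
              mul_le_mul_of_nonneg_left (by linarith) g4
          _ = 2 * η * (C₂ * η * (1 / 2) ^ j) * q ^ n := by ring
  intro n
  have hz0 : |Real.log (s n) - Real.log (s' n)| ≤ 0 := by
    refine ge_of_tendsto (x := atTop) (f := fun j : ℕ => C₂ * η * (1 / 2) ^ j) ?_
      (Eventually.of_forall (fun j => iter j n))
    have := (tendsto_pow_atTop_nhds_zero_of_lt_one (r := (1 / 2 : ℝ)) (by norm_num)
      (by norm_num)).const_mul (C₂ * η)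
    rwa [mul_zero] at this
  have hz1 : Real.log (s n) = Real.log (s' n) :=
    sub_eq_zero.mp (abs_eq_zero.mp (le_antisymm hz0 (abs_nonneg _)))
  exact Real.log_injOn_pos (hs.pos n) (hs'.pos n) hz1

end Pool.Agent.helper31.EQ
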