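import Mathlib

/-!
# EQ-S1: pseudo-hyperbolic distance and the Schwarz lemma for a map into a small disc
-/

namespace Pool.Agent.helper31.EQ

open Set Metric Filter Topology ComplexConjugate

/-- Pseudo-hyperbolic distance in the unit disc. -/
noncomputable def pdist (a b : ℂ) : ℝ := ‖a - b‖ / ‖1 - conj a * b‖

/-- `‖1 - conj a * b‖ ≥ 1 - ‖a‖ ‖b‖`. -/
theorem one_sub_pos {a b : ℂ} (ha : ‖a‖ ≤ 1) (hb : ‖b‖ < 1) : 0 < ‖1 - conj a * b‖ := by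
  rw [norm_pos_iff]
  intro h
  have h1 : conj a * b = 1 := (sub_eq_zero.mp h).symm
  have h2 : ‖a‖ * ‖b‖ = 1 := by
    have := congrArg norm h1
    rwa [norm_mul, RCLike.norm_conj, norm_one] at this
  nlinarith [norm_nonneg a, norm_nonneg b]

/-- `‖1 - conj a b‖² - ‖a - b‖² = (1 - ‖a‖²)(1 - ‖b‖²)`. -/
theorem norm_sq_identity (a b : ℂ) :
    ‖1 - conj a * b‖ ^ 2 - ‖a - b‖ ^ 2 = (1 - ‖a‖ ^ 2) * (1 - ‖b‖ ^ 2) := by
  have e1 : ‖1 - conj a * b‖ ^ 2 = (1 - (a.re * b.re + a.im * b.im)) ^ 2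
      + (a.re * b.im - a.im * b.re) ^ 2 := by
    rw [← Complex.normSq_eq_norm_sq, Complex.normSq_apply]
    simp only [Complex.sub_re, Complex.one_re, Complex.mul_re, Complex.conj_re, Complex.conj_im,
      Complex.sub_im, Complex.one_im, Complex.mul_im]
    ring
  have e2 : ‖a - b‖ ^ 2 = (a.re - b.re) ^ 2 + (a.im - b.im) ^ 2 := by
    rw [← Complex.normSq_eq_norm_sq, Complex.normSq_apply]
    simp only [Complex.sub_re, Complex.sub_im]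
    ring
  have e3 : ‖a‖ ^ 2 = a.re ^ 2 + a.im ^ 2 := by
    rw [← Complex.normSq_eq_norm_sq, Complex.normSq_apply]
    ring
  have e4 : ‖b‖ ^ 2 = b.re ^ 2 + b.im ^ 2 := by
    rw [← Complex.normSq_eq_norm_sq, Complex.normSq_apply]
    ring
  rw [e1, e2, e3, e4]
  ring

theorem pdist_nonneg (a b : ℂ) : 0 ≤ pdist a b :=
  div_nonneg (norm_nonneg _) (norm_nonneg _)

theorem norm_sub_le_pdist {a b : ℂ} (ha : ‖a‖ ≤ 1) (hb : ‖b‖ < 1) :
    ‖a - b‖ ≤ 2 * pdist a b := by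
  have hp := one_sub_pos ha hb
  have h2 : ‖1 - conj a * b‖ ≤ 2 := by
    calc ‖1 - conj a * b‖ ≤ ‖(1 : ℂ)‖ + ‖conj a * b‖ := norm_sub_le _ _
      _ = 1 + ‖a‖ * ‖b‖ := by rw [norm_one, norm_mul, RCLike.norm_conj]
      _ ≤ 2 := by nlinarith [norm_nonneg a, norm_nonneg b]
  unfold pdist
  rw [mul_div_assoc', le_div_iff₀ hp, mul_comm]
  exact mul_le_mul_of_nonneg_right h2 (norm_nonneg _)

theorem pdist_le_norm_sub {θ : ℝ} (hθ : θ < 1) {a b : ℂ} (ha : ‖a‖ ≤ θ) (hb : ‖b‖ ≤ θ) :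
    pdist a b ≤ ‖a - b‖ / (1 - θ ^ 2) := by
  have hθ0 : 0 ≤ θ := (norm_nonneg a).trans ha
  have hpos : 0 < 1 - θ ^ 2 := by nlinarith
  have hge : 1 - θ ^ 2 ≤ ‖1 - conj a * b‖ := by
    have h1 : ‖(1 : ℂ)‖ - ‖conj a * b‖ ≤ ‖1 - conj a * b‖ := norm_sub_norm_le _ _
    rw [norm_one, norm_mul, RCLike.norm_conj] at h1
    nlinarith [norm_nonneg a, norm_nonneg b, mul_le_mul ha hb (norm_nonneg b) hθ0]
  unfold pdist
  exact div_le_div_of_nonneg_left (norm_nonneg _) hpos hge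

/-- Two points of the disc of radius `θ` have pseudo-hyperbolic distance at most `2θ/(1+θ²)`.
Known identity: `1 - pdist² = (1-|a|²)(1-|b|²)/|1 - conj a b|²` and
`|1 - conj a b| ≤ 1 + θ²`, `(1-|a|²)(1-|b|²) ≥ (1-θ²)²`, so
`pdist² ≤ 1 - ((1-θ²)/(1+θ²))² = (2θ/(1+θ²))²`. -/
theorem pdist_le_of_norm_le {θ : ℝ} (hθ0 : 0 ≤ θ) (hθ : θ < 1) {a b : ℂ} (ha : ‖a‖ ≤ θ)
    (hb : ‖b‖ ≤ θ) : pdist a b ≤ 2 * θ / (1 + θ ^ 2) := by
  have hp : 0 < ‖1 - conj a * b‖ := one_sub_pos (ha.trans hθ.le) (hb.trans_lt hθ)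
  have hid := norm_sq_identity a b
  have hD : ‖1 - conj a * b‖ ≤ 1 + θ ^ 2 := by
    calc ‖1 - conj a * b‖ ≤ ‖(1 : ℂ)‖ + ‖conj a * b‖ := norm_sub_le _ _
      _ = 1 + ‖a‖ * ‖b‖ := by rw [norm_one, norm_mul, RCLike.norm_conj]
      _ ≤ 1 + θ ^ 2 := by
        have := mul_le_mul ha hb (norm_nonneg b) hθ0
        nlinarith
  have hA : 1 - θ ^ 2 ≤ 1 - ‖a‖ ^ 2 := by nlinarith [norm_nonneg a]
  have hB : 1 - θ ^ 2 ≤ 1 - ‖b‖ ^ 2 := by nlinarith [norm_nonneg b]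
  have h0 : 0 ≤ 1 - θ ^ 2 := by nlinarith
  have hP : (1 - θ ^ 2) ^ 2 ≤ (1 - ‖a‖ ^ 2) * (1 - ‖b‖ ^ 2) := by
    rw [sq]; exact mul_le_mul hA hB h0 (h0.trans hA)
  have hD2 : ‖1 - conj a * b‖ ^ 2 ≤ (1 + θ ^ 2) ^ 2 := pow_le_pow_left₀ hp.le hD 2
  unfold pdist
  rw [div_le_div_iff₀ hp (by positivity)]
  refine le_of_sq_le_sq ?_ (by positivity)
  have hkey : ‖1 - conj a * b‖ ^ 2 * (1 - θ ^ 2) ^ 2 ≤
      (1 + θ ^ 2) ^ 2 * ((1 - ‖a‖ ^ 2) * (1 - ‖b‖ ^ 2)) :=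
    mul_le_mul hD2 hP (by positivity) (by positivity)
  have hN : ‖a - b‖ ^ 2 = ‖1 - conj a * b‖ ^ 2 - (1 - ‖a‖ ^ 2) * (1 - ‖b‖ ^ 2) := by linarith
  rw [mul_pow, mul_pow, hN]
  nlinarith [hkey]

/-- The Möbius map `w ↦ (w + u)/(1 + conj u * w)`. -/
noncomputable def mob (u w : ℂ) : ℂ := (w + u) / (1 + conj u * w)

theorem one_add_pos {u w : ℂ} (hu : ‖u‖ < 1) (hw : ‖w‖ < 1) : 0 < ‖1 + conj u * w‖ := by
  have h := one_sub_pos (a := -u) (b := w) (by rw [norm_neg]; exact hu.le) hw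
  rwa [map_neg, neg_mul, sub_neg_eq_add] at h

theorem norm_mob_lt {u w : ℂ} (hu : ‖u‖ < 1) (hw : ‖w‖ < 1) : ‖mob u w‖ < 1 := by
  have hp := one_add_pos hu hw
  have hid := norm_sq_identity (-u) w
  rw [map_neg, neg_mul, sub_neg_eq_add, norm_neg] at hid
  have e : ‖-u - w‖ = ‖w + u‖ := by
    rw [← norm_neg]; congr 1; ring
  rw [e] at hid
  have hu2 : 0 < 1 - ‖u‖ ^ 2 := by nlinarith [norm_nonneg u]
  have hw2 : 0 < 1 - ‖w‖ ^ 2 := by nlinarith [norm_nonneg w]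
  have hlt : ‖w + u‖ ^ 2 < ‖1 + conj u * w‖ ^ 2 := by nlinarith [mul_pos hu2 hw2]
  unfold mob
  rw [norm_div, div_lt_one hp]
  exact lt_of_pow_lt_pow_left₀ 2 hp.le hlt

theorem differentiableOn_mob {u : ℂ} (hu : ‖u‖ < 1) :
    DifferentiableOn ℂ (mob u) (ball 0 1) := by
  intro w hw
  have hw1 : ‖w‖ < 1 := by simpa using hw
  have hne : 1 + conj u * w ≠ 0 := norm_pos_iff.mp (one_add_pos hu hw1)
  have h1 : DifferentiableAt ℂ (fun w : ℂ => w + u) w := by fun_prop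
  have h2 : DifferentiableAt ℂ (fun w : ℂ => 1 + conj u * w) w := by fun_prop
  exact (h1.div h2 hne).differentiableWithinAt

/-- `mob u ((v - u)/(1 - conj u * v)) = v`, and `‖(v - u)/(1 - conj u * v)‖ = pdist u v`. -/
theorem mob_inverse {u v : ℂ} (hu : ‖u‖ < 1) (hv : ‖v‖ < 1) :
    mob u ((v - u) / (1 - conj u * v)) = v ∧ ‖(v - u) / (1 - conj u * v)‖ = pdist u v := by
  have hne : 1 - conj u * v ≠ 0 := norm_pos_iff.mp (one_sub_pos hu.le hv)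
  have hne2 : 1 - conj u * u ≠ 0 := norm_pos_iff.mp (one_sub_pos hu.le hu)
  constructor
  · have e1 : (v - u) / (1 - conj u * v) + u = v * (1 - conj u * u) / (1 - conj u * v) := by
      rw [eq_div_iff hne, add_mul, div_mul_cancel₀ _ hne]
      ring
    have e2 : 1 + conj u * ((v - u) / (1 - conj u * v)) = (1 - conj u * u) / (1 - conj u * v) := by
      rw [eq_div_iff hne, add_mul, mul_assoc, div_mul_cancel₀ _ hne]
      ring
    unfold mob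
    rw [e1, e2, div_div_div_cancel_right₀ hne, mul_div_assoc, div_self hne2, mul_one]
  · unfold pdist
    rw [norm_div, norm_sub_rev v u]

/-- **Schwarz lemma for a map into a small disc.**  Let `g` be analytic on the unit disc with
`‖g‖ ≤ θ < 1`.  Then `pdist (g 0) (g r) ≤ (2θ/(1+θ²)) r` for `0 ≤ r < 1`.
Proof: `φ z = (g z - g 0)/(1 - conj (g 0) g z)` is analytic on the unit disc, `φ 0 = 0` and
`‖φ z‖ = pdist (g 0) (g z) ≤ 2θ/(1+θ²)` by `pdist_le_of_norm_le`; apply the Schwarz lemma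
(`Complex.dist_le_div_mul_dist_of_mapsTo_ball` with radius `2θ/(1+θ²) + ε` for all `ε > 0`, or its
closed ball version). -/
theorem schwarz_small {θ : ℝ} (hθ0 : 0 ≤ θ) (hθ : θ < 1) {g : ℂ → ℂ}
    (hg : DifferentiableOn ℂ g (ball 0 1)) (hb : ∀ z ∈ ball (0 : ℂ) 1, ‖g z‖ ≤ θ) {r : ℝ}
    (hr0 : 0 ≤ r) (hr : r < 1) :
    pdist (g 0) (g r) ≤ 2 * θ / (1 + θ ^ 2) * r := by
  have h0mem : (0 : ℂ) ∈ ball (0 : ℂ) 1 := by simp
  have hg0 : ‖g 0‖ < 1 := (hb 0 h0mem).trans_lt hθ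
  set c : ℝ := 2 * θ / (1 + θ ^ 2) with hc
  set φ : ℂ → ℂ := fun z => (g z - g 0) / (1 - conj (g 0) * g z) with hφ
  have hne : ∀ z ∈ ball (0 : ℂ) 1, 1 - conj (g 0) * g z ≠ 0 := fun z hz =>
    norm_pos_iff.mp (one_sub_pos hg0.le ((hb z hz).trans_lt hθ))
  have hφd : DifferentiableOn ℂ φ (ball 0 1) := by
    refine DifferentiableOn.div (hg.sub_const _) ?_ hne
    exact (differentiableOn_const _).sub (hg.const_mul _)
  have hφn : ∀ z ∈ ball (0 : ℂ) 1, ‖φ z‖ = pdist (g 0) (g z) := fun z hz =>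
    (mob_inverse hg0 ((hb z hz).trans_lt hθ)).2
  have hφ0 : φ 0 = 0 := by simp [hφ]
  have hrm : ((r : ℝ) : ℂ) ∈ ball (0 : ℂ) 1 := by
    rw [mem_ball_zero_iff, Complex.norm_real, Real.norm_eq_abs, abs_of_nonneg hr0]; exact hr
  have key : ∀ ε > 0, pdist (g 0) (g r) ≤ (c + ε) * r := by
    intro ε hε
    have hmaps : MapsTo φ (ball 0 1) (closedBall (φ 0) (c + ε)) := by
      intro z hz
      rw [hφ0, mem_closedBall_zero_iff, hφn z hz]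
      have := pdist_le_of_norm_le hθ0 hθ (hb 0 h0mem) (hb z hz)
      linarith
    have h := Complex.dist_le_div_mul_dist_of_mapsTo_ball hφd hmaps hrm
    rw [hφ0, dist_zero_right, dist_zero_right, div_one, Complex.norm_real, Real.norm_eq_abs,
      abs_of_nonneg hr0, hφn _ hrm] at h
    exact h
  refine le_of_forall_pos_le_add fun δ hδ => ?_
  have h := key δ hδ
  nlinarith

end Pool.Agent.helper31.EQ
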