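import Pool.Agent.helper31.EQ.SchwarzDisc

/-!
# EQ-S2: fixed points in sequence space (Earle-Hamilton for a polydisc)

`Φ t` maps the closed unit polydisc `{x : ℕ → ℂ | ‖x n‖ ≤ 1}` into the polydisc of radius
`θ < 1` and is analytic along analytic families.  Then it has a unique fixed point, analytic in
the parameter `t`.
-/

namespace Pool.Agent.helper31.EQ

open Set Metric Filter Topology ComplexConjugate

/-- Analytic families are mapped to analytic families. -/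
def HolFamily (T : Set ℂ) (Φ : ℂ → (ℕ → ℂ) → ℕ → ℂ) : Prop :=
  ∀ (O : Set ℂ) (τ : ℂ → ℂ) (x : ℂ → ℕ → ℂ), IsOpen O → DifferentiableOn ℂ τ O →
    MapsTo τ O T → (∀ n, DifferentiableOn ℂ (fun z => x z n) O) →
    (∀ z ∈ O, ∀ n, ‖x z n‖ ≤ 1) → ∀ n, DifferentiableOn ℂ (fun z => Φ (τ z) (x z) n) O

/-- The contraction.  Let `r < 1` bound `pdist (u n) (v n)`, where `‖u n‖, ‖v n‖ ≤ θ`.  If `r = 0`
then `u = v` (every `r > 0` works, let `r → 0`; or treat it separately).  For `r > 0` put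
`w n = (v n - u n)/(1 - conj (u n) (v n))`, `‖w n‖ = pdist ≤ r`, and
`x λ n = mob (u n) (λ w n / r)` for `‖λ‖ < 1`.  Then `x` is an analytic family on the unit disc
with `‖x λ n‖ < 1`, `x 0 = u`, `x r = v`; apply `schwarz_small` to `λ ↦ Φ t (x λ) n`. -/
theorem contraction {T : Set ℂ} {θ : ℝ} (hθ0 : 0 ≤ θ) (hθ : θ < 1)
    {Φ : ℂ → (ℕ → ℂ) → ℕ → ℂ}
    (hmaps : ∀ t ∈ T, ∀ x : ℕ → ℂ, (∀ n, ‖x n‖ ≤ 1) → ∀ n, ‖Φ t x n‖ ≤ θ)
    (hhol : HolFamily T Φ) {t : ℂ} (ht : t ∈ T) {u v : ℕ → ℂ} (hu : ∀ n, ‖u n‖ ≤ θ)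
    (hv : ∀ n, ‖v n‖ ≤ θ) {r : ℝ} (hr0 : 0 ≤ r) (hr : r < 1)
    (h : ∀ n, pdist (u n) (v n) ≤ r) (n : ℕ) :
    pdist (Φ t u n) (Φ t v n) ≤ 2 * θ / (1 + θ ^ 2) * r := by
  rcases hr0.eq_or_lt with hr1 | hr1
  · have e : u = v := by
      funext m
      have h1 := h m
      rw [← hr1] at h1
      have h2 := norm_sub_le_pdist ((hu m).trans hθ.le) (lt_of_le_of_lt (hv m) hθ)
      have h3 : ‖u m - v m‖ ≤ 0 := by linarith
      exact sub_eq_zero.mp (norm_le_zero_iff.mp h3)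
    rw [e, ← hr1, pdist, sub_self, norm_zero, zero_div, mul_zero]
  · have hu1 : ∀ m, ‖u m‖ < 1 := fun m => lt_of_le_of_lt (hu m) hθ
    have hv1 : ∀ m, ‖v m‖ < 1 := fun m => lt_of_le_of_lt (hv m) hθ
    set w : ℕ → ℂ := fun m => (v m - u m) / (1 - conj (u m) * v m) with hw
    have hwn : ∀ m, ‖w m‖ ≤ r := fun m => by
      rw [hw]
      exact (mob_inverse (hu1 m) (hv1 m)).2.le.trans (h m)
    have hin : ∀ z ∈ ball (0 : ℂ) 1, ∀ m, ‖z * (w m / (r : ℂ))‖ < 1 := by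
      intro z hz m
      rw [mem_ball_zero_iff] at hz
      rw [norm_mul, norm_div, Complex.norm_real, Real.norm_of_nonneg hr0]
      have h1 : ‖w m‖ / r ≤ 1 := (div_le_one hr1).mpr (hwn m)
      calc ‖z‖ * (‖w m‖ / r) ≤ ‖z‖ * 1 := mul_le_mul_of_nonneg_left h1 (norm_nonneg z)
        _ = ‖z‖ := mul_one _
        _ < 1 := hz
    set x : ℂ → ℕ → ℂ := fun z m => mob (u m) (z * (w m / (r : ℂ))) with hx
    have hx1 : ∀ z ∈ ball (0 : ℂ) 1, ∀ m, ‖x z m‖ ≤ 1 := fun z hz m =>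
      (norm_mob_lt (hu1 m) (hin z hz m)).le
    have hxd : ∀ m, DifferentiableOn ℂ (fun z => x z m) (ball 0 1) := by
      intro m
      have h1 : DifferentiableOn ℂ (fun z : ℂ => z * (w m / (r : ℂ))) (ball 0 1) :=
        (differentiable_id.mul_const _).differentiableOn
      exact (differentiableOn_mob (hu1 m)).comp h1
        (fun z hz => mem_ball_zero_iff.mpr (hin z hz m))
    have hd := hhol (ball 0 1) (fun _ => t) x isOpen_ball (differentiableOn_const t)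
      (fun _ _ => ht) hxd hx1 n
    have hs := schwarz_small hθ0 hθ hd (fun z hz => hmaps t ht (x z) (hx1 z hz) n) hr0 hr
    have e0 : x 0 = u := by
      funext m
      show mob (u m) (0 * (w m / (r : ℂ))) = u m
      rw [zero_mul, mob, zero_add, mul_zero, add_zero, div_one]
    have er : x (r : ℂ) = v := by
      funext m
      show mob (u m) ((r : ℂ) * (w m / (r : ℂ))) = v m
      have h1 : (r : ℂ) ≠ 0 := by exact_mod_cast hr1.ne'
      rw [mul_div_cancel₀ _ h1]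
      exact (mob_inverse (hu1 m) (hv1 m)).1
    have hs' : pdist (Φ t (x 0) n) (Φ t (x (r : ℂ)) n) ≤ 2 * θ / (1 + θ ^ 2) * r := hs
    rw [e0, er] at hs'
    exact hs'

/-- The contraction constant is less than `1`. -/
private theorem SeqFix_kappa {θ : ℝ} (hθ0 : 0 ≤ θ) (hθ : θ < 1) :
    0 ≤ 2 * θ / (1 + θ ^ 2) ∧ 2 * θ / (1 + θ ^ 2) < 1 := by
  have h1 : 0 < 1 + θ ^ 2 := by positivity
  refine ⟨by positivity, ?_⟩
  rw [div_lt_one h1]
  nlinarith [sq_pos_of_pos (sub_pos.mpr hθ)]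

/-- The iterates. -/
private def SeqFix_it (Φ : ℂ → (ℕ → ℂ) → ℕ → ℂ) : ℕ → ℂ → ℕ → ℂ
  | 0 => fun _ _ => 0
  | (k + 1) => fun t => Φ t (SeqFix_it Φ k t)

/-- **Fixed point theorem.**  Iterate from `x = 0`: `X 0 = 0`, `X (k+1) t = Φ t (X k t)`.  All
`‖X k t n‖ ≤ θ`, each `t ↦ X k t n` is analytic on `T` (`hhol` with `τ = id`), and by `contraction`
`pdist (X (k+1) t n) (X k t n) ≤ κ^k θ` with `κ = 2θ/(1+θ²) < 1`
(note `pdist (X 1 t n) 0 = ‖X 1 t n‖ ≤ θ < 1`), so the iterates are uniformly Cauchy on `T`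
(`norm_sub_le_pdist`) and the limit `X` is analytic (`TendstoLocallyUniformlyOn.differentiableOn`).
It is a fixed point: `pdist (X t n) (X k t n) ≤ C κ^k` uniformly in `n` (`pdist_le_norm_sub`), so
`Φ t (X k t) n → Φ t (X t) n` by `contraction`.  Uniqueness: a fixed point `x` with `‖x n‖ ≤ 1` has
`‖x n‖ = ‖Φ t x n‖ ≤ θ`; with `r = sup pdist (x n) (X t n) ≤ 2θ/(1+θ²) < 1`, `contraction` gives
`r ≤ κ r`, so `r = 0`. -/
theorem seqFix {T : Set ℂ} (hT : IsOpen T) {θ : ℝ} (hθ0 : 0 ≤ θ) (hθ : θ < 1)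
    {Φ : ℂ → (ℕ → ℂ) → ℕ → ℂ}
    (hmaps : ∀ t ∈ T, ∀ x : ℕ → ℂ, (∀ n, ‖x n‖ ≤ 1) → ∀ n, ‖Φ t x n‖ ≤ θ)
    (hhol : HolFamily T Φ) :
    ∃ X : ℂ → ℕ → ℂ, (∀ n, DifferentiableOn ℂ (fun t => X t n) T) ∧
      (∀ t ∈ T, ∀ n, ‖X t n‖ ≤ θ ∧ X t n = Φ t (X t) n) ∧
      (∀ t ∈ T, ∀ x : ℕ → ℂ, (∀ n, ‖x n‖ ≤ 1) → (∀ n, x n = Φ t x n) →
        ∀ n, x n = X t n) := by
  obtain ⟨hκ0, hκ1⟩ := SeqFix_kappa hθ0 hθ
  set κ : ℝ := 2 * θ / (1 + θ ^ 2) with hκ
  set X : ℕ → ℂ → ℕ → ℂ := SeqFix_it Φ with hX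
  have hX0 : ∀ t n, X 0 t n = 0 := fun _ _ => rfl
  have hXs : ∀ k t, X (k + 1) t = Φ t (X k t) := fun _ _ => rfl
  have hXn : ∀ k, ∀ t ∈ T, ∀ n, ‖X k t n‖ ≤ θ := by
    intro k
    induction k with
    | zero =>
      intro t _ n
      rw [hX0, norm_zero]
      exact hθ0
    | succ k ih =>
      intro t ht n
      rw [hXs]
      exact hmaps t ht (X k t) (fun m => (ih t ht m).trans hθ.le) n
  have hXd : ∀ k n, DifferentiableOn ℂ (fun t => X k t n) T := by
    intro k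
    induction k with
    | zero =>
      intro n
      exact differentiableOn_const _
    | succ k ih =>
      intro n
      exact hhol T id (X k) hT differentiableOn_id (fun _ h => h) ih
        (fun z hz m => (hXn k z hz m).trans hθ.le) n
  have hp : ∀ k, ∀ t ∈ T, ∀ n, pdist (X (k + 1) t n) (X k t n) ≤ κ ^ (k + 1) := by
    intro k
    induction k with
    | zero =>
      intro t ht n
      rw [zero_add, pow_one]
      exact pdist_le_of_norm_le hθ0 hθ (hXn 1 t ht n) (hXn 0 t ht n)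
    | succ k ih =>
      intro t ht n
      have h1 := contraction hθ0 hθ hmaps hhol ht (hXn (k + 1) t ht) (hXn k t ht)
        (pow_nonneg hκ0 (k + 1)) (pow_lt_one₀ hκ0 hκ1 (Nat.succ_ne_zero k)) (ih t ht) n
      rw [pow_succ, mul_comm]
      exact h1
  have hdist : ∀ t ∈ T, ∀ n k, dist (X k t n) (X (k + 1) t n) ≤ 2 * κ * κ ^ k := by
    intro t ht n k
    rw [dist_comm, dist_eq_norm]
    have h1 := norm_sub_le_pdist ((hXn (k + 1) t ht n).trans hθ.le)
      (lt_of_le_of_lt (hXn k t ht n) hθ)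
    have h2 := hp k t ht n
    calc ‖X (k + 1) t n - X k t n‖ ≤ 2 * pdist (X (k + 1) t n) (X k t n) := h1
      _ ≤ 2 * κ ^ (k + 1) := by linarith
      _ = 2 * κ * κ ^ k := by ring
  have hlim : ∀ t ∈ T, ∀ n, ∃ a, Tendsto (fun k => X k t n) atTop (𝓝 a) := fun t ht n =>
    cauchySeq_tendsto_of_complete (cauchySeq_of_le_geometric κ (2 * κ) hκ1 (hdist t ht n))
  choose! Y hY using hlim
  have hYX : ∀ t ∈ T, ∀ n k, dist (X k t n) (Y t n) ≤ 2 * κ * κ ^ k / (1 - κ) :=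
    fun t ht n k => dist_le_of_le_geometric_of_tendsto κ (2 * κ) hκ1 (hdist t ht n) (hY t ht n) k
  have hlim0 : Tendsto (fun k : ℕ => 2 * κ * κ ^ k / (1 - κ)) atTop (𝓝 0) := by
    have h1 := ((tendsto_pow_atTop_nhds_zero_of_lt_one hκ0 hκ1).const_mul (2 * κ)).div_const
      (1 - κ)
    rw [mul_zero, zero_div] at h1
    exact h1
  have hYn : ∀ t ∈ T, ∀ n, ‖Y t n‖ ≤ θ := fun t ht n =>
    le_of_tendsto (hY t ht n).norm (Eventually.of_forall (fun k => hXn k t ht n))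
  have hYfix : ∀ t ∈ T, ∀ n, Y t n = Φ t (Y t) n := by
    intro t ht n
    have hθ2 : 0 < 1 - θ ^ 2 := by nlinarith
    set r : ℕ → ℝ := fun k => 2 * κ * κ ^ k / (1 - κ) / (1 - θ ^ 2) with hr
    have hr0 : Tendsto r atTop (𝓝 0) := by
      have h1 := hlim0.div_const (1 - θ ^ 2)
      rw [zero_div] at h1
      exact h1
    have hrnn : ∀ k, 0 ≤ r k := fun k => by
      have h1 : 0 < 1 - κ := sub_pos.mpr hκ1
      rw [hr]
      positivity
    have hev : ∀ᶠ k in atTop, r k < 1 := hr0.eventually (gt_mem_nhds one_pos)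
    have hb : ∀ᶠ k in atTop, dist (X (k + 1) t n) (Φ t (Y t) n) ≤ 2 * (κ * r k) := by
      filter_upwards [hev] with k hk
      have h1 : ∀ m, pdist (Y t m) (X k t m) ≤ r k := by
        intro m
        refine (pdist_le_norm_sub hθ (hYn t ht m) (hXn k t ht m)).trans ?_
        rw [← dist_eq_norm, dist_comm]
        exact div_le_div_of_nonneg_right (hYX t ht m k) hθ2.le
      have h2 := contraction hθ0 hθ hmaps hhol ht (hYn t ht) (hXn k t ht) (hrnn k) hk h1 n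
      have h3 : ‖Φ t (Y t) n‖ ≤ θ := hmaps t ht (Y t) (fun m => (hYn t ht m).trans hθ.le) n
      have h4 := norm_sub_le_pdist (h3.trans hθ.le) (lt_of_le_of_lt (hXn (k + 1) t ht n) hθ)
      rw [dist_comm, dist_eq_norm]
      rw [hXs] at h4 ⊢
      linarith
    have hc : Tendsto (fun k => 2 * (κ * r k)) atTop (𝓝 0) := by
      have h1 := (hr0.const_mul κ).const_mul 2
      rw [mul_zero, mul_zero] at h1
      exact h1
    have hd : Tendsto (fun k => X (k + 1) t n) atTop (𝓝 (Φ t (Y t) n)) := by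
      rw [tendsto_iff_dist_tendsto_zero]
      exact squeeze_zero' (Eventually.of_forall (fun k => dist_nonneg)) hb hc
    exact tendsto_nhds_unique ((tendsto_add_atTop_iff_nat 1).mpr (hY t ht n)) hd
  refine ⟨Y, ?_, fun t ht n => ⟨hYn t ht n, hYfix t ht n⟩, ?_⟩
  · intro n
    have hunif : TendstoUniformlyOn (fun k t => X k t n) (fun t => Y t n) atTop T := by
      rw [Metric.tendstoUniformlyOn_iff]
      intro ε hε
      filter_upwards [hlim0.eventually (gt_mem_nhds hε)] with k hk t ht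
      rw [dist_comm]
      exact lt_of_le_of_lt (hYX t ht n k) hk
    exact hunif.tendstoLocallyUniformlyOn.differentiableOn
      (Eventually.of_forall (fun k => hXd k n)) hT
  · intro t ht x hx1 hxf
    have hxθ : ∀ n, ‖x n‖ ≤ θ := by
      intro n
      rw [hxf n]
      exact hmaps t ht x hx1 n
    have hk : ∀ k n, pdist (x n) (Y t n) ≤ κ ^ (k + 1) := by
      intro k
      induction k with
      | zero =>
        intro n
        rw [zero_add, pow_one]
        exact pdist_le_of_norm_le hθ0 hθ (hxθ n) (hYn t ht n)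
      | succ k ih =>
        intro n
        have h1 := contraction hθ0 hθ hmaps hhol ht hxθ (hYn t ht)
          (pow_nonneg hκ0 (k + 1)) (pow_lt_one₀ hκ0 hκ1 (Nat.succ_ne_zero k)) ih n
        rw [← hxf n, ← hYfix t ht n] at h1
        rw [pow_succ, mul_comm]
        exact h1
    intro n
    have h0 : pdist (x n) (Y t n) ≤ 0 := by
      refine ge_of_tendsto (x := atTop) (f := fun k : ℕ => κ ^ (k + 1)) ?_
        (Eventually.of_forall (fun k => hk k n))
      exact (tendsto_add_atTop_iff_nat 1).mpr (tendsto_pow_atTop_nhds_zero_of_lt_one hκ0 hκ1)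
    have h1 := norm_sub_le_pdist (hx1 n) (lt_of_le_of_lt (hYn t ht n) hθ)
    have h2 : ‖x n - Y t n‖ ≤ 0 := by linarith
    exact sub_eq_zero.mp (norm_le_zero_iff.mp h2)

end Pool.Agent.helper31.EQ
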