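import Pool.Agent.helper31.EQ.SeqFix

/-!
# EQ-F1: fixed points in sequence space, general radii, reality
-/

namespace Pool.Agent.helper31.EQ

open Set Metric Filter Topology ComplexConjugate

/-- Analytic families inside the trap of radii `R t n` are mapped to analytic families. -/
def HolFamilyR (T : Set ℂ) (R : ℂ → ℕ → ℝ) (Φ : ℂ → (ℕ → ℂ) → ℕ → ℂ) : Prop :=
  ∀ (O : Set ℂ) (τ : ℂ → ℂ) (x : ℂ → ℕ → ℂ), IsOpen O → DifferentiableOn ℂ τ O →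
    MapsTo τ O T → (∀ n, DifferentiableOn ℂ (fun z => x z n) O) →
    (∀ z ∈ O, ∀ n, ‖x z n‖ ≤ R (τ z) n) → ∀ n, DifferentiableOn ℂ (fun z => Φ (τ z) (x z) n) O

/-- **Reality.**  If `Φ t` maps real sequences (of the closed unit polydisc) to real sequences,
then every fixed point is real.  Proof: `u 0 = 0`, `u (k+1) = Φ t (u k)`; all `u k` are real with
`‖u k n‖ ≤ θ`, and `pdist (u k n) (x n) ≤ (2θ/(1+θ²))^k * θ` by `contraction` and induction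
(`‖x n‖ = ‖Φ t x n‖ ≤ θ`, `pdist 0 (x n) = ‖x n‖`).  So `u k n → x n` (`norm_sub_le_pdist`) and
`(x n).im = 0`. -/
theorem seqFix_real {T : Set ℂ} {θ : ℝ} (hθ0 : 0 ≤ θ) (hθ : θ < 1)
    {Φ : ℂ → (ℕ → ℂ) → ℕ → ℂ}
    (hmaps : ∀ t ∈ T, ∀ x : ℕ → ℂ, (∀ n, ‖x n‖ ≤ 1) → ∀ n, ‖Φ t x n‖ ≤ θ)
    (hhol : HolFamily T Φ) {t : ℂ} (ht : t ∈ T)
    (hreal : ∀ x : ℕ → ℂ, (∀ n, ‖x n‖ ≤ 1) → (∀ n, (x n).im = 0) → ∀ n, (Φ t x n).im = 0)
    {x : ℕ → ℂ} (hx : ∀ n, ‖x n‖ ≤ 1) (hfix : ∀ n, x n = Φ t x n) : ∀ n, (x n).im = 0 := by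
  have hκ0 : 0 ≤ 2 * θ / (1 + θ ^ 2) := by positivity
  have hκ1 : 2 * θ / (1 + θ ^ 2) < 1 := by
    have h1 : 0 < 1 + θ ^ 2 := by positivity
    rw [div_lt_one h1]
    nlinarith [sq_pos_of_pos (sub_pos.mpr hθ)]
  set κ : ℝ := 2 * θ / (1 + θ ^ 2) with hκ
  let u : ℕ → ℕ → ℂ := fun k => Nat.rec (fun _ => (0 : ℂ)) (fun _ v => Φ t v) k
  have hu0 : ∀ n, u 0 n = 0 := fun _ => rfl
  have hus : ∀ k, u (k + 1) = Φ t (u k) := fun _ => rfl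
  have hun : ∀ k n, ‖u k n‖ ≤ θ := by
    intro k
    induction k with
    | zero =>
      intro n
      rw [hu0, norm_zero]
      exact hθ0
    | succ k ih =>
      intro n
      rw [hus]
      exact hmaps t ht (u k) (fun m => (ih m).trans hθ.le) n
  have hur : ∀ k n, (u k n).im = 0 := by
    intro k
    induction k with
    | zero =>
      intro n
      rw [hu0, Complex.zero_im]
    | succ k ih =>
      intro n
      rw [hus]
      exact hreal (u k) (fun m => (hun k m).trans hθ.le) ih n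
  have hxθ : ∀ n, ‖x n‖ ≤ θ := by
    intro n
    rw [hfix n]
    exact hmaps t ht x hx n
  have hk : ∀ k n, pdist (x n) (u k n) ≤ κ ^ (k + 1) := by
    intro k
    induction k with
    | zero =>
      intro n
      rw [zero_add, pow_one]
      exact pdist_le_of_norm_le hθ0 hθ (hxθ n) (hun 0 n)
    | succ k ih =>
      intro n
      have h1 := contraction hθ0 hθ hmaps hhol ht hxθ (hun k)
        (pow_nonneg hκ0 (k + 1)) (pow_lt_one₀ hκ0 hκ1 (Nat.succ_ne_zero k)) ih n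
      rw [← hfix n, ← hus k] at h1
      rw [pow_succ, mul_comm]
      exact h1
  intro n
  have hb : ∀ k : ℕ, |(x n).im| ≤ 2 * κ ^ (k + 1) := by
    intro k
    have h1 := norm_sub_le_pdist (hx n) (lt_of_le_of_lt (hun k n) hθ)
    have h2 : |(x n - u k n).im| ≤ ‖x n - u k n‖ := Complex.abs_im_le_norm _
    rw [Complex.sub_im, hur k n, sub_zero] at h2
    have h3 := hk k n
    linarith
  have hlim : Tendsto (fun k : ℕ => 2 * κ ^ (k + 1)) atTop (𝓝 0) := by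
    have h1 := ((tendsto_add_atTop_iff_nat 1).mpr
      (tendsto_pow_atTop_nhds_zero_of_lt_one hκ0 hκ1)).const_mul 2
    rw [mul_zero] at h1
    exact h1
  exact abs_nonpos_iff.mp (ge_of_tendsto' hlim hb)

/-- The local solution near a point `s` of `T`. -/
private theorem SeqFixR_local {T : Set ℂ} (hT : IsOpen T) {θ : ℝ} (hθ0 : 0 ≤ θ) (hθ : θ < 1)
    {R : ℂ → ℕ → ℝ} (hR : ∀ t ∈ T, ∀ n, 0 < R t n)
    (hRc : ∀ s ∈ T, ∀ ε > 0, ∀ᶠ t in 𝓝 s, ∀ n,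
      R t n ≤ (1 + ε) * R s n ∧ R s n ≤ (1 + ε) * R t n)
    {Φ : ℂ → (ℕ → ℂ) → ℕ → ℂ}
    (hmaps : ∀ t ∈ T, ∀ x : ℕ → ℂ, (∀ n, ‖x n‖ ≤ R t n) → ∀ n, ‖Φ t x n‖ ≤ θ * R t n)
    (hhol : HolFamilyR T R Φ)
    (hreal : ∀ t : ℝ, (t : ℂ) ∈ T → ∀ x : ℕ → ℂ, (∀ n, ‖x n‖ ≤ R t n) → (∀ n, (x n).im = 0) →
      ∀ n, (Φ t x n).im = 0) {s : ℂ} (hs : s ∈ T) :
    ∃ (T' : Set ℂ) (Y : ℂ → ℕ → ℂ), IsOpen T' ∧ s ∈ T' ∧ T' ⊆ T ∧
      (∀ n, DifferentiableOn ℂ (fun t => Y t n) T') ∧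
      (∀ t ∈ T', ∀ n, ‖Y t n‖ ≤ θ * R t n ∧ Y t n = Φ t (Y t) n) ∧
      (∀ t ∈ T', ∀ x : ℕ → ℂ, (∀ n, ‖x n‖ ≤ R t n) → (∀ n, x n = Φ t x n) →
        ∀ n, x n = Y t n) ∧
      (∀ t : ℝ, (t : ℂ) ∈ T' → ∀ n, (Y t n).im = 0) := by
  set ε : ℝ := (1 - θ) / 4 with hε
  have hε0 : 0 < ε := by
    rw [hε]
    linarith
  have hθ' : θ * (1 + ε) ^ 2 < 1 := by
    have h1 : 0 < 1 - θ := sub_pos.mpr hθ
    have h2 : ε ≤ 1 / 4 := by
      rw [hε]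
      linarith
    have h3 : (1 + ε) ^ 2 ≤ 1 + 3 * ε := by nlinarith
    have h4 : θ * (1 + ε) ^ 2 ≤ θ * (1 + 3 * ε) := mul_le_mul_of_nonneg_left h3 hθ0
    have h5 : θ * (1 + 3 * ε) < 1 := by
      rw [hε]
      nlinarith
    exact lt_of_le_of_lt h4 h5
  have hθ'0 : 0 ≤ θ * (1 + ε) ^ 2 := by positivity
  have h1ε : 0 < 1 + ε := by linarith
  obtain ⟨T', hT'sub, hT'o, hsT'⟩ := _root_.mem_nhds_iff.mp
    (Filter.inter_mem (hRc s hs ε hε0) (hT.mem_nhds hs))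
  have hTT : T' ⊆ T := fun t ht => (hT'sub ht).2
  have hcmp : ∀ t ∈ T', ∀ n, R t n ≤ (1 + ε) * R s n ∧ R s n ≤ (1 + ε) * R t n :=
    fun t ht => (hT'sub ht).1
  set ρ : ℕ → ℝ := fun n => R s n / (1 + ε) with hρ
  have hρ0 : ∀ n, 0 < ρ n := fun n => div_pos (hR s hs n) h1ε
  have hρR : ∀ t ∈ T', ∀ n, ρ n ≤ R t n := by
    intro t ht n
    rw [hρ]
    show R s n / (1 + ε) ≤ R t n
    rw [div_le_iff₀ h1ε, mul_comm]
    exact (hcmp t ht n).2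
  have hRρ : ∀ t ∈ T', ∀ n, R t n ≤ (1 + ε) ^ 2 * ρ n := by
    intro t ht n
    have e : (1 + ε) ^ 2 * ρ n = (1 + ε) * R s n := by
      show (1 + ε) ^ 2 * (R s n / (1 + ε)) = (1 + ε) * R s n
      field_simp
    rw [e]
    exact (hcmp t ht n).1
  have hρne : ∀ n, ((ρ n : ℝ) : ℂ) ≠ 0 := fun n => by exact_mod_cast (hρ0 n).ne'
  have hscale : ∀ (y : ℕ → ℂ), (∀ n, ‖y n‖ ≤ 1) → ∀ n, ‖(ρ n : ℂ) * y n‖ ≤ ρ n := by
    intro y hy n
    rw [norm_mul, Complex.norm_real, Real.norm_of_nonneg (hρ0 n).le]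
    calc ρ n * ‖y n‖ ≤ ρ n * 1 := mul_le_mul_of_nonneg_left (hy n) (hρ0 n).le
      _ = ρ n := mul_one _
  set Ψ : ℂ → (ℕ → ℂ) → ℕ → ℂ := fun t y n => Φ t (fun k => (ρ k : ℂ) * y k) n / (ρ n : ℂ) with hΨ
  have hΨmaps : ∀ t ∈ T', ∀ y : ℕ → ℂ, (∀ n, ‖y n‖ ≤ 1) → ∀ n, ‖Ψ t y n‖ ≤ θ * (1 + ε) ^ 2 := by
    intro t ht y hy n
    have h1 := hmaps t (hTT ht) (fun k => (ρ k : ℂ) * y k)
      (fun k => (hscale y hy k).trans (hρR t ht k)) n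
    show ‖Φ t (fun k => (ρ k : ℂ) * y k) n / (ρ n : ℂ)‖ ≤ θ * (1 + ε) ^ 2
    rw [norm_div, Complex.norm_real, Real.norm_of_nonneg (hρ0 n).le, div_le_iff₀ (hρ0 n)]
    calc ‖Φ t (fun k => (ρ k : ℂ) * y k) n‖ ≤ θ * R t n := h1
      _ ≤ θ * ((1 + ε) ^ 2 * ρ n) := mul_le_mul_of_nonneg_left (hRρ t ht n) hθ0
      _ = θ * (1 + ε) ^ 2 * ρ n := by ring
  have hΨhol : HolFamily T' Ψ := by
    intro O τ x hO hτ hτm hxd hx1 n
    have h1 := hhol O τ (fun z k => (ρ k : ℂ) * x z k) hO hτ (fun z hz => hTT (hτm hz))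
      (fun k => (hxd k).const_mul _)
      (fun z hz k => (hscale (x z) (hx1 z hz) k).trans (hρR (τ z) (hτm hz) k)) n
    exact h1.div_const _
  obtain ⟨Z, hZd, hZf, hZu⟩ := seqFix hT'o hθ'0 hθ' hΨmaps hΨhol
  have hZ1 : ∀ t ∈ T', ∀ n, ‖Z t n‖ ≤ 1 := fun t ht n => ((hZf t ht n).1).trans hθ'.le
  have hYfix : ∀ t ∈ T', ∀ n, (ρ n : ℂ) * Z t n = Φ t (fun k => (ρ k : ℂ) * Z t k) n := by
    intro t ht n
    have h1 : Z t n = Φ t (fun k => (ρ k : ℂ) * Z t k) n / (ρ n : ℂ) := (hZf t ht n).2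
    have h2 : (ρ n : ℂ) * (Φ t (fun k => (ρ k : ℂ) * Z t k) n / (ρ n : ℂ))
        = Φ t (fun k => (ρ k : ℂ) * Z t k) n := mul_div_cancel₀ _ (hρne n)
    rw [← h1] at h2
    exact h2
  refine ⟨T', fun t n => (ρ n : ℂ) * Z t n, hT'o, hsT', hTT, fun n => (hZd n).const_mul _,
    ?_, ?_, ?_⟩
  · intro t ht n
    refine ⟨?_, hYfix t ht n⟩
    show ‖(ρ n : ℂ) * Z t n‖ ≤ θ * R t n
    rw [hYfix t ht n]
    exact hmaps t (hTT ht) (fun k => (ρ k : ℂ) * Z t k)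
      (fun k => (hscale (Z t) (hZ1 t ht) k).trans (hρR t ht k)) n
  · intro t ht x hx hxf n
    have hxρ : ∀ m, ‖x m‖ ≤ ρ m := by
      intro m
      have h1 : ‖x m‖ ≤ θ * R t m := by
        rw [hxf m]
        exact hmaps t (hTT ht) x hx m
      calc ‖x m‖ ≤ θ * R t m := h1
        _ ≤ θ * ((1 + ε) ^ 2 * ρ m) := mul_le_mul_of_nonneg_left (hRρ t ht m) hθ0
        _ = θ * (1 + ε) ^ 2 * ρ m := by ring
        _ ≤ 1 * ρ m := mul_le_mul_of_nonneg_right hθ'.le (hρ0 m).le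
        _ = ρ m := one_mul _
    have e : (fun k => (ρ k : ℂ) * (x k / (ρ k : ℂ))) = x := by
      funext k
      exact mul_div_cancel₀ _ (hρne k)
    have h1 := hZu t ht (fun k => x k / (ρ k : ℂ)) (fun m => by
      show ‖x m / (ρ m : ℂ)‖ ≤ 1
      rw [norm_div, Complex.norm_real, Real.norm_of_nonneg (hρ0 m).le]
      exact (div_le_one (hρ0 m)).mpr (hxρ m)) (fun m => by
      show x m / (ρ m : ℂ) = Φ t (fun k => (ρ k : ℂ) * (x k / (ρ k : ℂ))) m / (ρ m : ℂ)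
      rw [e, ← hxf m]) n
    show x n = (ρ n : ℂ) * Z t n
    have h2 : x n / (ρ n : ℂ) = Z t n := h1
    rw [← h2, mul_div_cancel₀ _ (hρne n)]
  · intro t ht n
    have h1 : (Z t n).im = 0 := seqFix_real hθ'0 hθ' hΨmaps hΨhol ht (fun y hy hyr m => by
      show (Φ t (fun k => (ρ k : ℂ) * y k) m / (ρ m : ℂ)).im = 0
      have h2 := hreal t (hTT ht) (fun k => (ρ k : ℂ) * y k)
        (fun k => (hscale y hy k).trans (hρR t ht k)) (fun k => by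
          show ((ρ k : ℂ) * y k).im = 0
          rw [Complex.im_ofReal_mul, hyr k, mul_zero]) m
      rw [Complex.div_ofReal_im, h2, zero_div]) (hZ1 t ht) (fun m => (hZf t ht m).2) n
    show ((ρ n : ℂ) * Z t n).im = 0
    rw [Complex.im_ofReal_mul, h1, mul_zero]

/-- **Fixed point theorem with radii.**  The radii `R t n > 0` are real functions which are locally
comparable, uniformly in `n`.
Proof.  Fix `s ∈ T` and `ε > 0` with `θ (1+ε)² < 1`, and a neighbourhood `T' ⊆ T` of `s` (open) on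
which `R t n ≤ (1+ε) R s n` and `R s n ≤ (1+ε) R t n` for all `n`.  Put `ρ n = R s n/(1+ε)`, so
`ρ n ≤ R t n ≤ (1+ε)² ρ n` on `T'`.  The map `Ψ t y n = Φ t (fun k => ρ k * y k) n / ρ n` satisfies
the hypotheses of `seqFix` on `T'` with `θ' = θ (1+ε)²`.  Its fixed points `y` are, via
`x n = ρ n * y n`, exactly the fixed points `x` of `Φ t` with `‖x n‖ ≤ R t n` (such an `x` has
`‖x n‖ ≤ θ R t n ≤ θ' ρ n ≤ ρ n`; conversely `‖x n‖ ≤ ρ n ≤ R t n`).  So for every `t ∈ T` there is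
exactly one fixed point in the trap (take `s = t`); choose it as `X t`; near every `s` it agrees
with the analytic local solution.  Reality is `seqFix_real` for `Ψ` (with `T' = {t}` or the same
`T'`). -/
theorem seqFixR {T : Set ℂ} (hT : IsOpen T) {θ : ℝ} (hθ0 : 0 ≤ θ) (hθ : θ < 1)
    {R : ℂ → ℕ → ℝ} (hR : ∀ t ∈ T, ∀ n, 0 < R t n)
    (hRc : ∀ s ∈ T, ∀ ε > 0, ∀ᶠ t in 𝓝 s, ∀ n,
      R t n ≤ (1 + ε) * R s n ∧ R s n ≤ (1 + ε) * R t n)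
    {Φ : ℂ → (ℕ → ℂ) → ℕ → ℂ}
    (hmaps : ∀ t ∈ T, ∀ x : ℕ → ℂ, (∀ n, ‖x n‖ ≤ R t n) → ∀ n, ‖Φ t x n‖ ≤ θ * R t n)
    (hhol : HolFamilyR T R Φ)
    (hreal : ∀ t : ℝ, (t : ℂ) ∈ T → ∀ x : ℕ → ℂ, (∀ n, ‖x n‖ ≤ R t n) → (∀ n, (x n).im = 0) →
      ∀ n, (Φ t x n).im = 0) :
    ∃ X : ℂ → ℕ → ℂ, (∀ n, DifferentiableOn ℂ (fun t => X t n) T) ∧
      (∀ t ∈ T, ∀ n, ‖X t n‖ ≤ θ * R t n ∧ X t n = Φ t (X t) n) ∧
      (∀ t : ℝ, (t : ℂ) ∈ T → ∀ n, (X t n).im = 0) := by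
  choose! T' Y hTo hsT hTT hYd hYf hYu hYr using fun s hs =>
    SeqFixR_local hT hθ0 hθ hR hRc hmaps hhol hreal (s := s) hs
  have hloc : ∀ s ∈ T, ∀ t ∈ T' s, ∀ n, Y t t n = Y s t n := by
    intro s hs t ht n
    have htT : t ∈ T := hTT s hs ht
    refine hYu s hs t ht (Y t t) (fun m => ?_) (fun m => (hYf t htT t (hsT t htT) m).2) n
    refine ((hYf t htT t (hsT t htT) m).1).trans ?_
    have h1 : θ * R t m ≤ 1 * R t m := mul_le_mul_of_nonneg_right hθ.le (hR t htT m).le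
    rwa [one_mul] at h1
  refine ⟨fun t n => Y t t n, ?_, fun t ht n => hYf t ht t (hsT t ht) n,
    fun t ht n => hYr t ht t (hsT t ht) n⟩
  intro n s hs
  have h1 : DifferentiableOn ℂ (fun t => Y t t n) (T' s) :=
    (hYd s hs n).congr (fun t ht => hloc s hs t ht n)
  exact (h1.differentiableAt ((hTo s hs).mem_nhds (hsT s hs))).differentiableWithinAt

end Pool.Agent.helper31.EQ
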