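import Pool.Agent.helper31.EQ.SeqFixR
import Pool.Agent.helper31.EQ.BodyEnd

/-!
# EQ-F2: the general interface (sequence form)

More general than `TrapData`: any sequence of unknowns, radii depending on the start and on the
index, conditions only on whole sequences.  A construction of a `SeqTrap e m` for all `e > 1`,
`m > 1` (not trivially excluded) gives the theorem.
-/

namespace Pool.Agent.helper31.EQ

open Set Metric Filter Topology ComplexConjugate

structure SeqTrap (e m : ℝ) where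
  θ : ℝ
  hθ0 : 0 ≤ θ
  hθ1 : θ < 1
  /-- starts (any coordinate) -/
  D : Set ℂ
  isOpen_D : IsOpen D
  /-- radii of the trap -/
  R : ℂ → ℕ → ℝ
  R_pos : ∀ p ∈ D, ∀ n, 0 < R p n
  R_cont : ∀ s ∈ D, ∀ ε > 0, ∀ᶠ t in 𝓝 s, ∀ n,
    R t n ≤ (1 + ε) * R s n ∧ R s n ≤ (1 + ε) * R t n
  /-- the sequence map -/
  Φ : ℂ → (ℕ → ℂ) → ℕ → ℂ
  maps : ∀ p ∈ D, ∀ x : ℕ → ℂ, (∀ n, ‖x n‖ ≤ R p n) → ∀ n, ‖Φ p x n‖ ≤ θ * R p n
  hol : HolFamilyR D R Φ
  real : ∀ p : ℝ, (p : ℂ) ∈ D → ∀ x : ℕ → ℂ, (∀ n, ‖x n‖ ≤ R p n) → (∀ n, (x n).im = 0) →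
    ∀ n, (Φ p x n).im = 0
  /-- the slope of a real start -/
  tr : ℝ → ℝ
  /-- the slopes of the nodes for a real start and a real fixed sequence -/
  s : ℝ → (ℕ → ℂ) → ℕ → ℝ
  orbit : ∀ p : ℝ, (p : ℂ) ∈ D → ∀ x : ℕ → ℂ, (∀ n, ‖x n‖ ≤ R p n) → (∀ n, (x n).im = 0) →
    (∀ n, x n = Φ p x n) →
    s p x 0 = tr p ∧ (∀ n, s p x n < s p x (n + 1)) ∧
    (∀ n, (s p x (n + 1) - s p x n) ^ (-e) + (s p x (n + 2) - s p x (n + 1)) ^ (-e) =
      FF e m (s p x (n + 1))) ∧
    Tendsto (s p x) atTop atTop ∧ Tendsto (fun n => s p x (n + 1) / s p x n) atTop (𝓝 m)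
  /-- the value `V_+ / F` at node `0` -/
  H : ℂ → (ℕ → ℂ) → ℂ
  hol_H : ∀ (x : ℂ → ℕ → ℂ), (∀ n, DifferentiableOn ℂ (fun z => x z n) D) →
    (∀ z ∈ D, ∀ n, ‖x z n‖ ≤ R z n) → DifferentiableOn ℂ (fun z => H z (x z)) D
  H_real : ∀ p : ℝ, (p : ℂ) ∈ D → ∀ x : ℕ → ℂ, (∀ n, ‖x n‖ ≤ R p n) → (∀ n, (x n).im = 0) →
    (∀ n, x n = Φ p x n) →
    H p x = (((s p x 1 - s p x 0) ^ (-e) / FF e m (s p x 0) : ℝ) : ℂ)
  /-- the mirror -/
  η : ℝ
  hη : 0 < η
  seg : ∀ y : ℝ, |y| ≤ η → ((y : ℂ) * Complex.I) ∈ D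
  δ : ℝ
  hδ : 0 < δ
  odd : ∀ p : ℝ, |p| < δ → tr (-p) = -tr p
  test : ∀ x : ℕ → ℂ, (∀ n, ‖x n‖ ≤ R ((η : ℂ) * Complex.I) n) →
    (∀ n, x n = Φ ((η : ℂ) * Complex.I) x n) → (H ((η : ℂ) * Complex.I) x).re ≠ 1 / 2

/-- limit of `f` along a sequence of nodes -/
private theorem SeqTrap_flim {e m : ℝ} (he : 1 < e) (hm : 1 < m) {t u : ℕ → ℝ}
    (ht : Tendsto t atTop atTop) (hu : Tendsto u atTop (𝓝 (m⁻¹)))
    (hlt : ∀ᶠ n in atTop, u n < 1) :
    Tendsto (fun n => (t n - u n * t n) ^ (-e) / FF e m (t n)) atTop (𝓝 (finf e m)) := by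
  have hm0 : 0 < m := by linarith
  have hm1 : 0 < m - 1 := by linarith
  have h3 : Tendsto (fun n => 1 - u n) atTop (𝓝 (1 - m⁻¹)) := hu.const_sub 1
  have hpos : 0 < 1 - m⁻¹ := by
    rw [sub_pos]; exact inv_lt_one_of_one_lt₀ hm
  have h4 : Tendsto (fun n => (1 - u n) ^ (-e)) atTop (𝓝 ((1 - m⁻¹) ^ (-e))) :=
    h3.rpow_const (Or.inl hpos.ne')
  have h5 : Tendsto (fun n => (t n ^ 2)⁻¹) atTop (𝓝 0) :=
    ((tendsto_pow_atTop (two_ne_zero)).comp ht).inv_tendsto_atTop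
  have h6 : Tendsto (fun n => (1 + (t n ^ 2)⁻¹) ^ (-e / 2)) atTop
      (𝓝 ((1 + 0) ^ (-e / 2))) :=
    (h5.const_add 1).rpow_const (Or.inl (by norm_num))
  rw [add_zero, Real.one_rpow] at h6
  have hCC := CC_pos (e := e) hm
  have h7 := h4.div (h6.const_mul (CC e m)) (by rw [mul_one]; exact hCC.ne')
  have hval : (1 - m⁻¹) ^ (-e) / (CC e m * 1) = finf e m := by
    have e1 : (1 - m⁻¹) = (m - 1) / m := by field_simp
    have hme : 0 < m ^ e := Real.rpow_pos_of_pos hm0 e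
    have hme1 : 0 < (m - 1) ^ e := Real.rpow_pos_of_pos hm1 e
    rw [mul_one, e1, Real.rpow_neg (div_nonneg hm1.le hm0.le), Real.div_rpow hm1.le hm0.le, CC,
      finf]
    have h8 : (0 : ℝ) < 1 + m ^ e := by positivity
    field_simp
  rw [hval] at h7
  refine h7.congr' ?_
  filter_upwards [ht.eventually_gt_atTop 0, hlt] with n htn hun
  have hu1 : 0 < 1 - u n := by linarith
  have e2 : t n - u n * t n = t n * (1 - u n) := by ring
  have e3 : 1 + t n ^ 2 = t n ^ 2 * (1 + (t n ^ 2)⁻¹) := by field_simp; ring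
  have e4 : (t n ^ 2 : ℝ) ^ (-e / 2) = t n ^ (-e) := by
    rw [← Real.rpow_natCast (t n) 2, ← Real.rpow_mul htn.le]
    congr 1
    push_cast
    ring
  have hte : 0 < t n ^ (-e) := Real.rpow_pos_of_pos htn _
  have hv : (0 : ℝ) < 1 + (t n ^ 2)⁻¹ := by positivity
  have hve : 0 < (1 + (t n ^ 2)⁻¹) ^ (-e / 2) := Real.rpow_pos_of_pos hv _
  simp only [Pi.div_apply, FF]
  rw [e3, Real.mul_rpow (by positivity) hv.le, e4, e2, Real.mul_rpow htn.le hu1.le]
  have hne := hte.ne'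
  have hne2 := hve.ne'
  have hne3 := hCC.ne'
  generalize (1 - u n) ^ (-e) = A
  generalize (1 + (t n ^ 2)⁻¹) ^ (-e / 2) = B at *
  generalize t n ^ (-e) = D at *
  field_simp

/-- A real sequence with the node relation that tends to infinity with ratio `m` is an orbit of
`g` from some index on. -/
private theorem SeqTrap_tail {e m : ℝ} (he : 1 < e) (hm : 1 < m) {g h : ℝ ≃o ℝ}
    (hc : ChordPair e m g h) {s : ℕ → ℝ} (hlt : ∀ n, s n < s (n + 1))
    (hlaw : ∀ n, (s (n + 1) - s n) ^ (-e) + (s (n + 2) - s (n + 1)) ^ (-e) =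
      FF e m (s (n + 1)))
    (hs : Tendsto s atTop atTop) (hr : Tendsto (fun n => s (n + 1) / s n) atTop (𝓝 m)) :
    ∀ᶠ n in atTop, g (s n) = s (n + 1) := by
  have hm0 : 0 < m := by linarith
  obtain ⟨ε₀, hε₀, T₀, hT₀, hU⟩ := orb_unique he hm
  have ev : ∀ k₁ k₂ : ℝ ≃o ℝ, ChordPair e m k₁ k₂ →
      ∀ᶠ t in atTop, |fval e m k₁ t - finf e m| ≤ ε₀ := by
    intro k₁ k₂ hk
    filter_upwards [(Metric.tendsto_nhds.1 (hk.tendsto_fval he hm)) ε₀ hε₀] with t ht
    rw [Real.dist_eq] at ht; exact ht.le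
  obtain ⟨T₁, hT₁⟩ := eventually_atTop.1 ((ev g h hc).and (ev h g hc.swap))
  have hs1 : Tendsto (fun n => s (n + 1)) atTop atTop := (tendsto_add_atTop_iff_nat 1).2 hs
  have hpos : ∀ᶠ n in atTop, 0 < s n := hs.eventually_gt_atTop 0
  have hpos1 : ∀ᶠ n in atTop, 0 < s (n + 1) := hs1.eventually_gt_atTop 0
  have hu : Tendsto (fun n => s n / s (n + 1)) atTop (𝓝 (m⁻¹)) := by
    refine (hr.inv₀ hm0.ne').congr fun n => ?_
    rw [inv_div]
  have hu1 : ∀ᶠ n in atTop, s n / s (n + 1) < 1 := by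
    filter_upwards [hpos1] with n hn
    rw [div_lt_one hn]; exact hlt n
  have hfl : Tendsto (fun n => (s (n + 1) - s n) ^ (-e) / FF e m (s (n + 1))) atTop
      (𝓝 (finf e m)) := by
    refine (SeqTrap_flim he hm hs1 hu hu1).congr' ?_
    filter_upwards [hpos1] with n hn
    rw [div_mul_cancel₀ _ hn.ne']
  have hfe : ∀ᶠ n in atTop,
      |(s (n + 1) - s n) ^ (-e) / FF e m (s (n + 1)) - finf e m| ≤ ε₀ := by
    filter_upwards [(Metric.tendsto_nhds.1 hfl) ε₀ hε₀] with t ht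
    rw [Real.dist_eq] at ht; exact ht.le
  obtain ⟨M₀, hM₀⟩ := eventually_atTop.1 (hfe.and (hs.eventually_ge_atTop (max T₀ T₁)))
  have key : ∀ M, M₀ ≤ M → g (s (M + 1)) = s (M + 2) := by
    intro M hM
    have hT : ∀ k, max T₀ T₁ ≤ s (M + 1 + k) := fun k => (hM₀ _ (by omega)).2
    have horb : IsOrb e m (fun k => s (M + 1 + k))
        (fun k => (s (M + k + 1) - s (M + k)) ^ (-e) / FF e m (s (M + k + 1))) := by
      refine ⟨fun k => ?_, fun k => ?_, fun k => ?_, fun k => ?_, fun k => ?_⟩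
      · exact hT₀.trans_le ((le_max_left _ _).trans (hT k))
      · exact hlt _
      · refine div_pos (Real.rpow_pos_of_pos ?_ _) (FF_pos hm _)
        have := hlt (M + k)
        linarith
      · have hF := FF_pos (e := e) hm (s (M + (k + 1) + 1))
        show (s (M + 1 + (k + 1)) - s (M + 1 + k)) ^ (-e) = FF e m (s (M + 1 + (k + 1))) *
          ((s (M + (k + 1) + 1) - s (M + (k + 1))) ^ (-e) / FF e m (s (M + (k + 1) + 1)))
        have i1 : M + 1 + (k + 1) = M + (k + 1) + 1 := by omega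
        have i2 : M + 1 + k = M + (k + 1) := by omega
        rw [i1, i2, mul_div_cancel₀ _ hF.ne']
      · have hF := FF_pos (e := e) hm (s (M + k + 1))
        have hl := hlaw (M + k)
        show (s (M + 1 + (k + 1)) - s (M + 1 + k)) ^ (-e) = FF e m (s (M + 1 + k)) *
          (1 - (s (M + k + 1) - s (M + k)) ^ (-e) / FF e m (s (M + k + 1)))
        have i1 : M + 1 + (k + 1) = M + k + 2 := by omega
        have i2 : M + 1 + k = M + k + 1 := by omega
        rw [i1, i2, mul_sub, mul_one, mul_div_cancel₀ _ hF.ne']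
        linarith
    have ht0 : T₀ ≤ s (M + 1) := (le_max_left _ _).trans (hT 0)
    have ht1 : T₁ ≤ s (M + 1) := (le_max_right _ _).trans (hT 0)
    have horb' := hc.isOrb he hm (t := s (M + 1)) (hT₀.trans_le ht0)
    have hge : ∀ n, s (M + 1) ≤ orb g h (s (M + 1)) n := by
      intro n
      induction n with
      | zero => exact le_refl _
      | succ n ih => exact ih.trans (horb'.lt n).le
    have := hU _ _ _ _ horb horb' (fun n => (le_max_left _ _).trans (hT n))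
      (fun n => ht0.trans (hge n)) (fun n => ?_) (fun n => ?_) rfl 1
    · exact this.symm
    · exact (hM₀ (M + n) (by omega)).1
    · unfold orbf
      split_ifs
      · exact (hT₁ _ (ht1.trans (hge n))).2
      · exact (hT₁ _ (ht1.trans (hge n))).1
  refine eventually_atTop.2 ⟨M₀ + 1, fun n hn => ?_⟩
  obtain ⟨M, rfl⟩ : ∃ M, n = M + 1 := ⟨n - 1, by omega⟩
  exact key M (by omega)

/-- The downward part. -/
private theorem SeqTrap_down {e m : ℝ} (he : 1 < e) (hm : 1 < m) {g h : ℝ ≃o ℝ}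
    (hc : ChordPair e m g h) {s : ℕ → ℝ} (hlt : ∀ n, s n < s (n + 1))
    (hlaw : ∀ n, (s (n + 1) - s n) ^ (-e) + (s (n + 2) - s (n + 1)) ^ (-e) =
      FF e m (s (n + 1))) {n : ℕ} (hn : g (s (n + 1)) = s (n + 2)) : g (s n) = s (n + 1) := by
  obtain ⟨hs1, hs2, hs3⟩ := hc.symmetric he hm
  have r := hc.rel_g (s (n + 1))
  have hl := hlaw n
  rw [hn] at r
  have hsy : h.symm (s (n + 1)) = g.symm (s (n + 1)) := by rw [hs3, hs2]
  rw [hsy] at r
  have e1 : (s (n + 1) - g.symm (s (n + 1))) ^ (-e) = (s (n + 1) - s n) ^ (-e) := by linarith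
  have p1 : 0 ≤ s (n + 1) - s n := by have := hlt n; linarith
  have p2 : 0 ≤ s (n + 1) - g.symm (s (n + 1)) := by
    have := hc.gt_g (g.symm (s (n + 1)))
    rw [OrderIso.apply_symm_apply] at this; linarith
  have e2 := Real.rpow_left_injOn (x := -e) (by linarith : -e ≠ 0) p2 p1 e1
  have e3 : g.symm (s (n + 1)) = s n := by linarith
  calc g (s n) = g (g.symm (s (n + 1))) := by rw [e3]
    _ = s (n + 1) := by rw [OrderIso.apply_symm_apply]

/-- A real sequence with the node relation that tends to infinity with ratio `m` is an orbit of `g`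
(this is the argument of `TR_tail`, `TR_down` and the end of `TrapData.real_orbit` in
`TrapReal.lean`: copy it; the private lemmas there can be copied literally). -/
theorem orbit_eq {e m : ℝ} (he : 1 < e) (hm : 1 < m) {g h : ℝ ≃o ℝ}
    (hc : ChordPair e m g h) {s : ℕ → ℝ} (hlt : ∀ n, s n < s (n + 1))
    (hlaw : ∀ n, (s (n + 1) - s n) ^ (-e) + (s (n + 2) - s (n + 1)) ^ (-e) =
      FF e m (s (n + 1)))
    (hs : Tendsto s atTop atTop) (hr : Tendsto (fun n => s (n + 1) / s n) atTop (𝓝 m)) :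
    g (s 0) = s 1 := by
  obtain ⟨N, hN⟩ := eventually_atTop.1 (SeqTrap_tail he hm hc hlt hlaw hs hr)
  have hall : ∀ k, k ≤ N → g (s (N - k)) = s (N - k + 1) := by
    intro k
    induction k with
    | zero => intro _; exact hN _ (by omega)
    | succ k ih =>
      intro hk
      have h1 := ih (by omega)
      have i1 : N - k = N - (k + 1) + 1 := by omega
      rw [i1] at h1
      exact SeqTrap_down he hm hc hlt hlaw h1
  have h0 := hall N le_rfl
  rw [Nat.sub_self] at h0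
  exact h0

/-- **Main interface theorem, sequence form.**  As `TrapData.false` (TrapFalse.lean): `X` from
`seqFixR`, `H₁ p = H p (X p)`, on reals `H₁ p = (g t - t)^(-e)/F(t)` with `t = tr p` by `orbit`,
`orbit_eq`, `H_real`; `re_eq_half` contradicts `test`. -/
theorem SeqTrap.false {e m : ℝ} (he : 1 < e) (hm : 1 < m) (D : SeqTrap e m)
    {g h : ℝ ≃o ℝ} (hc : ChordPair e m g h) : False := by
  obtain ⟨X, hXd, hXf, hXr⟩ := seqFixR D.isOpen_D D.hθ0 D.hθ1 D.R_pos D.R_cont D.maps D.hol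
    D.real
  set H : ℂ → ℂ := fun p => D.H p (X p) with hH
  have hX1 : ∀ p ∈ D.D, ∀ n, ‖X p n‖ ≤ D.R p n := fun p hp n =>
    ((hXf p hp n).1).trans (by
      have h1 := D.R_pos p hp n
      have h2 := D.hθ1
      nlinarith)
  have hHd : DifferentiableOn ℂ H D.D := D.hol_H X hXd hX1
  have h0 : (0 : ℂ) ∈ D.D := by
    have := D.seg 0 (by rw [abs_zero]; exact D.hη.le)
    simpa using this
  obtain ⟨r, hr, hrD⟩ := Metric.isOpen_iff.1 D.isOpen_D 0 h0
  have hmem : ∀ p : ℝ, |p| < min D.δ r → (p : ℂ) ∈ D.D := by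
    intro p hp
    apply hrD
    rw [mem_ball, dist_zero_right, Complex.norm_real, Real.norm_eq_abs]
    exact hp.trans_le (min_le_right _ _)
  have hval : ∀ p : ℝ, |p| < min D.δ r →
      H p = (((g (D.tr p) - D.tr p) ^ (-e) / FF e m (D.tr p) : ℝ) : ℂ) := by
    intro p hp
    have hpD := hmem p hp
    obtain ⟨o0, o1, o2, o3, o4⟩ := D.orbit p hpD (X p) (hX1 _ hpD) (hXr p hpD)
      (fun n => (hXf _ hpD n).2)
    have h3 := D.H_real p hpD (X p) (hX1 _ hpD) (hXr p hpD) (fun n => (hXf _ hpD n).2)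
    have h4 := orbit_eq he hm hc o1 o2 o3 o4
    rw [← h4, o0] at h3
    exact h3
  have hhalf := Pool.Agent.helper31.EQ.re_eq_half D.isOpen_D D.hη D.seg hHd
    (lt_min D.hδ hr) (fun t ht => by rw [hval t ht, Complex.ofReal_im]) (fun t ht => by
      have h5 := hval t ht
      have h6 := hval (-t) (by rwa [abs_neg])
      rw [Complex.ofReal_neg] at h6
      rw [D.odd t (ht.trans_le (min_le_left _ _))] at h6
      have h7 := hc.add_neg he hm (D.tr t)
      rw [h5, h6, ← Complex.ofReal_add, sub_neg_eq_add, h7, Complex.ofReal_one])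
  have hseg := D.seg D.η (by rw [abs_of_pos D.hη])
  exact D.test (X ((D.η : ℂ) * Complex.I)) (hX1 _ hseg) (fun n => (hXf _ hseg n).2) hhalf

end Pool.Agent.helper31.EQ
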