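import Pool.Agent.helper31.EQ.Defs

/-!
# EQ-I1: star bodies, the radial function off the unit sphere

`radial M x = sSup {t ≥ 0 : t • x ∈ M}` is used for all `x ≠ 0`.  `M` is a star body: compact,
`StarConvex ℝ 0 M`, radial function positive and continuous on the unit sphere.
-/

namespace Pool.Agent.helper31.EQ

open Set Metric Filter Topology

variable {E : Type*} [NormedAddCommGroup E] [NormedSpace ℝ E]

open scoped Pointwise in
/-- Homogeneity: the set `{t ≥ 0 : t • (c • x) ∈ M}` is `{s / c : s ≥ 0, s • x ∈ M}`. -/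
theorem radial_smul (M : Set E) (x : E) {c : ℝ} (hc : 0 < c) :
    radial M (c • x) = radial M x / c := by
  unfold radial
  have h : {t : ℝ | 0 ≤ t ∧ t • (c • x) ∈ M} = c⁻¹ • {t : ℝ | 0 ≤ t ∧ t • x ∈ M} := by
    ext t
    rw [Set.mem_smul_set_iff_inv_smul_mem₀ (inv_ne_zero hc.ne')]
    simp only [Set.mem_setOf_eq, inv_inv, smul_eq_mul]
    constructor
    · rintro ⟨h0, h1⟩
      refine ⟨mul_nonneg hc.le h0, ?_⟩
      rw [mul_comm, ← smul_smul]
      exact h1
    · rintro ⟨h0, h1⟩
      refine ⟨?_, ?_⟩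
      · exact nonneg_of_mul_nonneg_right h0 hc
      · rw [smul_smul, mul_comm]
        exact h1
  rw [h, Real.sSup_smul_of_nonneg (inv_nonneg.2 hc.le), smul_eq_mul, div_eq_inv_mul]

private theorem norm_unit {x : E} (hx : x ≠ 0) : ‖‖x‖⁻¹ • x‖ = 1 := by
  rw [norm_smul, norm_inv, norm_norm, inv_mul_cancel₀ (norm_ne_zero_iff.2 hx)]

private theorem radial_eq_unit (M : Set E) {x : E} (hx : x ≠ 0) :
    radial M x = radial M (‖x‖⁻¹ • x) * ‖x‖⁻¹ := by
  have hpos : 0 < ‖x‖⁻¹ := inv_pos.2 (norm_pos_iff.2 hx)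
  rw [radial_smul M x hpos, div_mul_cancel₀ _ hpos.ne']

private theorem zero_mem {M : Set E} (hM : IsStarBody M) {x : E} (hx : x ≠ 0) : (0 : E) ∈ M := by
  have h1 := hM.2.2.1 (‖x‖⁻¹ • x) (norm_unit hx)
  have h2 : ({t : ℝ | 0 ≤ t ∧ t • (‖x‖⁻¹ • x) ∈ M}).Nonempty := by
    by_contra h
    rw [Set.not_nonempty_iff_eq_empty] at h
    unfold radial at h1
    rw [h, Real.sSup_empty] at h1
    exact lt_irrefl _ h1
  obtain ⟨t, -, ht⟩ := h2
  have h3 := (starConvex_zero_iff.1 hM.2.1) ht (le_refl (0 : ℝ)) zero_le_one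
  simpa using h3

private theorem bddAbove_set {M : Set E} (hM : IsStarBody M) {x : E} (hx : x ≠ 0) :
    BddAbove {t : ℝ | 0 ≤ t ∧ t • x ∈ M} := by
  obtain ⟨R, hR⟩ := hM.1.isBounded.exists_norm_le
  refine ⟨R / ‖x‖, ?_⟩
  rintro t ⟨h0, h1⟩
  rw [le_div_iff₀ (norm_pos_iff.2 hx)]
  have := hR _ h1
  rwa [norm_smul, Real.norm_of_nonneg h0] at this

/-- For a star body and `x ≠ 0` the set `{t ≥ 0 : t • x ∈ M}` is a compact interval `[0, ρ]`
(closed because `M` is compact, bounded because `M` is bounded and `x ≠ 0`, an interval containing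
`0` by star convexity: for `0 ≤ s ≤ t` and `t • x ∈ M` we have `s • x = (s / t) • (t • x) ∈ M`;
`0 ∈ M` because the radial function is positive so `M` is nonempty). -/
theorem mem_iff_le_radial {M : Set E} (hM : IsStarBody M) {x : E} (hx : x ≠ 0) {y : ℝ}
    (hy : 0 ≤ y) : y • x ∈ M ↔ y ≤ radial M x := by
  have h0 := zero_mem hM hx
  have hb := bddAbove_set hM hx
  have hclosed : IsClosed {t : ℝ | 0 ≤ t ∧ t • x ∈ M} := by
    apply IsClosed.inter isClosed_Ici
    exact hM.1.isClosed.preimage (continuous_id.smul continuous_const)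
  have hne : ({t : ℝ | 0 ≤ t ∧ t • x ∈ M}).Nonempty := ⟨0, le_refl _, by simpa using h0⟩
  constructor
  · intro h
    exact le_csSup hb ⟨hy, h⟩
  · intro h
    have hT : radial M x ∈ {t : ℝ | 0 ≤ t ∧ t • x ∈ M} := hclosed.csSup_mem hne hb
    rcases hT.1.eq_or_lt with h1 | h1
    · have : y = 0 := le_antisymm (h1 ▸ h) hy
      rw [this, zero_smul]
      exact h0
    · have h3 := (starConvex_zero_iff.1 hM.2.1) hT.2 (div_nonneg hy h1.le)
        ((div_le_one h1).2 h)
      rwa [smul_smul, div_mul_cancel₀ _ h1.ne'] at h3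

theorem radial_pos {M : Set E} (hM : IsStarBody M) {x : E} (hx : x ≠ 0) : 0 < radial M x := by
  rw [radial_eq_unit M hx]
  exact mul_pos (hM.2.2.1 _ (norm_unit hx)) (inv_pos.2 (norm_pos_iff.2 hx))

/-- `radial M x = radial M (‖x‖⁻¹ • x) / ‖x‖` and the radial function is continuous on the unit
sphere. -/
theorem continuousAt_radial {M : Set E} (hM : IsStarBody M) {x : E} (hx : x ≠ 0) :
    ContinuousAt (radial M) x := by
  have hne : ∀ᶠ z in 𝓝 x, z ≠ (0 : E) := isOpen_ne.mem_nhds hx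
  have hinv : ContinuousAt (fun z : E => ‖z‖⁻¹) x :=
    continuous_norm.continuousAt.inv₀ (norm_ne_zero_iff.2 hx)
  have hu : ContinuousAt (fun z : E => ‖z‖⁻¹ • z) x := hinv.smul continuousAt_id
  have hmaps : Tendsto (fun z : E => ‖z‖⁻¹ • z) (𝓝 x) (𝓝[sphere 0 1] (‖x‖⁻¹ • x)) := by
    refine tendsto_nhdsWithin_iff.2 ⟨hu, ?_⟩
    filter_upwards [hne] with z hz
    rw [mem_sphere_zero_iff_norm]
    exact norm_unit hz
  have hcont : ContinuousWithinAt (radial M) (sphere 0 1) (‖x‖⁻¹ • x) :=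
    hM.2.2.2 _ (by rw [mem_sphere_zero_iff_norm]; exact norm_unit hx)
  have h1 : Tendsto (fun z : E => radial M (‖z‖⁻¹ • z) * ‖z‖⁻¹) (𝓝 x)
      (𝓝 (radial M (‖x‖⁻¹ • x) * ‖x‖⁻¹)) := (hcont.tendsto.comp hmaps).mul hinv
  unfold ContinuousAt
  rw [radial_eq_unit M hx]
  refine h1.congr' ?_
  filter_upwards [hne] with z hz
  exact (radial_eq_unit M hz).symm

/-- Points strictly below the radial function are interior: for `y > 0` use that
`{z ≠ 0 : 1 < radial M z}` is open (continuity) and contained in `M`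
(`mem_iff_le_radial` with `y = 1`), and `radial M (y • x) = radial M x / y > 1`; for `y = 0` use
the hypothesis `h0`. -/
theorem smul_mem_interior {M : Set E} (hM : IsStarBody M) (h0 : (0 : E) ∈ interior M) {x : E}
    (hx : x ≠ 0) {y : ℝ} (hy : 0 ≤ y) (h : y < radial M x) : y • x ∈ interior M := by
  rcases hy.eq_or_lt with h1 | h1
  · rw [← h1, zero_smul]
    exact h0
  · have hyx : y • x ≠ 0 := smul_ne_zero h1.ne' hx
    have h2 : 1 < radial M (y • x) := by
      rw [radial_smul M x h1, one_lt_div h1]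
      exact h
    rw [mem_interior_iff_mem_nhds]
    have h3 : ∀ᶠ z in 𝓝 (y • x), 1 < radial M z :=
      (continuousAt_radial hM hyx).eventually_const_lt h2
    have h4 : ∀ᶠ z in 𝓝 (y • x), z ≠ (0 : E) := isOpen_ne.mem_nhds hyx
    filter_upwards [h3, h4] with z hz hz0
    have := (mem_iff_le_radial hM hz0 (zero_le_one (α := ℝ))).2 hz.le
    rwa [one_smul] at this

/-- Conversely, if `y • x ∈ interior M` then `(y + ε) • x ∈ M` for some `ε > 0` (continuity of
`t ↦ t • x`), so `y < radial M x`. -/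
theorem lt_radial_of_mem_interior {M : Set E} (hM : IsStarBody M) {x : E} (hx : x ≠ 0) {y : ℝ}
    (hy : 0 ≤ y) (h : y • x ∈ interior M) : y < radial M x := by
  have hc : ContinuousAt (fun t : ℝ => t • x) y :=
    (continuous_id.smul continuous_const).continuousAt
  have h1 : ∀ᶠ t in 𝓝 y, t • x ∈ interior M := hc.eventually (isOpen_interior.mem_nhds h)
  have h2 : ∃ᶠ t in 𝓝[>] y, t • x ∈ interior M :=
    (h1.filter_mono nhdsWithin_le_nhds).frequently
  obtain ⟨t, ht, hty⟩ := (h2.and_eventually self_mem_nhdsWithin).exists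
  have h3 : y < t := hty
  exact lt_of_lt_of_le h3
    ((mem_iff_le_radial hM hx (hy.trans h3.le)).1 (interior_subset ht))

/-- Membership in a translate. -/
theorem mem_translate {L : Set E} {p x : E} : x ∈ translate L p ↔ p + x ∈ L := by
  unfold translate
  constructor
  · rintro ⟨y, hy, rfl⟩
    simpa using hy
  · intro h
    exact ⟨p + x, h, by simp⟩

theorem mem_interior_translate {L : Set E} {p x : E} :
    x ∈ interior (translate L p) ↔ p + x ∈ interior L := by
  have h : translate L p = (Homeomorph.addLeft p) ⁻¹' L := by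
    ext z
    rw [mem_translate]
    rfl
  rw [h, ← Homeomorph.preimage_interior]
  rfl

end Pool.Agent.helper31.EQ
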