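import Pool.Agent.helper31.EQ.SeqFix
import Pool.Agent.helper31.EQ.BodyEnd

/-!
# EQ-T1: the interface between the generic part and the analytic estimates

A `TrapData e m` is a self-map of a space of sequences that the stable manifold of the node
recursion must satisfy.  `p` is a position (any coordinate), `x` the unknown of the link from the
node `p` to the next node; `w p x` is the next position and `X p x x'` the new value of `x`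
computed from the recursion with the next unknown `x'`.  Node `0` has its own functions.  The
recursion itself is only required for real positions.
-/

namespace Pool.Agent.helper31.EQ

open Set Metric Filter Topology ComplexConjugate

structure TrapData (e m : ℝ) where
  θ : ℝ
  hθ0 : 0 ≤ θ
  hθ1 : θ < 1
  /-- positions of node `0` / of the nodes `n ≥ 1` -/
  D0 : Set ℂ
  D1 : Set ℂ
  w0 : ℂ → ℂ → ℂ
  w1 : ℂ → ℂ → ℂ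
  X0 : ℂ → ℂ → ℂ → ℂ
  X1 : ℂ → ℂ → ℂ → ℂ
  /-- the value `V_+ / F` at node `0` -/
  H0 : ℂ → ℂ → ℂ
  /-- the slope `t` of a real position -/
  tr : ℝ → ℝ
  isOpen_D0 : IsOpen D0
  maps0 : ∀ p ∈ D0, ∀ x : ℂ, ‖x‖ ≤ 1 → w0 p x ∈ D1
  maps1 : ∀ p ∈ D1, ∀ x : ℂ, ‖x‖ ≤ 1 → w1 p x ∈ D1
  bound0 : ∀ p ∈ D0, ∀ x x' : ℂ, ‖x‖ ≤ 1 → ‖x'‖ ≤ 1 → ‖X0 p x x'‖ ≤ θ
  bound1 : ∀ p ∈ D1, ∀ x x' : ℂ, ‖x‖ ≤ 1 → ‖x'‖ ≤ 1 → ‖X1 p x x'‖ ≤ θ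
  diff_w0 : DifferentiableOn ℂ (fun q : ℂ × ℂ => w0 q.1 q.2) (D0 ×ˢ closedBall (0 : ℂ) 1)
  diff_w1 : DifferentiableOn ℂ (fun q : ℂ × ℂ => w1 q.1 q.2) (D1 ×ˢ closedBall (0 : ℂ) 1)
  diff_X0 : DifferentiableOn ℂ (fun q : ℂ × ℂ × ℂ => X0 q.1 q.2.1 q.2.2)
    (D0 ×ˢ closedBall (0 : ℂ) 1 ×ˢ closedBall (0 : ℂ) 1)
  diff_X1 : DifferentiableOn ℂ (fun q : ℂ × ℂ × ℂ => X1 q.1 q.2.1 q.2.2)
    (D1 ×ˢ closedBall (0 : ℂ) 1 ×ˢ closedBall (0 : ℂ) 1)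
  diff_H0 : DifferentiableOn ℂ (fun q : ℂ × ℂ => H0 q.1 q.2) (D0 ×ˢ closedBall (0 : ℂ) 1)
  /-- symmetry under complex conjugation -/
  conj_D0 : ∀ p ∈ D0, conj p ∈ D0
  conj_D1 : ∀ p ∈ D1, conj p ∈ D1
  conj_w0 : ∀ p ∈ D0, ∀ x : ℂ, ‖x‖ ≤ 1 → w0 (conj p) (conj x) = conj (w0 p x)
  conj_w1 : ∀ p ∈ D1, ∀ x : ℂ, ‖x‖ ≤ 1 → w1 (conj p) (conj x) = conj (w1 p x)
  conj_X0 : ∀ p ∈ D0, ∀ x x' : ℂ, ‖x‖ ≤ 1 → ‖x'‖ ≤ 1 →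
    X0 (conj p) (conj x) (conj x') = conj (X0 p x x')
  conj_X1 : ∀ p ∈ D1, ∀ x x' : ℂ, ‖x‖ ≤ 1 → ‖x'‖ ≤ 1 →
    X1 (conj p) (conj x) (conj x') = conj (X1 p x x')
  /-- real positions: nodes increase, the fixed point equation is the node relation -/
  lt0 : ∀ p x : ℝ, (p : ℂ) ∈ D0 → |x| ≤ 1 → tr p < tr (w0 p x).re
  lt1 : ∀ p x : ℝ, (p : ℂ) ∈ D1 → |x| ≤ 1 → tr p < tr (w1 p x).re
  law0 : ∀ p x x' : ℝ, (p : ℂ) ∈ D0 → |x| ≤ 1 → |x'| ≤ 1 → X0 p x x' = x →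
    (tr (w0 p x).re - tr p) ^ (-e) + (tr (w1 (w0 p x) x').re - tr (w0 p x).re) ^ (-e) =
      FF e m (tr (w0 p x).re)
  law1 : ∀ p x x' : ℝ, (p : ℂ) ∈ D1 → |x| ≤ 1 → |x'| ≤ 1 → X1 p x x' = x →
    (tr (w1 p x).re - tr p) ^ (-e) + (tr (w1 (w1 p x) x').re - tr (w1 p x).re) ^ (-e) =
      FF e m (tr (w1 p x).re)
  H0_real : ∀ p x : ℝ, (p : ℂ) ∈ D0 → |x| ≤ 1 →
    H0 p x = (((tr (w0 p x).re - tr p) ^ (-e) / FF e m (tr p) : ℝ) : ℂ)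
  /-- real nodes tend to infinity with ratio `m` -/
  tend : ∀ p x : ℕ → ℝ, (∀ n, (p n : ℂ) ∈ D1) → (∀ n, |x n| ≤ 1) →
    (∀ n, (p (n + 1) : ℂ) = w1 (p n) (x n)) → Tendsto (fun n => tr (p n)) atTop atTop
  ratio : ∀ ε > 0, ∃ B : ℝ, ∀ p x : ℝ, (p : ℂ) ∈ D1 → B ≤ tr p → |x| ≤ 1 →
    |tr (w1 p x).re / tr p - m| ≤ ε
  /-- the mirror: `tr` is odd near `0`, the segment `[-iη, iη]` is in `D0` and the value of `H`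
  at `iη` does not have real part `1/2` -/
  η : ℝ
  hη : 0 < η
  seg : ∀ y : ℝ, |y| ≤ η → ((y : ℂ) * Complex.I) ∈ D0
  δ : ℝ
  hδ : 0 < δ
  odd : ∀ p : ℝ, |p| < δ → tr (-p) = -tr p
  test : ∀ x x' : ℂ, ‖x‖ ≤ θ → ‖x'‖ ≤ θ → X0 ((η : ℂ) * Complex.I) x x' = x →
    (H0 ((η : ℂ) * Complex.I) x).re ≠ 1 / 2

end Pool.Agent.helper31.EQ
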