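import Pool.Agent.helper31.EQ.Trap

/-!
# EQ-T2: the trap orbit: existence, analyticity, reality
-/

namespace Pool.Agent.helper31.EQ

open Set Metric Filter Topology ComplexConjugate

/-- Positions of the nodes for a given start and given unknowns. -/
def TrapData.pos {e m : ℝ} (D : TrapData e m) (p : ℂ) (x : ℕ → ℂ) : ℕ → ℂ
  | 0 => p
  | 1 => D.w0 p (x 0)
  | n + 2 => D.w1 (TrapData.pos D p x (n + 1)) (x (n + 1))

/-- The sequence map. -/
def TrapData.Phi {e m : ℝ} (D : TrapData e m) (p : ℂ) (x : ℕ → ℂ) : ℕ → ℂ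
  | 0 => D.X0 p (x 0) (x 1)
  | n + 1 => D.X1 (D.pos p x (n + 1)) (x (n + 1)) (x (n + 2))

theorem TrapData.pos_mem {e m : ℝ} (D : TrapData e m) {p : ℂ} (hp : p ∈ D.D0) {x : ℕ → ℂ}
    (hx : ∀ n, ‖x n‖ ≤ 1) (n : ℕ) : D.pos p x (n + 1) ∈ D.D1 := by
  induction n with
  | zero => exact D.maps0 p hp (x 0) (hx 0)
  | succ n ih => exact D.maps1 _ ih (x (n + 1)) (hx (n + 1))

theorem TrapData.Phi_maps {e m : ℝ} (D : TrapData e m) {p : ℂ} (hp : p ∈ D.D0) {x : ℕ → ℂ}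
    (hx : ∀ n, ‖x n‖ ≤ 1) (n : ℕ) : ‖D.Phi p x n‖ ≤ D.θ := by
  cases n with
  | zero => exact D.bound0 p hp _ _ (hx 0) (hx 1)
  | succ n => exact D.bound1 _ (D.pos_mem hp hx n) _ _ (hx (n + 1)) (hx (n + 2))

/-- Compose `diff_w0`, `diff_w1`, `diff_X0`, `diff_X1` with the families
`z ↦ (p z, x z n)` etc. (`DifferentiableOn.comp` with `MapsTo`), induction on `n` for the
positions. -/
theorem TrapData.holFamily {e m : ℝ} (D : TrapData e m) : HolFamily D.D0 D.Phi := by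
  intro O τ x hO hτ hmaps hx hx1 n
  have hpos : ∀ n, DifferentiableOn ℂ (fun z => D.pos (τ z) (x z) (n + 1)) O := by
    intro n
    induction n with
    | zero =>
      exact D.diff_w0.comp (hτ.prodMk (hx 0)) (fun z hz =>
        ⟨hmaps hz, mem_closedBall_zero_iff.mpr (hx1 z hz 0)⟩)
    | succ n ih =>
      exact D.diff_w1.comp (ih.prodMk (hx (n + 1))) (fun z hz =>
        ⟨D.pos_mem (hmaps hz) (hx1 z hz) n, mem_closedBall_zero_iff.mpr (hx1 z hz (n + 1))⟩)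
  cases n with
  | zero =>
    exact D.diff_X0.comp (hτ.prodMk ((hx 0).prodMk (hx 1))) (fun z hz =>
      ⟨hmaps hz, mem_closedBall_zero_iff.mpr (hx1 z hz 0),
        mem_closedBall_zero_iff.mpr (hx1 z hz 1)⟩)
  | succ n =>
    exact D.diff_X1.comp ((hpos n).prodMk ((hx (n + 1)).prodMk (hx (n + 2)))) (fun z hz =>
      ⟨D.pos_mem (hmaps hz) (hx1 z hz) n, mem_closedBall_zero_iff.mpr (hx1 z hz (n + 1)),
        mem_closedBall_zero_iff.mpr (hx1 z hz (n + 2))⟩)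

private theorem TrapOrbit_pos_conj {e m : ℝ} (D : TrapData e m) {p : ℂ} (hp : p ∈ D.D0)
    {x : ℕ → ℂ} (hx : ∀ n, ‖x n‖ ≤ 1) (n : ℕ) :
    D.pos (conj p) (fun k => conj (x k)) n = conj (D.pos p x n) := by
  cases n with
  | zero => rfl
  | succ n =>
    induction n with
    | zero => exact D.conj_w0 p hp _ (hx 0)
    | succ n ih =>
      show D.w1 (D.pos (conj p) (fun k => conj (x k)) (n + 1)) (conj (x (n + 1))) = _
      rw [ih]
      exact D.conj_w1 _ (D.pos_mem hp hx n) _ (hx (n + 1))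

/-- Everything commutes with conjugation. -/
theorem TrapData.Phi_conj {e m : ℝ} (D : TrapData e m) {p : ℂ} (hp : p ∈ D.D0) {x : ℕ → ℂ}
    (hx : ∀ n, ‖x n‖ ≤ 1) (n : ℕ) :
    D.Phi (conj p) (fun k => conj (x k)) n = conj (D.Phi p x n) := by
  have hpos := TrapOrbit_pos_conj D hp hx
  cases n with
  | zero => exact D.conj_X0 p hp _ _ (hx 0) (hx 1)
  | succ n =>
    show D.X1 (D.pos (conj p) (fun k => conj (x k)) (n + 1)) (conj (x (n + 1)))
      (conj (x (n + 2))) = _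
    rw [hpos (n + 1)]
    exact D.conj_X1 _ (D.pos_mem hp hx n) _ _ (hx (n + 1)) (hx (n + 2))

/-- **The trap orbit.**  From `seqFix`; reality: for real `p`, the conjugate sequence is also a
fixed point, so by uniqueness `conj (X p n) = X p n`. -/
theorem TrapData.exists_orbit {e m : ℝ} (D : TrapData e m) :
    ∃ X : ℂ → ℕ → ℂ, (∀ n, DifferentiableOn ℂ (fun p => X p n) D.D0) ∧
      (∀ p ∈ D.D0, ∀ n, ‖X p n‖ ≤ D.θ ∧ D.Phi p (X p) n = X p n) ∧
      (∀ p : ℝ, (p : ℂ) ∈ D.D0 → ∀ n, (X p n).im = 0) := by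
  obtain ⟨X, hX1, hX2, hX3⟩ := seqFix D.isOpen_D0 D.hθ0 D.hθ1
    (fun p hp x hx n => D.Phi_maps hp hx n) D.holFamily
  refine ⟨X, hX1, fun p hp n => ⟨(hX2 p hp n).1, (hX2 p hp n).2.symm⟩, ?_⟩
  intro p hp n
  have h1 : ∀ n, ‖X p n‖ ≤ 1 := fun n => (hX2 p hp n).1.trans D.hθ1.le
  have h2 : ∀ n, conj (X p n) = D.Phi p (fun k => conj (X p k)) n := by
    intro n
    have h3 := D.Phi_conj hp h1 n
    rw [Complex.conj_ofReal] at h3
    rw [h3, ← (hX2 p hp n).2]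
  have h3 := hX3 p hp (fun k => conj (X p k)) (fun n => by
    rw [RCLike.norm_conj]
    exact h1 n) h2 n
  exact Complex.conj_eq_iff_im.1 h3

/-- Positions of a real start with real unknowns are real. -/
theorem TrapData.pos_real {e m : ℝ} (D : TrapData e m) {p : ℝ} (hp : (p : ℂ) ∈ D.D0)
    {x : ℕ → ℂ} (hx : ∀ n, ‖x n‖ ≤ 1) (hr : ∀ n, (x n).im = 0) (n : ℕ) :
    (D.pos p x n).im = 0 := by
  have h1 := TrapOrbit_pos_conj D hp hx n
  rw [Complex.conj_ofReal] at h1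
  have h2 : (fun k => conj (x k)) = x := by
    funext k
    exact Complex.conj_eq_iff_im.2 (hr k)
  rw [h2] at h1
  exact Complex.conj_eq_iff_im.1 h1.symm

end Pool.Agent.helper31.EQ
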