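import Pool.Agent.helper31.EQ.TrapOrbit

/-!
# EQ-T3: the real trap orbit is the orbit of the chord pair
-/

namespace Pool.Agent.helper31.EQ

open Set Metric Filter Topology ComplexConjugate

/-- limit of `f` along a sequence of nodes -/
private theorem TR_flim {e m : ℝ} (he : 1 < e) (hm : 1 < m) {t u : ℕ → ℝ}
    (ht : Tendsto t atTop atTop) (hu : Tendsto u atTop (𝓝 (m⁻¹)))
    (hlt : ∀ᶠ n in atTop, u n < 1) :
    Tendsto (fun n => (t n - u n * t n) ^ (-e) / FF e m (t n)) atTop (𝓝 (finf e m)) := by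
  have hm0 : 0 < m := by linarith
  have hm1 : 0 < m - 1 := by linarith
  have h3 : Tendsto (fun n => 1 - u n) atTop (𝓝 (1 - m⁻¹)) := hu.const_sub 1
  have hpos : 0 < 1 - m⁻¹ := by
    rw [sub_pos]; exact inv_lt_one_of_one_lt₀ hm
  have h4 : Tendsto (fun n => (1 - u n) ^ (-e)) atTop (𝓝 ((1 - m⁻¹) ^ (-e))) :=
    h3.rpow_const (Or.inl hpos.ne')
  have h5 : Tendsto (fun n => (t n ^ 2)⁻¹) atTop (𝓝 0) :=
    ((tendsto_pow_atTop (two_ne_zero)).comp ht).inv_tendsto_atTop
  have h6 : Tendsto (fun n => (1 + (t n ^ 2)⁻¹) ^ (-e / 2)) atTop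
      (𝓝 ((1 + 0) ^ (-e / 2))) :=
    (h5.const_add 1).rpow_const (Or.inl (by norm_num))
  rw [add_zero, Real.one_rpow] at h6
  have hCC := CC_pos (e := e) hm
  have h7 := h4.div (h6.const_mul (CC e m)) (by rw [mul_one]; exact hCC.ne')
  have hval : (1 - m⁻¹) ^ (-e) / (CC e m * 1) = finf e m := by
    have e1 : (1 - m⁻¹) = (m - 1) / m := by field_simp
    have hme : 0 < m ^ e := Real.rpow_pos_of_pos hm0 e
    have hme1 : 0 < (m - 1) ^ e := Real.rpow_pos_of_pos hm1 e
    rw [mul_one, e1, Real.rpow_neg (div_nonneg hm1.le hm0.le), Real.div_rpow hm1.le hm0.le, CC,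
      finf]
    have h8 : (0 : ℝ) < 1 + m ^ e := by positivity
    field_simp
  rw [hval] at h7
  refine h7.congr' ?_
  filter_upwards [ht.eventually_gt_atTop 0, hlt] with n htn hun
  have hu1 : 0 < 1 - u n := by linarith
  have e2 : t n - u n * t n = t n * (1 - u n) := by ring
  have e3 : 1 + t n ^ 2 = t n ^ 2 * (1 + (t n ^ 2)⁻¹) := by field_simp; ring
  have e4 : (t n ^ 2 : ℝ) ^ (-e / 2) = t n ^ (-e) := by
    rw [← Real.rpow_natCast (t n) 2, ← Real.rpow_mul htn.le]
    congr 1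
    push_cast
    ring
  have hte : 0 < t n ^ (-e) := Real.rpow_pos_of_pos htn _
  have hv : (0 : ℝ) < 1 + (t n ^ 2)⁻¹ := by positivity
  have hve : 0 < (1 + (t n ^ 2)⁻¹) ^ (-e / 2) := Real.rpow_pos_of_pos hv _
  simp only [Pi.div_apply, FF]
  rw [e3, Real.mul_rpow (by positivity) hv.le, e4, e2, Real.mul_rpow htn.le hu1.le]
  have hne := hte.ne'
  have hne2 := hve.ne'
  have hne3 := hCC.ne'
  generalize (1 - u n) ^ (-e) = A
  generalize (1 + (t n ^ 2)⁻¹) ^ (-e / 2) = B at *
  generalize t n ^ (-e) = D at *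
  field_simp

/-- A real sequence with the node relation that tends to infinity with ratio `m` is an orbit of
`g` from some index on. -/
private theorem TR_tail {e m : ℝ} (he : 1 < e) (hm : 1 < m) {g h : ℝ ≃o ℝ}
    (hc : ChordPair e m g h) {s : ℕ → ℝ} (hlt : ∀ n, s n < s (n + 1))
    (hlaw : ∀ n, (s (n + 1) - s n) ^ (-e) + (s (n + 2) - s (n + 1)) ^ (-e) =
      FF e m (s (n + 1)))
    (hs : Tendsto s atTop atTop) (hr : Tendsto (fun n => s (n + 1) / s n) atTop (𝓝 m)) :
    ∀ᶠ n in atTop, g (s n) = s (n + 1) := by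
  have hm0 : 0 < m := by linarith
  obtain ⟨ε₀, hε₀, T₀, hT₀, hU⟩ := orb_unique he hm
  have ev : ∀ k₁ k₂ : ℝ ≃o ℝ, ChordPair e m k₁ k₂ →
      ∀ᶠ t in atTop, |fval e m k₁ t - finf e m| ≤ ε₀ := by
    intro k₁ k₂ hk
    filter_upwards [(Metric.tendsto_nhds.1 (hk.tendsto_fval he hm)) ε₀ hε₀] with t ht
    rw [Real.dist_eq] at ht; exact ht.le
  obtain ⟨T₁, hT₁⟩ := eventually_atTop.1 ((ev g h hc).and (ev h g hc.swap))
  have hs1 : Tendsto (fun n => s (n + 1)) atTop atTop := (tendsto_add_atTop_iff_nat 1).2 hs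
  have hpos : ∀ᶠ n in atTop, 0 < s n := hs.eventually_gt_atTop 0
  have hpos1 : ∀ᶠ n in atTop, 0 < s (n + 1) := hs1.eventually_gt_atTop 0
  have hu : Tendsto (fun n => s n / s (n + 1)) atTop (𝓝 (m⁻¹)) := by
    refine (hr.inv₀ hm0.ne').congr fun n => ?_
    rw [inv_div]
  have hu1 : ∀ᶠ n in atTop, s n / s (n + 1) < 1 := by
    filter_upwards [hpos1] with n hn
    rw [div_lt_one hn]; exact hlt n
  have hfl : Tendsto (fun n => (s (n + 1) - s n) ^ (-e) / FF e m (s (n + 1))) atTop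
      (𝓝 (finf e m)) := by
    refine (TR_flim he hm hs1 hu hu1).congr' ?_
    filter_upwards [hpos1] with n hn
    rw [div_mul_cancel₀ _ hn.ne']
  have hfe : ∀ᶠ n in atTop,
      |(s (n + 1) - s n) ^ (-e) / FF e m (s (n + 1)) - finf e m| ≤ ε₀ := by
    filter_upwards [(Metric.tendsto_nhds.1 hfl) ε₀ hε₀] with t ht
    rw [Real.dist_eq] at ht; exact ht.le
  obtain ⟨M₀, hM₀⟩ := eventually_atTop.1 (hfe.and (hs.eventually_ge_atTop (max T₀ T₁)))
  have key : ∀ M, M₀ ≤ M → g (s (M + 1)) = s (M + 2) := by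
    intro M hM
    have hT : ∀ k, max T₀ T₁ ≤ s (M + 1 + k) := fun k => (hM₀ _ (by omega)).2
    have horb : IsOrb e m (fun k => s (M + 1 + k))
        (fun k => (s (M + k + 1) - s (M + k)) ^ (-e) / FF e m (s (M + k + 1))) := by
      refine ⟨fun k => ?_, fun k => ?_, fun k => ?_, fun k => ?_, fun k => ?_⟩
      · exact hT₀.trans_le ((le_max_left _ _).trans (hT k))
      · exact hlt _
      · refine div_pos (Real.rpow_pos_of_pos ?_ _) (FF_pos hm _)
        have := hlt (M + k)
        linarith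
      · have hF := FF_pos (e := e) hm (s (M + (k + 1) + 1))
        show (s (M + 1 + (k + 1)) - s (M + 1 + k)) ^ (-e) = FF e m (s (M + 1 + (k + 1))) *
          ((s (M + (k + 1) + 1) - s (M + (k + 1))) ^ (-e) / FF e m (s (M + (k + 1) + 1)))
        have i1 : M + 1 + (k + 1) = M + (k + 1) + 1 := by omega
        have i2 : M + 1 + k = M + (k + 1) := by omega
        rw [i1, i2, mul_div_cancel₀ _ hF.ne']
      · have hF := FF_pos (e := e) hm (s (M + k + 1))
        have hl := hlaw (M + k)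
        show (s (M + 1 + (k + 1)) - s (M + 1 + k)) ^ (-e) = FF e m (s (M + 1 + k)) *
          (1 - (s (M + k + 1) - s (M + k)) ^ (-e) / FF e m (s (M + k + 1)))
        have i1 : M + 1 + (k + 1) = M + k + 2 := by omega
        have i2 : M + 1 + k = M + k + 1 := by omega
        rw [i1, i2, mul_sub, mul_one, mul_div_cancel₀ _ hF.ne']
        linarith
    have ht0 : T₀ ≤ s (M + 1) := (le_max_left _ _).trans (hT 0)
    have ht1 : T₁ ≤ s (M + 1) := (le_max_right _ _).trans (hT 0)
    have horb' := hc.isOrb he hm (t := s (M + 1)) (hT₀.trans_le ht0)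
    have hge : ∀ n, s (M + 1) ≤ orb g h (s (M + 1)) n := by
      intro n
      induction n with
      | zero => exact le_refl _
      | succ n ih => exact ih.trans (horb'.lt n).le
    have := hU _ _ _ _ horb horb' (fun n => (le_max_left _ _).trans (hT n))
      (fun n => ht0.trans (hge n)) (fun n => ?_) (fun n => ?_) rfl 1
    · exact this.symm
    · exact (hM₀ (M + n) (by omega)).1
    · unfold orbf
      split_ifs
      · exact (hT₁ _ (ht1.trans (hge n))).2
      · exact (hT₁ _ (ht1.trans (hge n))).1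
  refine eventually_atTop.2 ⟨M₀ + 1, fun n hn => ?_⟩
  obtain ⟨M, rfl⟩ : ∃ M, n = M + 1 := ⟨n - 1, by omega⟩
  exact key M (by omega)

/-- The downward part. -/
private theorem TR_down {e m : ℝ} (he : 1 < e) (hm : 1 < m) {g h : ℝ ≃o ℝ}
    (hc : ChordPair e m g h) {s : ℕ → ℝ} (hlt : ∀ n, s n < s (n + 1))
    (hlaw : ∀ n, (s (n + 1) - s n) ^ (-e) + (s (n + 2) - s (n + 1)) ^ (-e) =
      FF e m (s (n + 1))) {n : ℕ} (hn : g (s (n + 1)) = s (n + 2)) : g (s n) = s (n + 1) := by
  obtain ⟨hs1, hs2, hs3⟩ := hc.symmetric he hm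
  have r := hc.rel_g (s (n + 1))
  have hl := hlaw n
  rw [hn] at r
  have hsy : h.symm (s (n + 1)) = g.symm (s (n + 1)) := by rw [hs3, hs2]
  rw [hsy] at r
  have e1 : (s (n + 1) - g.symm (s (n + 1))) ^ (-e) = (s (n + 1) - s n) ^ (-e) := by linarith
  have p1 : 0 ≤ s (n + 1) - s n := by have := hlt n; linarith
  have p2 : 0 ≤ s (n + 1) - g.symm (s (n + 1)) := by
    have := hc.gt_g (g.symm (s (n + 1)))
    rw [OrderIso.apply_symm_apply] at this; linarith
  have e2 := Real.rpow_left_injOn (x := -e) (by linarith : -e ≠ 0) p2 p1 e1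
  have e3 : g.symm (s (n + 1)) = s n := by linarith
  calc g (s n) = g (g.symm (s (n + 1))) := by rw [e3]
    _ = s (n + 1) := by rw [OrderIso.apply_symm_apply]

/-- **Identification.**  Let `p` be real in `D0` and let `x` be a real fixed point.  Put
`s n = tr (pos n)` (all positions are real by `pos_real`).  By `lt0`, `lt1` `s` is strictly
increasing, by `tend` (applied to the sequence `n ↦ pos (n + 1)`) `s n → ∞`, by `law0`, `law1`
`(s (n+1) - s n)^(-e) + (s (n+2) - s (n+1))^(-e) = F(s (n+1))` for all `n`.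
(a) There is `N ≥ 1` such that for all `n ≥ N`, `g (s n) = s (n+1)`: with `ε₀, T₀` of `orb_unique`
choose `N` such that `s n ≥ T₀` and `|f n - f_∞| ≤ ε₀` for `n ≥ N`, where
`f n = (s n - s (n-1))^(-e) / F(s n)` (from `ratio`: `s n / s (n-1) → m`, and `s n → ∞`, the limit is
computed as in the proof of `ChordPair.tendsto_fval`), and that the body orbit `orb g g (s N)` has
the same property (`ChordPair.tendsto_fval`).  Both `k ↦ s (N+k)` (with `f (N + k)`) and
`orb g g (s N)` are `IsOrb` (`ChordPair.isOrb` with `h = g`: by `ChordPair.symmetric` `h = g`, so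
`ChordPair e m g g`), so they coincide.  This argument works for each `n ≥ N` as well.
(b) Downward: if `g (s (n+1)) = s (n+2)`, the node relation of `g` at `s (n+1)`,
`(g s - s)^(-e) + (s - g⁻¹ s)^(-e) = F(s)` (`hc.rel_g` with `h = g`), gives
`(s (n+1) - g⁻¹ (s (n+1)))^(-e) = (s (n+1) - s n)^(-e)`, so `g⁻¹ (s (n+1)) = s n`
(`Real.rpow_left_injOn`), i.e. `g (s n) = s (n+1)`. -/
theorem TrapData.real_orbit {e m : ℝ} (he : 1 < e) (hm : 1 < m) (D : TrapData e m)
    {g h : ℝ ≃o ℝ} (hc : ChordPair e m g h) {p : ℝ} (hp : (p : ℂ) ∈ D.D0) {x : ℕ → ℂ}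
    (hx : ∀ n, ‖x n‖ ≤ 1) (hr : ∀ n, (x n).im = 0) (hfix : ∀ n, D.Phi p x n = x n) :
    g (D.tr p) = D.tr (D.w0 p (x 0)).re := by
  have hm0 : 0 < m := by linarith
  -- real unknowns and real positions
  have hxr : ∀ n, (((x n).re : ℝ) : ℂ) = x n := fun n =>
    Complex.ext (by simp) (by simp [hr n])
  have hxa : ∀ n, |(x n).re| ≤ 1 := fun n => (Complex.abs_re_le_norm _).trans (hx n)
  have hpr : ∀ n, (((D.pos p x n).re : ℝ) : ℂ) = D.pos p x n := fun n =>
    Complex.ext (by simp) (by simp [D.pos_real hp hx hr n])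
  have hp0 : (D.pos p x 0).re = p := by
    show ((p : ℂ)).re = p
    simp
  have hp1 : D.pos p x 1 = D.w0 p (x 0) := rfl
  have hp2 : ∀ n, D.pos p x (n + 2) = D.w1 (D.pos p x (n + 1)) (x (n + 1)) := fun n => rfl
  have hD1 : ∀ n, (((D.pos p x (n + 1)).re : ℝ) : ℂ) ∈ D.D1 := by
    intro n
    rw [hpr]
    exact D.pos_mem hp hx n
  set s : ℕ → ℝ := fun n => D.tr (D.pos p x n).re with hsdef
  have hs0 : s 0 = D.tr p := by
    show D.tr (D.pos p x 0).re = _
    rw [hp0]
  have hs1 : s 1 = D.tr (D.w0 p (x 0)).re := by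
    show D.tr (D.pos p x 1).re = _
    rw [hp1]
  have hlt : ∀ n, s n < s (n + 1) := by
    intro n
    rcases n with _ | n
    · rw [hs0, hs1]
      have := D.lt0 p (x 0).re hp (hxa 0)
      rwa [hxr] at this
    · have := D.lt1 (D.pos p x (n + 1)).re (x (n + 1)).re (hD1 n) (hxa _)
      rw [hxr, hpr, ← hp2] at this
      exact this
  have hlaw : ∀ n, (s (n + 1) - s n) ^ (-e) + (s (n + 2) - s (n + 1)) ^ (-e) =
      FF e m (s (n + 1)) := by
    intro n
    rcases n with _ | n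
    · have h1 : D.X0 p (x 0) (x 1) = x 0 := hfix 0
      have := D.law0 p (x 0).re (x 1).re hp (hxa 0) (hxa 1) (by rw [hxr, hxr]; exact h1)
      rw [hxr, hxr] at this
      rw [show (0 : ℕ) + 1 = 1 from rfl, show (0 : ℕ) + 2 = 2 from rfl, hs0, hs1]
      exact this
    · have h1 : D.X1 (D.pos p x (n + 1)) (x (n + 1)) (x (n + 2)) = x (n + 1) := hfix (n + 1)
      have := D.law1 (D.pos p x (n + 1)).re (x (n + 1)).re (x (n + 2)).re (hD1 n) (hxa _)
        (hxa _) (by rw [hxr, hxr, hpr]; exact h1)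
      rw [hxr, hxr, hpr, ← hp2, ← hp2] at this
      exact this
  have htend1 : Tendsto (fun n => s (n + 1)) atTop atTop := by
    refine D.tend (fun n => (D.pos p x (n + 1)).re) (fun n => (x (n + 1)).re) hD1
      (fun n => hxa _) (fun n => ?_)
    show (((D.pos p x (n + 1 + 1)).re : ℝ) : ℂ) = _
    rw [hpr, hpr, hxr]
    rfl
  have htend : Tendsto s atTop atTop := (tendsto_add_atTop_iff_nat 1).1 htend1
  have hratio1 : Tendsto (fun n => s (n + 1 + 1) / s (n + 1)) atTop (𝓝 m) := by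
    rw [Metric.tendsto_nhds]
    intro ε hε
    obtain ⟨B, hB⟩ := D.ratio (ε / 2) (by linarith)
    filter_upwards [htend1.eventually_ge_atTop B] with n hn
    have := hB (D.pos p x (n + 1)).re (x (n + 1)).re (hD1 n) hn (hxa _)
    rw [hxr, hpr, ← hp2] at this
    rw [Real.dist_eq]
    have h2 : |s (n + 1 + 1) / s (n + 1) - m| ≤ ε / 2 := this
    linarith
  have hratio : Tendsto (fun n => s (n + 1) / s n) atTop (𝓝 m) :=
    (tendsto_add_atTop_iff_nat (f := fun n => s (n + 1) / s n) 1).1 hratio1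
  obtain ⟨N, hN⟩ := eventually_atTop.1 (TR_tail he hm hc hlt hlaw htend hratio)
  have hall : ∀ k, k ≤ N → g (s (N - k)) = s (N - k + 1) := by
    intro k
    induction k with
    | zero => intro _; exact hN _ (by omega)
    | succ k ih =>
      intro hk
      have h1 := ih (by omega)
      have i1 : N - k = N - (k + 1) + 1 := by omega
      rw [i1] at h1
      exact TR_down he hm hc hlt hlaw h1
  have h0 := hall N le_rfl
  rw [Nat.sub_self, hs0, show (0 : ℕ) + 1 = 1 from rfl, hs1] at h0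
  exact h0

end Pool.Agent.helper31.EQ
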